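import Pool.Agent.Lib_MP_752436_tp.FlowBox

/-!
Piece F4: OneDim.lean.
-/

open Metric Set Filter
open scoped ContDiff Topology

namespace Pool.Agent.Lib_MP_752436_tp

open Pool.Agent.Lib_MP_752436_gt

section Aux

variable {F : Plane → EuclideanSpace ℝ (Fin 4)}

theorem od_contDiff_coord (hF : IsSliceDisc F) (i : Fin 4) : ContDiff ℝ ∞ (fun x => F x i) :=
  contDiff_euclidean.mp hF.smooth i

theorem od_contDiff_shadow (hF : IsSliceDisc F) : ContDiff ℝ ∞ (shadow F) := by
  rw [contDiff_euclidean]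
  intro i
  fin_cases i
  · exact od_contDiff_coord hF 0
  · exact od_contDiff_coord hF 1
  · exact od_contDiff_coord hF 2

theorem od_continuous_shadow (hF : IsSliceDisc F) : Continuous (shadow F) :=
  (od_contDiff_shadow hF).continuous

theorem od_continuous_height (hF : IsSliceDisc F) : Continuous (fun x => F x 3) :=
  (od_contDiff_coord hF 3).continuous

/-- Points with the same shadow and the same height coincide. -/
theorem od_eq_of_shadow (hF : IsSliceDisc F) {x y : Plane} (hx : x ∈ closedBall (0 : Plane) 1)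
    (hy : y ∈ closedBall (0 : Plane) 1) (hs : shadow F x = shadow F y) (h3 : F x 3 = F y 3) :
    x = y := by
  apply hF.inj hx hy
  ext i
  fin_cases i
  · exact congrArg (fun u : Space => u 0) hs
  · exact congrArg (fun u : Space => u 1) hs
  · exact congrArg (fun u : Space => u 2) hs
  · exact h3

/-- The upper point of a pair of the double set lies in the open disc. -/
theorem od_fst_mem_ball (hF : IsSliceDisc F) {p : Plane × Plane} (hp : p ∈ DoubleSet F) :
    p.1 ∈ ball (0 : Plane) 1 := by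
  obtain ⟨h1, h2, -, h4⟩ := hp
  rcases (mem_closedBall.mp h1).lt_or_eq with h | h
  · exact mem_ball.mpr h
  · exfalso
    have hx0 : F p.1 3 = 0 := hF.boundary p.1 (mem_sphere.mpr h)
    have hy0 : 0 ≤ F p.2 3 := by
      rcases (mem_closedBall.mp h2).lt_or_eq with h' | h'
      · exact (hF.interior p.2 (mem_ball.mpr h')).le
      · exact (hF.boundary p.2 (mem_sphere.mpr h')).ge
    linarith

end Aux

theorem isCompact_doubleSet {F : Plane → EuclideanSpace ℝ (Fin 4)} (hF : IsSliceDisc F)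
    (hg : GeneralPosition F) : IsCompact (DoubleSet F) := by
  have hcomp : IsCompact (closedBall (0 : Plane) 1 ×ˢ closedBall (0 : Plane) 1) :=
    (isCompact_closedBall 0 1).prod (isCompact_closedBall 0 1)
  refine hcomp.of_isClosed_subset ?_ (fun p hp => ⟨hp.1, hp.2.1⟩)
  refine isClosed_of_closure_subset fun p hp => ?_
  have hsub : closure (DoubleSet F) ⊆ {p : Plane × Plane | p.1 ∈ closedBall (0 : Plane) 1 ∧
      p.2 ∈ closedBall (0 : Plane) 1 ∧ shadow F p.1 = shadow F p.2 ∧ F p.2 3 ≤ F p.1 3} := by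
    refine closure_minimal (fun q hq => ⟨hq.1, hq.2.1, hq.2.2.1, hq.2.2.2.le⟩) ?_
    refine IsClosed.inter (isClosed_closedBall.preimage continuous_fst)
      (IsClosed.inter (isClosed_closedBall.preimage continuous_snd)
      (IsClosed.inter (isClosed_eq ((od_continuous_shadow hF).comp continuous_fst)
        ((od_continuous_shadow hF).comp continuous_snd))
      (isClosed_le ((od_continuous_height hF).comp continuous_snd)
        ((od_continuous_height hF).comp continuous_fst))))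
  obtain ⟨h1, h2, h3, h4⟩ := hsub hp
  refine ⟨h1, h2, h3, lt_of_le_of_ne h4 fun h5 => ?_⟩
  have hxy : p.1 = p.2 := od_eq_of_shadow hF h1 h2 h3 h5.symm
  have hst := ((od_contDiff_shadow hF).contDiffAt (x := p.1)).hasStrictFDerivAt (by simp)
  obtain ⟨r, hr, hinj⟩ : ∃ r : ℝ, 0 < r ∧ InjOn (shadow F) (ball p.1 r) := by
    have hker : LinearMap.ker (fderiv ℝ (shadow F) p.1 : Plane →ₗ[ℝ] Space) = ⊥ :=
      LinearMap.ker_eq_bot.mpr (hg.immersion p.1 h1)
    obtain ⟨K, hK, hA⟩ := LinearMap.exists_antilipschitzWith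
      (fderiv ℝ (shadow F) p.1 : Plane →ₗ[ℝ] Space) hker
    obtain ⟨s, hs, happ⟩ := hst.approximates_deriv_on_nhds
      (c := K⁻¹ / 2) (Or.inr (by positivity))
    obtain ⟨r, hr, hsub⟩ := Metric.mem_nhds_iff.mp hs
    refine ⟨r, hr, fun x hx y hy hxy => ?_⟩
    have h1 := happ x (hsub hx) y (hsub hy)
    rw [hxy, sub_self, zero_sub, norm_neg] at h1
    have h2 : ‖x - y‖ ≤ K * ‖fderiv ℝ (shadow F) p.1 (x - y)‖ :=
      ZeroHomClass.bound_of_antilipschitz _ hA (x - y)
    have hK' : (0 : ℝ) < K := by exact_mod_cast hK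
    have h3 : ‖x - y‖ ≤ K * (((K⁻¹ / 2 : NNReal) : ℝ) * ‖x - y‖) :=
      h2.trans (mul_le_mul_of_nonneg_left h1 hK'.le)
    have h4 : (K : ℝ) * (((K⁻¹ / 2 : NNReal) : ℝ) * ‖x - y‖) = ‖x - y‖ / 2 := by
      push_cast
      field_simp
    rw [h4] at h3
    have h5 : ‖x - y‖ ≤ 0 := by linarith
    exact sub_eq_zero.mp (norm_le_zero_iff.mp h5)
  have hO : ball p.1 r ×ˢ ball p.2 r ∈ 𝓝 p :=
    prod_mem_nhds (ball_mem_nhds _ hr) (ball_mem_nhds _ hr)
  obtain ⟨q, hqO, hqD⟩ := mem_closure_iff_nhds.mp hp _ hO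
  have hq : q.1 = q.2 := by
    refine hinj hqO.1 ?_ hqD.2.2.1
    rw [hxy]
    exact hqO.2
  have := hqD.2.2.2
  rw [hq] at this
  exact lt_irrefl _ this

section Flow

variable {F : Plane → EuclideanSpace ℝ (Fin 4)} {v : Plane × Plane → Plane × Plane}
  {Φ : ℝ → Plane × Plane → Plane × Plane}

theorem od_field_eq (h : CutFlow (shadow F) v Φ) {c : Plane × Plane} (hc : c ∈ DoubleSet F) :
    v c = field (shadow F) c :=
  h.agree c (mem_ball.mpr ((mem_closedBall.mp hc.1).trans_lt (by norm_num)))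
    (mem_ball.mpr ((mem_closedBall.mp hc.2.1).trans_lt (by norm_num)))

theorem od_kernel (hg : GeneralPosition F) {c : Plane × Plane} (hc : c ∈ DoubleSet F) :
    (field (shadow F) c).1 ≠ 0 ∧ (field (shadow F) c).2 ≠ 0 :=
  let h := field_kernel (hg.immersion c.1 hc.1) (hg.immersion c.2 hc.2.1) (hg.double c.1 c.2 hc)
  ⟨h.1, h.2.1⟩

theorem od_continuous_flow (h : CutFlow (shadow F) v Φ) (c : Plane × Plane) :
    Continuous fun t => Φ t c :=
  continuous_iff_continuousAt.mpr fun t => (h.flow.deriv c t).continuousAt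

/-- A point of the orbit of a double point with both points in the open disc and the right
heights is a double point. -/
theorem od_mem (hF : IsSliceDisc F) (h : CutFlow (shadow F) v Φ) {c : Plane × Plane}
    (hc : c ∈ DoubleSet F) {t : ℝ} (h1 : (Φ t c).1 ∈ ball (0 : Plane) 1)
    (h2 : (Φ t c).2 ∈ ball (0 : Plane) 1) (h3 : F (Φ t c).2 3 < F (Φ t c).1 3) :
    Φ t c ∈ DoubleSet F := by
  refine ⟨ball_subset_closedBall h1, ball_subset_closedBall h2, ?_, h3⟩
  have := CutFlow.const (od_contDiff_shadow hF) h c t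
  rw [hc.2.2.1, sub_self] at this
  exact sub_eq_zero.mp this

/-- The conditions which persist near `0`. -/
theorem od_eventually (hF : IsSliceDisc F) (h : CutFlow (shadow F) v Φ) {c : Plane × Plane}
    (hc : c ∈ DoubleSet F) :
    ∀ᶠ t in 𝓝 (0 : ℝ), (Φ t c).1 ∈ ball (0 : Plane) 1 ∧ F (Φ t c).2 3 < F (Φ t c).1 3 := by
  have hcont := od_continuous_flow h c
  have h1 : ∀ᶠ t in 𝓝 (0 : ℝ), (Φ t c).1 ∈ ball (0 : Plane) 1 := by
    refine (continuous_fst.comp hcont).continuousAt.eventually_mem (isOpen_ball.mem_nhds ?_)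
    simp only [Function.comp, h.flow.zero]
    exact od_fst_mem_ball hF hc
  have h2 : ∀ᶠ t in 𝓝 (0 : ℝ), F (Φ t c).2 3 < F (Φ t c).1 3 := by
    have hd : ContinuousAt (fun t => F (Φ t c).1 3 - F (Φ t c).2 3) 0 :=
      (((od_continuous_height hF).comp (continuous_fst.comp hcont)).sub
        ((od_continuous_height hF).comp (continuous_snd.comp hcont))).continuousAt
    have h0 : (0 : ℝ) < F (Φ 0 c).1 3 - F (Φ 0 c).2 3 := by
      rw [h.flow.zero]
      linarith [hc.2.2.2]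
    filter_upwards [hd.eventually (lt_mem_nhds h0)] with t ht
    linarith
  exact h1.and h2

theorem od_stay (hF : IsSliceDisc F) (h : CutFlow (shadow F) v Φ) {c : Plane × Plane}
    (hc : c ∈ DoubleSet F) (hc2 : c.2 ∈ ball (0 : Plane) 1) :
    ∃ η > 0, ∀ t, |t| < η → Φ t c ∈ DoubleSet F := by
  have h2 : ∀ᶠ t in 𝓝 (0 : ℝ), (Φ t c).2 ∈ ball (0 : Plane) 1 := by
    refine (continuous_snd.comp (od_continuous_flow h c)).continuousAt.eventually_mem
      (isOpen_ball.mem_nhds ?_)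
    simp only [Function.comp, h.flow.zero]
    exact hc2
  obtain ⟨η, hη, hη2⟩ := Metric.eventually_nhds_iff.mp ((od_eventually hF h hc).and h2)
  refine ⟨η, hη, fun t ht => ?_⟩
  have := hη2 (y := t) (by simpa [Real.dist_eq] using ht)
  exact od_mem hF h hc this.1.1 this.2 this.1.2

theorem od_inner_ne (hg : GeneralPosition F) (h : CutFlow (shadow F) v Φ) {c : Plane × Plane}
    (hc : c ∈ DoubleSet F) (hc2 : c.2 ∈ sphere (0 : Plane) 1) :
    inner ℝ c.2 (v c).2 ≠ 0 := by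
  intro h0
  have hv := od_field_eq h hc
  have hk := (od_kernel hg hc).2
  rw [hv] at h0
  exact hk (hg.boundary c.1 c.2 hc hc2 _ _ h0 (field_parallel c))

/-- The squared norm of the lower point along the flow. -/
theorem od_hasDerivAt_normSq (h : CutFlow (shadow F) v Φ) (c : Plane × Plane) :
    HasDerivAt (fun t => ‖(Φ t c).2‖ ^ 2) (2 * inner ℝ c.2 (v c).2) 0 := by
  have h1 := h.flow.deriv c 0
  rw [h.flow.zero] at h1
  have h2 : HasDerivAt (fun t => (Φ t c).2) (v c).2 0 := h1.snd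
  have h3 := h2.norm_sq
  rw [h.flow.zero] at h3
  exact h3

/-- A function with positive derivative at `0`. -/
theorem od_pos_deriv {g : ℝ → ℝ} {a : ℝ} (hg : HasDerivAt g a 0) (ha : 0 < a) :
    ∀ᶠ t in 𝓝[>] (0 : ℝ), g 0 < g t ∧ g (-t) < g 0 := by
  have h1 : ∀ᶠ t in 𝓝[≠] (0 : ℝ), 0 < slope g 0 t :=
    (hasDerivAt_iff_tendsto_slope.mp hg).eventually (lt_mem_nhds ha)
  have h2 : ∀ᶠ t in 𝓝 (0 : ℝ), t ≠ 0 → 0 < slope g 0 t := eventually_nhdsWithin_iff.mp h1
  have h3 : ∀ᶠ t in 𝓝 (0 : ℝ), -t ≠ 0 → 0 < slope g 0 (-t) := by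
    have : Tendsto (fun t : ℝ => -t) (𝓝 0) (𝓝 0) := by
      simpa using (continuous_neg.tendsto (0 : ℝ))
    exact this.eventually h2
  have h4 := (h2.and h3).filter_mono (nhdsWithin_le_nhds (s := Ioi (0 : ℝ)))
  filter_upwards [h4, self_mem_nhdsWithin] with t ht htpos
  have htp : (0 : ℝ) < t := htpos
  have e1 := ht.1 htp.ne'
  have e2 := ht.2 (neg_ne_zero.mpr htp.ne')
  simp only [slope_def_field, sub_zero] at e1 e2
  constructor
  · have := (div_pos_iff_of_pos_right htp).mp e1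
    linarith
  · rw [div_neg, neg_pos] at e2
    have := (div_neg_iff.mp e2)
    rcases this with h | h
    · linarith [h.2]
    · linarith [h.1]

theorem od_sphere_iff {y : Plane} : y ∈ sphere (0 : Plane) 1 ↔ ‖y‖ ^ 2 = 1 := by
  rw [mem_sphere_zero_iff_norm]
  constructor
  · intro h; rw [h]; norm_num
  · intro h
    have h0 := norm_nonneg y
    nlinarith

theorem od_ball_iff {y : Plane} : y ∈ ball (0 : Plane) 1 ↔ ‖y‖ ^ 2 < 1 := by
  rw [mem_ball_zero_iff]
  have h0 := norm_nonneg y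
  constructor
  · intro h; nlinarith
  · intro h; nlinarith

theorem od_notMem_closedBall {y : Plane} (h : 1 < ‖y‖ ^ 2) : y ∉ closedBall (0 : Plane) 1 := by
  rw [mem_closedBall_zero_iff]
  intro h1
  have h0 := norm_nonneg y
  nlinarith

theorem od_bd (hF : IsSliceDisc F) (hg : GeneralPosition F) (h : CutFlow (shadow F) v Φ)
    {c : Plane × Plane} (hc : c ∈ DoubleSet F) (hc2 : c.2 ∈ sphere (0 : Plane) 1) :
    ∃ η > 0, (∀ t ∈ Ioo 0 η, Φ t c ∉ DoubleSet F ∧
        Φ (-t) c ∈ DoubleSet F \ (DoubleSet F ∩ {p | p.2 ∈ sphere (0 : Plane) 1})) ∨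
      (∀ t ∈ Ioo 0 η, Φ t c ∈ DoubleSet F \ (DoubleSet F ∩ {p | p.2 ∈ sphere (0 : Plane) 1}) ∧
        Φ (-t) c ∉ DoubleSet F) := by
  have hev := od_eventually hF h hc
  have hev' : ∀ᶠ t in 𝓝 (0 : ℝ), (Φ (-t) c).1 ∈ ball (0 : Plane) 1 ∧
      F (Φ (-t) c).2 3 < F (Φ (-t) c).1 3 := by
    have : Tendsto (fun t : ℝ => -t) (𝓝 0) (𝓝 0) := by
      simpa using (continuous_neg.tendsto (0 : ℝ))
    exact this.eventually hev
  have hE := (hev.and hev').filter_mono (nhdsWithin_le_nhds (s := Ioi (0 : ℝ)))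
  have hne := od_inner_ne hg h hc hc2
  have hder := od_hasDerivAt_normSq h c
  have hg0 : ‖(Φ 0 c).2‖ ^ 2 = 1 := by
    rw [h.flow.zero]
    exact od_sphere_iff.mp hc2
  have key : ∀ t, (Φ t c).1 ∈ ball (0 : Plane) 1 → F (Φ t c).2 3 < F (Φ t c).1 3 →
      ‖(Φ t c).2‖ ^ 2 < 1 →
      Φ t c ∈ DoubleSet F \ (DoubleSet F ∩ {p | p.2 ∈ sphere (0 : Plane) 1}) := by
    intro t h1 h2 h3
    refine ⟨od_mem hF h hc h1 (od_ball_iff.mpr h3) h2, fun h4 => ?_⟩
    have := od_sphere_iff.mp h4.2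
    linarith
  have key2 : ∀ t, 1 < ‖(Φ t c).2‖ ^ 2 → Φ t c ∉ DoubleSet F := fun t ht hm =>
    od_notMem_closedBall ht hm.2.1
  rcases lt_or_gt_of_ne hne with hneg | hpos
  · -- the lower point moves into the disc
    have h1 : HasDerivAt (fun t => -‖(Φ t c).2‖ ^ 2) (-(2 * inner ℝ c.2 (v c).2)) 0 := hder.neg
    have h2 := od_pos_deriv h1 (by linarith)
    obtain ⟨η, hη, hη2⟩ := mem_nhdsGT_iff_exists_Ioo_subset.mp (h2.and hE)
    refine ⟨η, hη, Or.inr fun t ht => ?_⟩
    obtain ⟨⟨e1, e2⟩, ⟨e3, e4⟩, e5, e6⟩ := hη2 ht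
    rw [hg0] at e1 e2
    exact ⟨key t e3 e4 (by linarith), key2 (-t) (by linarith)⟩
  · have h2 := od_pos_deriv hder (by linarith)
    obtain ⟨η, hη, hη2⟩ := mem_nhdsGT_iff_exists_Ioo_subset.mp (h2.and hE)
    refine ⟨η, hη, Or.inl fun t ht => ?_⟩
    obtain ⟨⟨e1, e2⟩, ⟨e3, e4⟩, e5, e6⟩ := hη2 ht
    rw [hg0] at e1 e2
    exact ⟨key2 t e1, key (-t) e5 e6 e2⟩

end Flow

theorem oneDim_doubleSet {F : Plane → EuclideanSpace ℝ (Fin 4)} (hF : IsSliceDisc F)
    (hg : GeneralPosition F) {v : Plane × Plane → Plane × Plane}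
    {Φ : ℝ → Plane × Plane → Plane × Plane} (h : CutFlow (shadow F) v Φ) :
    OneDim (DoubleSet F) (DoubleSet F ∩ {p | p.2 ∈ sphere (0 : Plane) 1}) Φ where
  compact := isCompact_doubleSet hF hg
  sub := inter_subset_left
  zero := h.flow.zero
  add := h.flow.add
  cont := od_continuous_flow h
  box := by
    intro c hc η hη
    obtain ⟨O, hO, hbox⟩ := flowBox (od_contDiff_shadow hF) h hc.1 hc.2.1 hc.2.2.1
      (hg.immersion c.1 hc.1) (hg.immersion c.2 hc.2.1) (hg.double c.1 c.2 hc) hη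
    exact ⟨O, hO, fun p hp => hbox p hp.2 hp.1.2.2.1⟩
  stay := by
    intro c hc
    refine od_stay hF h hc.1 ?_
    rcases (mem_closedBall.mp hc.1.2.1).lt_or_eq with h1 | h1
    · exact mem_ball.mpr h1
    · exact absurd ⟨hc.1, mem_sphere.mpr h1⟩ hc.2
  bd := fun c hc => od_bd hF hg h hc.1 hc.2
  move := by
    intro c hc
    have h1 := h.flow.deriv c 0
    rw [h.flow.zero] at h1
    have hne : v c ≠ 0 := by
      rw [od_field_eq h hc]
      intro h0
      exact (od_kernel hg hc).1 (by rw [h0]; rfl)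
    have h2 := h1.eventually_ne (c := c) hne
    obtain ⟨η, hη, hη2⟩ := Metric.eventually_nhds_iff.mp (eventually_nhdsWithin_iff.mp h2)
    exact ⟨η, hη, fun t ht0 ht => hη2 (y := t) (by simpa [Real.dist_eq] using ht)
      (abs_pos.mp ht0)⟩

end Pool.Agent.Lib_MP_752436_tp
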