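import Pool.Agent.Lib_MP_752436_tp.Defs2

/-!
Piece L: Local.lean.
-/

open Metric Set Filter
open scoped ContDiff Topology

namespace Pool.Agent.Lib_MP_752436_tp

open Pool.Agent.Lib_MP_752436_gt

variable {ι : Type} {G : Curves ι} {D : Set (Plane × Plane)}

theorem IsCurves.periodic' (h : IsCurves G D) {i : ι} (hi : G.closed i) :
    Function.Periodic (G.c i) (G.len i) := fun t => h.periodic i hi t

theorem IsCurves.mem_dom_of_Icc {i : ι} {t : ℝ} (ht : t ∈ Icc 0 (G.len i)) : t ∈ G.dom i :=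
  Or.inr ht

theorem IsCurves.exists_Icc (h : IsCurves G D) {i : ι} {t : ℝ} (ht : t ∈ G.dom i) :
    ∃ t' ∈ Icc 0 (G.len i), G.c i t' = G.c i t := by
  rcases ht with hc | ht
  · obtain ⟨y, hy, hty⟩ := (h.periodic' hc).exists_mem_Ico₀ (h.pos i) t
    exact ⟨y, Ico_subset_Icc_self hy, hty.symm⟩
  · exact ⟨t, ht, rfl⟩

theorem IsCurves.mem (h : IsCurves G D) {i : ι} {t : ℝ} (ht : t ∈ G.dom i) : G.c i t ∈ D := by
  obtain ⟨t', ht', he⟩ := h.exists_Icc ht
  rw [h.cover, ← he]
  exact mem_iUnion.mpr ⟨i, t', ht', rfl⟩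

theorem IsCurves.exists_param (h : IsCurves G D) {p : Plane × Plane} (hp : p ∈ D) :
    ∃ i, ∃ t ∈ Icc 0 (G.len i), G.c i t = p := by
  rw [h.cover] at hp
  obtain ⟨i, t, ht, he⟩ := mem_iUnion.mp hp
  exact ⟨i, t, ht, he⟩

theorem IsCurves.index_eq (h : IsCurves G D) {i j : ι} {s t : ℝ} (hs : s ∈ G.dom i)
    (ht : t ∈ G.dom j) (he : G.c i s = G.c j t) : i = j := by
  by_contra hne
  obtain ⟨s', hs', hes⟩ := h.exists_Icc hs
  obtain ⟨t', ht', het⟩ := h.exists_Icc ht
  have hd := h.disj i j hne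
  rw [Set.disjoint_left] at hd
  apply hd (mem_image_of_mem _ hs')
  rw [hes, he, ← het]
  exact mem_image_of_mem _ ht'

theorem IsCurves.isCompact_image (h : IsCurves G D) (i : ι) :
    IsCompact (G.c i '' Icc 0 (G.len i)) :=
  isCompact_Icc.image (h.smooth i).continuous

theorem IsCurves.isCompact [Finite ι] (h : IsCurves G D) : IsCompact D := by
  rw [h.cover]
  exact isCompact_iUnion fun i => h.isCompact_image i

theorem IsCurves.ne_of_mem_Ioo (h : IsCurves G D) {i : ι} (hi : G.closed i) {s t : ℝ}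
    (hst : s ∈ Ioo t (t + G.len i)) : G.c i s ≠ G.c i t := by
  intro he
  have hL := h.pos i
  have hper := h.periodic' hi
  set n : ℤ := toIcoDiv hL 0 t with hn
  have ht' : t - n • G.len i ∈ Ico 0 (G.len i) := by
    have := sub_toIcoDiv_zsmul_mem_Ico hL 0 t
    rwa [zero_add] at this
  set t' := t - n • G.len i with ht'd
  set s' := s - n • G.len i with hs'd
  have het : G.c i t' = G.c i t := hper.sub_zsmul_eq n
  have hes : G.c i s' = G.c i s := hper.sub_zsmul_eq n
  have h1 : t' < s' := by simp only [ht'd, hs'd]; linarith [hst.1]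
  have h2 : s' < t' + G.len i := by simp only [ht'd, hs'd]; linarith [hst.2]
  rcases lt_or_ge s' (G.len i) with h3 | h3
  · have h4 := h.injClosed i hi ⟨by linarith [ht'.1], h3⟩ ht' (by rw [hes, het, he])
    linarith
  · have hes2 : G.c i (s' - G.len i) = G.c i s' := hper.sub_eq s'
    have h5 : s' - G.len i ∈ Ico 0 (G.len i) := ⟨by linarith, by linarith [ht'.2]⟩
    have h4 := h.injClosed i hi h5 ht' (by rw [hes2, hes, het, he])
    linarith

theorem IsCurves.up_eq_range (h : IsCurves G D) {i : ι} (hi : G.closed i) :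
    G.up i = range (G.fst i) := by
  apply Subset.antisymm
  · exact image_subset_range _ _
  · rintro _ ⟨t, rfl⟩
    obtain ⟨t', ht', he⟩ := h.exists_Icc (i := i) (t := t) (Or.inl hi)
    exact ⟨t', ht', by unfold Curves.fst; rw [he]⟩

theorem IsCurves.low_eq_range (h : IsCurves G D) {i : ι} (hi : G.closed i) :
    G.low i = range (G.snd i) := by
  apply Subset.antisymm
  · exact image_subset_range _ _
  · rintro _ ⟨t, rfl⟩
    obtain ⟨t', ht', he⟩ := h.exists_Icc (i := i) (t := t) (Or.inl hi)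
    exact ⟨t', ht', by unfold Curves.snd; rw [he]⟩

/-- The union of the other curves. -/
theorem IsCurves.isCompact_others [Finite ι] (h : IsCurves G D) (i : ι) :
    IsCompact (⋃ j : {j : ι // j ≠ i}, G.c j.1 '' Icc 0 (G.len j.1)) :=
  isCompact_iUnion fun j => h.isCompact_image j.1

theorem IsCurves.local [Finite ι] (h : IsCurves G D) {i : ι} {t0 : ℝ} (ht : t0 ∈ G.dom i)
    {η : ℝ} (hη : 0 < η) :
    ∃ O ∈ 𝓝 (G.c i t0), ∀ p ∈ D ∩ O, ∃ t ∈ G.dom i, |t - t0| < η ∧ G.c i t = p := by
  have hL := h.pos i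
  by_cases hi : G.closed i
  · set e : ℝ := min η (G.len i / 2) with he
    have he0 : 0 < e := lt_min hη (by linarith)
    have heη : e ≤ η := min_le_left _ _
    have heL : e ≤ G.len i / 2 := min_le_right _ _
    set K : Set (Plane × Plane) := (⋃ j : {j : ι // j ≠ i}, G.c j.1 '' Icc 0 (G.len j.1)) ∪
      G.c i '' Icc (t0 + e) (t0 + G.len i - e) with hK
    have hKc : IsCompact K :=
      (h.isCompact_others i).union (isCompact_Icc.image (h.smooth i).continuous)
    have hnot : G.c i t0 ∉ K := by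
      rintro (hm | ⟨s, hs, hse⟩)
      · obtain ⟨⟨j, hj⟩, s, hs, hse⟩ := mem_iUnion.mp hm
        exact hj (h.index_eq (Or.inr hs) ht hse)
      · exact h.ne_of_mem_Ioo hi (s := s) (t := t0) ⟨by linarith [hs.1], by linarith [hs.2]⟩ hse
    refine ⟨Kᶜ, hKc.isClosed.isOpen_compl.mem_nhds hnot, ?_⟩
    rintro p ⟨hpD, hpK⟩
    obtain ⟨j, s, hs, rfl⟩ := h.exists_param hpD
    have hji : j = i := by
      by_contra hne
      exact hpK (Or.inl (mem_iUnion.mpr ⟨⟨j, hne⟩, mem_image_of_mem _ hs⟩))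
    subst hji
    obtain ⟨y, hy, hsy⟩ := (h.periodic' hi).exists_mem_Ico hL s (t0 - e)
    refine ⟨y, Or.inl hi, ?_, hsy.symm⟩
    have h1 : t0 - e < y := by
      rcases hy.1.lt_or_eq with h2 | h2
      · exact h2
      · exfalso
        apply hpK
        right
        refine ⟨y + G.len j, ⟨by linarith, by linarith⟩, ?_⟩
        rw [h.periodic j hi, hsy]
    have h2 : y < t0 + e := by
      by_contra h3
      rw [not_lt] at h3
      apply hpK
      right
      exact ⟨y, ⟨h3, by linarith [hy.2]⟩, hsy.symm⟩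
    rw [abs_lt]
    constructor <;> linarith
  · have ht0 : t0 ∈ Icc 0 (G.len i) := ht.resolve_left hi
    set K : Set (Plane × Plane) := (⋃ j : {j : ι // j ≠ i}, G.c j.1 '' Icc 0 (G.len j.1)) ∪
      G.c i '' (Icc 0 (G.len i) ∩ {t | η ≤ |t - t0|}) with hK
    have hcl : IsClosed {t : ℝ | η ≤ |t - t0|} :=
      isClosed_le continuous_const (by fun_prop)
    have hKc : IsCompact K :=
      (h.isCompact_others i).union ((isCompact_Icc.inter_right hcl).image (h.smooth i).continuous)
    have hnot : G.c i t0 ∉ K := by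
      rintro (hm | ⟨s, hs, hse⟩)
      · obtain ⟨⟨j, hj⟩, s, hs, hse⟩ := mem_iUnion.mp hm
        exact hj (h.index_eq (Or.inr hs) ht hse)
      · have := h.injArc i hi hs.1 ht0 hse
        have h2 : η ≤ |s - t0| := hs.2
        rw [this, sub_self, abs_zero] at h2
        linarith
    refine ⟨Kᶜ, hKc.isClosed.isOpen_compl.mem_nhds hnot, ?_⟩
    rintro p ⟨hpD, hpK⟩
    obtain ⟨j, s, hs, rfl⟩ := h.exists_param hpD
    have hji : j = i := by
      by_contra hne
      exact hpK (Or.inl (mem_iUnion.mpr ⟨⟨j, hne⟩, mem_image_of_mem _ hs⟩))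
    subst hji
    refine ⟨s, Or.inr hs, ?_, rfl⟩
    by_contra h3
    rw [not_lt] at h3
    exact hpK (Or.inr ⟨s, ⟨hs, h3⟩, rfl⟩)

/-- The double curve of a pair is the curve of the family through it. -/
theorem IsCurves.mem_component (h : IsCurves G D) {i : ι} {s t : ℝ} (hs : s ∈ G.dom i)
    (ht : t ∈ G.dom i) : G.c i t ∈ connectedComponentIn D (G.c i s) := by
  have hpre : IsPreconnected (G.dom i) := by
    by_cases hi : G.closed i
    · have : G.dom i = univ := by
        ext x; simp [Curves.dom, hi]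
      rw [this]; exact isPreconnected_univ
    · have : G.dom i = Icc 0 (G.len i) := by
        ext x; simp [Curves.dom, hi]
      rw [this]; exact isPreconnected_Icc
  have him : IsPreconnected (G.c i '' G.dom i) :=
    hpre.image _ (h.smooth i).continuous.continuousOn
  have hsub : G.c i '' G.dom i ⊆ D := by
    rintro _ ⟨x, hx, rfl⟩
    exact h.mem hx
  exact him.subset_connectedComponentIn (mem_image_of_mem _ hs) hsub (mem_image_of_mem _ ht)

theorem IsCurves.of_mem_component [Finite ι] (h : IsCurves G D) {i : ι} {s : ℝ}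
    (hs : s ∈ G.dom i) {q : Plane × Plane} (hq : q ∈ connectedComponentIn D (G.c i s)) :
    ∃ t ∈ G.dom i, G.c i t = q := by
  set A : Set (Plane × Plane) := G.c i '' Icc 0 (G.len i) with hA
  set B : Set (Plane × Plane) := ⋃ j : {j : ι // j ≠ i}, G.c j.1 '' Icc 0 (G.len j.1) with hB
  have hpre := isPreconnected_closed_iff.mp
    (isPreconnected_connectedComponentIn (x := G.c i s) (F := D))
    A B (h.isCompact_image i).isClosed (h.isCompact_others i).isClosed
  have hDsub : D ⊆ A ∪ B := by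
    intro p hp
    obtain ⟨j, t, ht, rfl⟩ := h.exists_param hp
    by_cases hj : j = i
    · subst hj; exact Or.inl (mem_image_of_mem _ ht)
    · exact Or.inr (mem_iUnion.mpr ⟨⟨j, hj⟩, mem_image_of_mem _ ht⟩)
  have hsub := (connectedComponentIn_subset D (G.c i s)).trans hDsub
  obtain ⟨s', hs', hes⟩ := h.exists_Icc hs
  have hmem : G.c i s ∈ connectedComponentIn D (G.c i s) :=
    mem_connectedComponentIn (h.mem hs)
  have hAB : A ∩ B = ∅ := by
    rw [Set.eq_empty_iff_forall_notMem]
    rintro p ⟨⟨t, ht, rfl⟩, hpB⟩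
    obtain ⟨⟨j, hj⟩, u, hu, hue⟩ := mem_iUnion.mp hpB
    exact hj (h.index_eq (Or.inr hu) (Or.inr ht) hue)
  rcases hsub hq with hqA | hqB
  · obtain ⟨t, ht, rfl⟩ := hqA
    exact ⟨t, Or.inr ht, rfl⟩
  · exfalso
    have := hpre hsub ⟨G.c i s, hmem, ⟨s', hs', hes⟩⟩ ⟨q, hq, hqB⟩
    rw [hAB, inter_empty] at this
    exact this.ne_empty rfl

end Pool.Agent.Lib_MP_752436_tp
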