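import Pool.Agent.Lib_MP_752436_tp.Single
import Pool.Agent.Lib_MP_752436_tp.Local

/-!
Piece C2: Claim.lean.
-/

open Metric Set Filter
open scoped ContDiff Topology

namespace Pool.Agent.Lib_MP_752436_tp

open Pool.Agent.Lib_MP_752436_gt

section ClaimAux

variable {F : Plane → EuclideanSpace ℝ (Fin 4)}

theorem cl_differentiable_shadow (hF : IsSliceDisc F) : Differentiable ℝ (shadow F) := by
  rw [differentiable_euclidean]
  have h1 : Differentiable ℝ F := hF.smooth.differentiable (by simp)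
  rw [differentiable_euclidean] at h1
  intro i
  fin_cases i
  · exact h1 0
  · exact h1 1
  · exact h1 2

theorem cl_trans {x y z : Plane} (h : (x, y) ∈ DoubleSet F) (h' : (y, z) ∈ DoubleSet F) :
    (x, z) ∈ DoubleSet F :=
  ⟨h.1, h'.2.1, h.2.2.1.trans h'.2.2.1, h'.2.2.2.trans h.2.2.2⟩

theorem cl_total (hF : IsSliceDisc F) {x y : Plane} (hx : x ∈ closedBall (0 : Plane) 1)
    (hy : y ∈ closedBall (0 : Plane) 1) (hne : x ≠ y) (he : shadow F x = shadow F y) :
    (x, y) ∈ DoubleSet F ∨ (y, x) ∈ DoubleSet F := by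
  rcases lt_trichotomy (F x 3) (F y 3) with h | h | h
  · exact Or.inr ⟨hy, hx, he.symm, h⟩
  · exfalso
    apply hne
    apply hF.inj hx hy
    have h0 := congrArg (fun v : EuclideanSpace ℝ (Fin 3) => v 0) he
    have h1 := congrArg (fun v : EuclideanSpace ℝ (Fin 3) => v 1) he
    have h2 := congrArg (fun v : EuclideanSpace ℝ (Fin 3) => v 2) he
    simp [shadow] at h0 h1 h2
    ext i
    fin_cases i
    · exact h0
    · exact h1
    · exact h2
    · exact h
  · exact Or.inl ⟨hx, hy, he, h⟩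

/-- Two distinct points with the same image below a point. -/
theorem cl_total_right (hF : IsSliceDisc F) {x y z : Plane} (h1 : (x, y) ∈ DoubleSet F)
    (h2 : (x, z) ∈ DoubleSet F) (hne : y ≠ z) :
    (y, z) ∈ DoubleSet F ∨ (z, y) ∈ DoubleSet F :=
  cl_total hF h1.2.1 h2.2.1 hne (h1.2.2.1.symm.trans h2.2.2.1)

/-- Two distinct points with the same image above a point. -/
theorem cl_total_left (hF : IsSliceDisc F) {x y z : Plane} (h1 : (x, z) ∈ DoubleSet F)
    (h2 : (y, z) ∈ DoubleSet F) (hne : x ≠ y) :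
    (x, y) ∈ DoubleSet F ∨ (y, x) ∈ DoubleSet F :=
  cl_total hF h1.1 h2.1 hne (h1.2.2.1.trans h2.2.2.1.symm)

theorem cl_det2 {a b : Plane} (ha : a ≠ 0) (h : det2 a b = 0) : ∃ l : ℝ, b = l • a := by
  have h' : a 0 * b 1 = a 1 * b 0 := by
    have : a 0 * b 1 - a 1 * b 0 = 0 := h
    linarith
  by_cases h0 : a 0 = 0
  · have h1 : a 1 ≠ 0 := by
      intro h1
      apply ha
      ext k
      fin_cases k
      · exact h0
      · exact h1
    refine ⟨b 1 / a 1, ?_⟩
    ext k
    fin_cases k
    · show b 0 = b 1 / a 1 * a 0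
      rw [h0] at h' ⊢
      rw [zero_mul] at h'
      rw [mul_zero]
      rcases mul_eq_zero.1 h'.symm with h2 | h2
      · exact absurd h2 h1
      · exact h2
    · show b 1 = b 1 / a 1 * a 1
      field_simp
  · refine ⟨b 0 / a 0, ?_⟩
    ext k
    fin_cases k
    · show b 0 = b 0 / a 0 * a 0
      field_simp
    · show b 1 = b 0 / a 0 * a 1
      field_simp
      linarith

end ClaimAux

theorem deriv_parallel {F : Plane → EuclideanSpace ℝ (Fin 4)} (hF : IsSliceDisc F)
    {ι : Type} {G : Curves ι} (h : IsCurves G (DoubleSet F)) {i : ι} {t : ℝ} (ht : t ∈ G.dom i) :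
    fderiv ℝ (shadow F) (G.fst i t) (deriv (G.fst i) t) =
      fderiv ℝ (shadow F) (G.snd i t) (deriv (G.snd i) t) := by
  have hsm := (h.smooth i).differentiable (by norm_num)
  have h1 : HasDerivAt (G.fst i) (deriv (G.fst i) t) t :=
    (differentiable_fst.comp hsm t).hasDerivAt
  have h2 : HasDerivAt (G.snd i) (deriv (G.snd i) t) t :=
    (differentiable_snd.comp hsm t).hasDerivAt
  have hd := cl_differentiable_shadow hF
  have h3 : HasDerivAt (fun s => shadow F (G.fst i s))
      (fderiv ℝ (shadow F) (G.fst i t) (deriv (G.fst i) t)) t :=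
    (hd (G.fst i t)).hasFDerivAt.comp_hasDerivAt t h1
  have h4 : HasDerivAt (fun s => shadow F (G.snd i s))
      (fderiv ℝ (shadow F) (G.snd i t) (deriv (G.snd i) t)) t :=
    (hd (G.snd i t)).hasFDerivAt.comp_hasDerivAt t h2
  have h5 : ∀ s ∈ G.dom i, shadow F (G.fst i s) = shadow F (G.snd i s) :=
    fun s hs => (h.mem hs).2.2.1
  have huniq : UniqueDiffWithinAt ℝ (G.dom i) t := by
    by_cases hi : G.closed i
    · have : G.dom i = univ := eq_univ_of_forall fun s => Or.inl hi
      rw [this]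
      exact uniqueDiffWithinAt_univ
    · have : G.dom i = Icc 0 (G.len i) := by
        ext s
        exact ⟨fun hs => hs.resolve_left hi, fun hs => Or.inr hs⟩
      rw [this] at ht ⊢
      exact uniqueDiffOn_Icc (h.pos i) t ht
  have h6 : HasDerivWithinAt (fun s => shadow F (G.fst i s))
      (fderiv ℝ (shadow F) (G.snd i t) (deriv (G.snd i) t)) (G.dom i) t :=
    (h4.hasDerivWithinAt (s := G.dom i)).congr h5 (h5 t ht)
  have h7 := h3.hasDerivWithinAt (s := G.dom i)
  exact huniq.eq_deriv _ h7 h6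

section Claim

variable {F : Plane → EuclideanSpace ℝ (Fin 4)} {ι : Type} [Finite ι] {G : Curves ι}

theorem cl_closedCurve (h : IsCurves G (DoubleSet F)) {i : ι} (hi : G.closed i) (t : ℝ) :
    ClosedCurve F (G.c i t) := by
  intro q hq
  obtain ⟨s, hs, rfl⟩ := h.of_mem_component (Or.inl hi) hq
  exact h.sndClosed i hi s

theorem cl_part_one' (hF : IsSliceDisc F)
    (hg : GeneralPosition F) (h : IsCurves G (DoubleSet F))
    {x y z : Plane} (ht : Triple F x y z)
    (hB : ∀ x' y' z', Triple F x' y' z' → SameCurve F (x, y) (x', y') →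
      SameCurve F (y, z) (y', z') → ClosedCurve F (y, z) → x = x')
    {i : ι} (hi : G.closed i) (t : ℝ) :
    G.c i t ≠ (y, z) := by
  intro hct
  obtain ⟨j, r0, hr0, hcr⟩ := h.exists_param ht.1
  have hdt : t ∈ G.dom i := Or.inl hi
  have hdr : r0 ∈ G.dom j := Or.inr hr0
  have hγ : ContDiff ℝ 1 (G.fst i) := contDiff_fst.comp (h.smooth i)
  have hδ : ContDiff ℝ 1 (G.snd j) := contDiff_snd.comp (h.smooth j)
  have hγt : G.fst i t = y := by
    show (G.c i t).1 = y
    rw [hct]
  have hδr : G.snd j r0 = y := by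
    show (G.c j r0).2 = y
    rw [hcr]
  have hzt : G.snd i t = z := by
    show (G.c i t).2 = z
    rw [hct]
  have hxr : G.fst j r0 = x := by
    show (G.c j r0).1 = x
    rw [hcr]
  have hper : ∀ s, G.fst i (s + G.len i) = G.fst i s := fun s =>
    congrArg Prod.fst (h.periodic i hi s)
  have hsimple : ∀ s ∈ Ioo t (t + G.len i), G.fst i s ≠ G.fst i t := by
    intro s hs he
    have hne := h.ne_of_mem_Ioo hi hs
    have hmem : G.c i s ∈ DoubleSet F := h.mem (Or.inl hi)
    have hcs : G.c i s = (y, G.snd i s) := Prod.ext (he.trans hγt) rfl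
    rw [hcs] at hmem hne
    rw [hct] at hne
    have hne' : G.snd i s ≠ z := fun h' => hne (by rw [h'])
    rcases cl_total_right hF hmem ht.2 hne' with hd | hd
    · exact hg.quadruple _ _ _ _ ⟨ht.1, hmem⟩ ⟨hmem, hd⟩
    · exact hg.quadruple _ _ _ _ ht ⟨ht.2, hd⟩
  have hdet : det2 (deriv (G.fst i) t) (deriv (G.snd j) r0) ≠ 0 := by
    intro hdet
    obtain ⟨l, hl⟩ := cl_det2 (h.immFst i t hdt) hdet
    have e1 := deriv_parallel hF h hdt
    have e2 := deriv_parallel hF h hdr
    rw [hγt, hzt] at e1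
    rw [hδr, hxr] at e2
    refine h.immFst j r0 hdr (hg.triple x y z ht _ _ (l • deriv (G.snd i) t) e2 ?_)
    rw [hl, map_smul, map_smul, e1]
  -- common points
  have hcommon : ∀ r ∈ G.dom j, G.snd j r ∈ range (G.fst i) → G.c j r = G.c j r0 := by
    rintro r hr ⟨s, hs⟩
    have hm1 : G.c j r ∈ DoubleSet F := h.mem hr
    have hm2 : G.c i s ∈ DoubleSet F := h.mem (Or.inl hi)
    have hc1 : G.c j r = (G.fst j r, G.snd j r) := rfl
    have hc2 : G.c i s = (G.snd j r, G.snd i s) := Prod.ext hs rfl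
    have hT : Triple F (G.fst j r) (G.snd j r) (G.snd i s) := by
      rw [hc1] at hm1
      rw [hc2] at hm2
      exact ⟨hm1, hm2⟩
    have hx : x = G.fst j r := by
      refine hB _ _ _ hT ?_ ?_ ?_
      · rw [← hcr, ← hc1]
        exact h.mem_component hdr hr
      · rw [← hct, ← hc2]
        exact h.mem_component hdt (Or.inl hi)
      · rw [← hct]
        exact cl_closedCurve h hi t
    have hy : G.snd j r = y := by
      by_contra hne
      rw [← hx] at hT
      rcases cl_total_right hF hT.1 ht.1 hne with hd | hd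
      · exact hg.quadruple _ _ _ _ ⟨hT.1, hd⟩ ⟨hd, ht.2⟩
      · exact hg.quadruple _ _ _ _ ⟨ht.1, hd⟩ ⟨hd, hT.2⟩
    rw [hc1, hcr, ← hx, hy]
  by_cases hj : G.closed j
  · refine single_crossing_closed hγ hδ (h.pos i) (h.pos j) hper
      (fun s => congrArg Prod.snd (h.periodic j hj s)) hsimple (hδr.trans hγt.symm) hdet ?_
    intro r hr hmem
    exact h.ne_of_mem_Ioo hj hr (hcommon r (Or.inl hj) hmem)
  · refine single_crossing_arc hγ hδ (h.pos i) hper (fun s => h.fstMem i s (Or.inl hi)) hsimple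
      (hδr.trans hγt.symm) hr0 hdet (h.ends j hj).1 (h.ends j hj).2 ?_
    intro r hr hne hmem
    exact hne (h.injArc j hj hr hr0 (hcommon r (Or.inr hr) hmem))

theorem cl_part_one (hF : IsSliceDisc F)
    (hg : GeneralPosition F) (h : IsCurves G (DoubleSet F))
    (hB : ∀ x y z x' y' z', Triple F x y z → Triple F x' y' z' → SameCurve F (x, y) (x', y') →
      SameCurve F (y, z) (y', z') → ClosedCurve F (y, z) → x = x')
    {x y z : Plane} (ht : Triple F x y z) {i : ι} (hi : G.closed i) (t : ℝ) :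
    G.c i t ≠ (y, z) :=
  cl_part_one' hF hg h ht (fun x' y' z' => hB x y z x' y' z' ht) hi t

/-- If the middle-bottom curve of a triple point is closed, then there is a second triple point
with the same top-middle curve and the same middle-bottom curve. -/
theorem exists_second_triple (hF : IsSliceDisc F)
    (hg : GeneralPosition F) (h : IsCurves G (DoubleSet F))
    {x y z : Plane} (ht : Triple F x y z) (hc : ClosedCurve F (y, z)) :
    ∃ x' y' z', Triple F x' y' z' ∧ x' ≠ x ∧ SameCurve F (x, y) (x', y') ∧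
      SameCurve F (y, z) (y', z') := by
  by_contra hcon
  obtain ⟨i, t, hti, hct⟩ := h.exists_param ht.2
  have hi : G.closed i := by
    by_contra hi
    have h0 : (0 : ℝ) ∈ G.dom i := Or.inr ⟨le_refl 0, (h.pos i).le⟩
    have h1 := h.mem_component (Or.inr hti : t ∈ G.dom i) h0
    rw [hct] at h1
    have h2 := hc _ h1
    have h3 : (G.c i 0).2 ∈ sphere (0 : Plane) 1 := (h.ends i hi).1
    rw [mem_sphere] at h3
    rw [mem_ball] at h2
    exact h2.ne h3
  refine cl_part_one' hF hg h ht ?_ hi t hct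
  intro x' y' z' hT h1 h2 _
  by_contra hne
  exact hcon ⟨x', y', z', hT, fun h' => hne h'.symm, h1, h2⟩

theorem cl_part_two (hF : IsSliceDisc F)
    (hg : GeneralPosition F) (h : IsCurves G (DoubleSet F))
    (hB : ∀ x y z x' y' z', Triple F x y z → Triple F x' y' z' → SameCurve F (x, y) (x', y') →
      SameCurve F (y, z) (y', z') → ClosedCurve F (y, z) → x = x')
    (hC : ∀ x y z x' y' z', Triple F x y z → Triple F x' y' z' → SameCurve F (y, z) (y', z') →
      SameCurve F (x, z) (x', z') → ClosedCurve F (x, z) → x = x')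
    {x y z : Plane} (ht : Triple F x y z) {i : ι} (hi : G.closed i) (t : ℝ) :
    G.c i t ≠ (x, z) := by
  intro hct
  obtain ⟨j, r0, hr0, hcr⟩ := h.exists_param ht.2
  have hj : ¬ G.closed j := fun hj => cl_part_one hF hg h hB ht hj r0 hcr
  have hij : i ≠ j := by
    rintro rfl
    exact hj hi
  have hdt : t ∈ G.dom i := Or.inl hi
  have hdr : r0 ∈ G.dom j := Or.inr hr0
  have hγ : ContDiff ℝ 1 (G.snd i) := contDiff_snd.comp (h.smooth i)
  have hδ : ContDiff ℝ 1 (G.snd j) := contDiff_snd.comp (h.smooth j)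
  have hγt : G.snd i t = z := by
    show (G.c i t).2 = z
    rw [hct]
  have hδr : G.snd j r0 = z := by
    show (G.c j r0).2 = z
    rw [hcr]
  have hxt : G.fst i t = x := by
    show (G.c i t).1 = x
    rw [hct]
  have hyr : G.fst j r0 = y := by
    show (G.c j r0).1 = y
    rw [hcr]
  have hper : ∀ s, G.snd i (s + G.len i) = G.snd i s := fun s =>
    congrArg Prod.snd (h.periodic i hi s)
  have hsimple : ∀ s ∈ Ioo t (t + G.len i), G.snd i s ≠ G.snd i t := by
    intro s hs he
    have hne := h.ne_of_mem_Ioo hi hs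
    have hmem : G.c i s ∈ DoubleSet F := h.mem (Or.inl hi)
    have hcs : G.c i s = (G.fst i s, z) := Prod.ext rfl (he.trans hγt)
    rw [hct] at hne
    have hqy : G.fst i s ≠ y := by
      intro h'
      rw [h'] at hcs
      exact cl_part_one hF hg h hB ht hi s hcs
    rw [hcs] at hmem hne
    have hqx : G.fst i s ≠ x := fun h' => hne (by rw [h'])
    have hxz := cl_trans ht.1 ht.2
    rcases cl_total_left hF hmem hxz hqx with hd | hd
    · exact hg.quadruple _ _ _ _ ⟨hd, ht.1⟩ ht
    · rcases cl_total_left hF hmem ht.2 hqy with hd' | hd'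
      · exact hg.quadruple _ _ _ _ ⟨hd, hd'⟩ ⟨hd', ht.2⟩
      · exact hg.quadruple _ _ _ _ ⟨ht.1, hd'⟩ ⟨hd', hmem⟩
  have hdet : det2 (deriv (G.snd i) t) (deriv (G.snd j) r0) ≠ 0 := by
    intro hdet
    obtain ⟨l, hl⟩ := cl_det2 (h.immSnd i t hdt) hdet
    have e1 := deriv_parallel hF h hdt
    have e2 := deriv_parallel hF h hdr
    rw [hγt, hxt] at e1
    rw [hδr, hyr] at e2
    have h0 : l • deriv (G.fst i) t = 0 := by
      refine hg.triple x y z ht _ (deriv (G.fst j) r0) (deriv (G.snd j) r0) ?_ e2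
      rw [e2, hl, map_smul, map_smul, e1]
    rcases smul_eq_zero.1 h0 with h1 | h1
    · rw [h1, zero_smul] at hl
      exact h.immSnd j r0 hdr hl
    · exact h.immFst i t hdt h1
  refine single_crossing_arc hγ hδ (h.pos i) hper (fun s => h.sndClosed i hi s) hsimple
    (hδr.trans hγt.symm) hr0 hdet (h.ends j hj).1 (h.ends j hj).2 ?_
  rintro r hr hne ⟨s, hs⟩
  have hrd : r ∈ G.dom j := Or.inr hr
  have hsd : s ∈ G.dom i := Or.inl hi
  have hm1 : G.c j r ∈ DoubleSet F := h.mem hrd
  have hm2 : G.c i s ∈ DoubleSet F := h.mem hsd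
  have hc1 : G.c j r = (G.fst j r, G.snd j r) := rfl
  have hc2 : G.c i s = (G.fst i s, G.snd j r) := Prod.ext rfl hs
  have hqq : G.fst i s ≠ G.fst j r := by
    intro h'
    apply hij
    apply h.index_eq hsd hrd
    rw [hc1, hc2, h']
  rw [hc1] at hm1
  rw [hc2] at hm2
  rcases cl_total_left hF hm2 hm1 hqq with hd | hd
  · have hT : Triple F (G.fst i s) (G.fst j r) (G.snd j r) := ⟨hd, hm1⟩
    have hx : x = G.fst i s := by
      refine hC x y z _ _ _ ht hT ?_ ?_ ?_
      · rw [← hcr, ← hc1]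
        exact h.mem_component hdr hrd
      · rw [← hct, ← hc2]
        exact h.mem_component hdt hsd
      · rw [← hct]
        exact cl_closedCurve h hi t
    rw [← hx] at hT
    have hy : G.fst j r = y := by
      by_contra hne'
      rcases cl_total_right hF hT.1 ht.1 hne' with hd' | hd'
      · exact hg.quadruple _ _ _ _ ⟨hT.1, hd'⟩ ⟨hd', ht.2⟩
      · exact hg.quadruple _ _ _ _ ⟨ht.1, hd'⟩ ⟨hd', hT.2⟩
    rw [hy] at hT
    have hz : G.snd j r = z := by
      by_contra hne'
      rcases cl_total_right hF hT.2 ht.2 hne' with hd' | hd'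
      · exact hg.quadruple _ _ _ _ hT ⟨hT.2, hd'⟩
      · exact hg.quadruple _ _ _ _ ht ⟨ht.2, hd'⟩
    apply hne
    apply h.injArc j hj hr hr0
    rw [hc1, hcr, hy, hz]
  · exact cl_part_one hF hg h hB (⟨hd, hm2⟩ : Triple F _ _ _) hi s hc2

end Claim

theorem bottom_arcs {F : Plane → EuclideanSpace ℝ (Fin 4)} (hF : IsSliceDisc F)
    (hg : GeneralPosition F) {ι : Type} [Finite ι] {G : Curves ι}
    (h : IsCurves G (DoubleSet F))
    (hB : ∀ x y z x' y' z', Triple F x y z → Triple F x' y' z' → SameCurve F (x, y) (x', y') →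
      SameCurve F (y, z) (y', z') → ClosedCurve F (y, z) → x = x')
    (hC : ∀ x y z x' y' z', Triple F x y z → Triple F x' y' z' → SameCurve F (y, z) (y', z') →
      SameCurve F (x, z) (x', z') → ClosedCurve F (x, z) → x = x')
    {x y z : Plane} (ht : Triple F x y z) {i : ι} (hi : G.closed i) (t : ℝ) :
    G.c i t ≠ (x, z) ∧ G.c i t ≠ (y, z) :=
  ⟨cl_part_two hF hg h hB hC ht hi t, cl_part_one hF hg h hB ht hi t⟩

end Pool.Agent.Lib_MP_752436_tp
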