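import Pool.Agent.Lib_MP_752436_tp.Inside

/-!
Piece N6: NoTrap.lean.
-/

open Metric Set Filter
open scoped ContDiff Topology

namespace Pool.Agent.Lib_MP_752436_tp

open Pool.Agent.Lib_MP_752436_gt

variable {ι : Type} {G : Curves ι} {D : Set (Plane × Plane)}

theorem continuous_snd_curve (h : IsCurves G D) (i : ι) : Continuous (G.snd i) :=
  continuous_snd.comp (h.smooth i).continuous

theorem continuous_fst_curve (h : IsCurves G D) (i : ι) : Continuous (G.fst i) :=
  continuous_fst.comp (h.smooth i).continuous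

/-- Every trap contains the bottom point of a triple point. -/
theorem exists_bottom_mem [Finite ι] (h : Good G D) (ρu ρl : ι → ℕ)
    (h1 : ∀ i, Free G D i → ρu i ≤ ρl i)
    (h2 : ∀ i j, Free G D i → Free G D j → G.low i ⊆ hull (G.up j) →
      Disjoint (G.low i) (G.up j) → ρl i < ρu j) {Z : Set Plane}
    (hZ : IsTrapOf (fun x y => (x, y) ∈ D) Z) :
    ∃ x y z, (x, y) ∈ D ∧ (y, z) ∈ D ∧ z ∈ Z := by
  by_contra hcon
  push Not at hcon
  have hnb : NoBottom D Z := hcon
  set V := hull (closure (interior Z)) with hV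
  have hdisj : Disjoint (interior Z) (frontier V) := frontier_hull_disjoint
  obtain ⟨w, hw⟩ : (interior Z).Nonempty := by
    obtain ⟨z, hz⟩ := hZ.nonempty
    by_cases hzi : z ∈ interior Z
    · exact ⟨z, hzi⟩
    · obtain ⟨q, hq, -⟩ := exists_interior_below h hZ
        (⟨subset_closure hz, hzi⟩ : z ∈ frontier Z)
      exact ⟨q, hq⟩
  let S : Set ι := {i | G.closed i ∧ G.up i ⊆ frontier V ∧ ∀ t, G.snd i t ∈ interior Z}
  have hSfin : S.Finite := Set.toFinite S
  have hfree : ∀ i ∈ S, Free G D i := fun i hi =>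
    ⟨hi.1, fun t x y hxy hyz => hnb x y _ hxy hyz (interior_subset (hi.2.2 t))⟩
  have hSne : S.Nonempty := by
    obtain ⟨j, hj1, hj2, hj3, -⟩ := mem_hull_up h hZ hnb hw
    exact ⟨j, hj1, hj2, hj3⟩
  obtain ⟨i, hiS, hmax⟩ := hSfin.exists_maximalFor ρu S hSne
  obtain ⟨hi1, hi2, hi3⟩ := hiS
  have h0 : (0 : ℝ) ∈ Icc 0 (G.len i) := ⟨le_rfl, (h.curves.pos i).le⟩
  have hp0 : G.snd i 0 ∈ G.low i := ⟨0, h0, rfl⟩
  have hlow : G.low i ⊆ interior Z := by
    rintro _ ⟨t, -, rfl⟩
    exact hi3 t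
  obtain ⟨j, hj1, hj2, hj3, hj4⟩ := mem_hull_up h hZ hnb (hi3 0)
  have hdij : Disjoint (G.low i) (G.up j) := hdisj.mono hlow hj2
  have hconn : IsPreconnected (G.low i) :=
    isPreconnected_Icc.image _ (continuous_snd_curve h.curves i).continuousOn
  have hsub : G.low i ⊆ hull (G.up j) := subset_hull_of_isPreconnected hconn hdij hp0 hj4
  have hiF := hfree i ⟨hi1, hi2, hi3⟩
  have hjS : j ∈ S := ⟨hj1, hj2, hj3⟩
  have hlt := h2 i j hiF (hfree j hjS) hsub hdij
  have hle := h1 i hiF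
  have := hmax hjS
  by_cases hc : ρu i ≤ ρu j
  · have h3 := this hc
    omega
  · omega

end Pool.Agent.Lib_MP_752436_tp
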