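import Pool.Agent.Lib_MP_752436_tp.Goodness
import Pool.Agent.Lib_MP_752436_tp.Claim
import Pool.Agent.Lib_MP_752436_tp.NoTrap

/-!
The bottom points of the triple points in a trap form a locked set.
-/

open Metric Set Filter
open scoped ContDiff Topology

namespace Pool.Agent.Lib_MP_752436_tp

open Pool.Agent.Lib_MP_752436_gt

variable {F : Plane → EuclideanSpace ℝ (Fin 4)} {ι : Type} {G : Curves ι} {φ : ι → Prop}

/-- A triple point is determined by its bottom point. -/
theorem triple_unique (hF : IsSliceDisc F) (hg : GeneralPosition F) {x y x' y' z : Plane}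
    (h1 : Triple F x y z) (h2 : Triple F x' y' z) : x = x' ∧ y = y' := by
  have e1 : shadow F x = shadow F z := h1.1.2.2.1.trans h1.2.2.2.1
  have e2 : shadow F x' = shadow F z := h2.1.2.2.1.trans h2.2.2.2.1
  have hx : x = x' := by
    by_contra hne
    rcases gn_total hF h1.1.1 h2.1.1 hne (e1.trans e2.symm) with hd | hd
    · exact hg.quadruple x x' y' z ⟨hd, h2.1⟩ h2
    · exact hg.quadruple x' x y z ⟨hd, h1.1⟩ h1
  subst hx
  refine ⟨rfl, ?_⟩
  by_contra hne
  rcases gn_total hF h1.1.2.1 h2.1.2.1 hne (h1.2.2.2.1.trans h2.2.2.2.1.symm) with hd | hd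
  · exact hg.quadruple x y y' z ⟨h1.1, hd⟩ ⟨hd, h2.2⟩
  · exact hg.quadruple x y' y z ⟨h2.1, hd⟩ ⟨hd, h1.2⟩

/-- A triple point is determined by its top point. -/
theorem triple_unique_top (hF : IsSliceDisc F) (hg : GeneralPosition F) {x y z y' z' : Plane}
    (h1 : Triple F x y z) (h2 : Triple F x y' z') : y = y' ∧ z = z' := by
  have e1 : shadow F y = shadow F y' := h1.1.2.2.1.symm.trans h2.1.2.2.1
  have hy : y = y' := by
    by_contra hne
    rcases gn_total hF h1.1.2.1 h2.1.2.1 hne e1 with hd | hd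
    · exact hg.quadruple x y y' z' ⟨h1.1, hd⟩ ⟨hd, h2.2⟩
    · exact hg.quadruple x y' y z ⟨h2.1, hd⟩ ⟨hd, h1.2⟩
  subst hy
  refine ⟨rfl, ?_⟩
  by_contra hne
  rcases gn_total hF h1.2.2.1 h2.2.2.1 hne (h1.2.2.2.1.symm.trans h2.2.2.2.1) with hd | hd
  · exact hg.quadruple x y z z' h1 ⟨h1.2, hd⟩
  · exact hg.quadruple x y z' z h2 ⟨h2.2, hd⟩

/-- The bottom points in a trap. -/
def trapBottoms (F : Plane → EuclideanSpace ℝ (Fin 4)) (Z : Set Plane) : Set Plane :=
  Z ∩ triplePoints F

theorem bottom_mem_interior (hF : IsSliceDisc F) (hg : GeneralPosition F)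
    (h : IsCurves G (DoubleSet F)) (hφ : ∀ i, φ i → Free G (DoubleSet F) i) {Z : Set Plane}
    (hZ : IsTrapOf (fun x y => (x, y) ∈ (G.flip φ).support) Z) {x y z : Plane}
    (ht : Triple F x y z) (hz : z ∈ Z) : z ∈ interior Z := by
  by_contra hzi
  obtain ⟨w, -, hw⟩ := hZ.above z ⟨subset_closure hz, hzi⟩
  obtain ⟨a, b, hab, hbz⟩ := gn_chain_of_triple h hφ ht
  exact (good_flip hF hg h hφ).noFour a b z w hab hbz hw

/-- Where an unflipped lower curve passes the frontier of a trap it is the top-middle curve of a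
triple point with bottom point in the trap. -/
theorem exit_triple (hF : IsSliceDisc F) (h : IsCurves G (DoubleSet F))
    (hφ : ∀ i, φ i → Free G (DoubleSet F) i) {Z : Set Plane}
    (hZ : IsTrapOf (fun x y => (x, y) ∈ (G.flip φ).support) Z) {i : ι} (hi : ¬ φ i) {s : ℝ}
    (hs : s ∈ G.dom i) (hf : G.snd i s ∈ frontier Z) :
    ∃ z ∈ Z, Triple F (G.fst i s) (G.snd i s) z := by
  obtain ⟨z, hz, hab⟩ := hZ.above _ hf
  have hsup : ((G.fst i s, G.snd i s) : Plane × Plane) ∈ (G.flip φ).support := by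
    have hfl : IsCurves (G.flip φ) (G.flip φ).support :=
      isCurves_flip h (fun x y => gn_asymm x y) (fun j hj => (hφ j hj).1)
    have := hfl.mem (i := i) (t := s) hs
    rw [gn_c_not hi] at this
    exact this
  refine ⟨z, hz, ?_⟩
  rcases gn_chain hF h hφ hsup hab with ht | ht
  · exact ht
  · exact absurd (h.mem hs) (gn_asymm _ _ ht.1)

theorem locked_trapBottoms [Finite ι] (hF : IsSliceDisc F) (hg : GeneralPosition F)
    (h : IsCurves G (DoubleSet F)) (hφ : ∀ i, φ i → Free G (DoubleSet F) i) {Z : Set Plane}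
    (hZ : IsTrapOf (fun x y => (x, y) ∈ (G.flip φ).support) Z)
    (hne : (trapBottoms F Z).Nonempty) : Locked F (trapBottoms F Z) := by
  refine ⟨hne, inter_subset_right, ?_⟩
  intro x y z ht hzS
  have hzi : z ∈ interior Z := bottom_mem_interior hF hg h hφ hZ ht hzS.1
  obtain ⟨i, t, htI, hct⟩ := h.exists_param ht.2
  have htd : t ∈ G.dom i := Or.inr htI
  have hsz : G.snd i t = z := by
    show (G.c i t).2 = z
    rw [hct]
  have hφi : ¬ φ i := by
    intro hi
    refine (hφ i hi).2 t x y ht.1 ?_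
    rw [hsz]; exact ht.2
  have hin : G.snd i t ∈ interior Z := hsz ▸ hzi
  have hc : Continuous (G.snd i) := continuous_snd.comp (h.smooth i).continuous
  -- two exits give the first alternative
  have two : ∀ s1 ∈ G.dom i, ∀ s2 ∈ G.dom i, G.snd i s1 ∈ frontier Z →
      G.snd i s2 ∈ frontier Z → G.c i s1 ≠ G.c i s2 →
      ∃ x₁ y₁ z₁ x₂ y₂ z₂, Triple F x₁ y₁ z₁ ∧ Triple F x₂ y₂ z₂ ∧ z₁ ∈ trapBottoms F Z ∧
        z₂ ∈ trapBottoms F Z ∧ z₁ ≠ z₂ ∧ SameCurve F (y, z) (x₁, y₁) ∧
        SameCurve F (y, z) (x₂, y₂) := by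
    intro s1 hs1 s2 hs2 hf1 hf2 hne12
    obtain ⟨z1, hz1, ht1⟩ := exit_triple hF h hφ hZ hφi hs1 hf1
    obtain ⟨z2, hz2, ht2⟩ := exit_triple hF h hφ hZ hφi hs2 hf2
    refine ⟨_, _, z1, _, _, z2, ht1, ht2, ⟨hz1, _, _, ht1⟩, ⟨hz2, _, _, ht2⟩, ?_, ?_, ?_⟩
    · rintro rfl
      obtain ⟨e1, e2⟩ := triple_unique hF hg ht1 ht2
      exact hne12 (Prod.ext e1 e2)
    · have := h.mem_component htd hs1
      rw [hct] at this
      exact this
    · have := h.mem_component htd hs2
      rw [hct] at this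
      exact this
  by_cases hi : G.closed i
  · by_cases hall : ∀ s, G.snd i s ∈ Z
    · -- the whole lower curve is in `Z`: parity
      right
      have hcl : ClosedCurve F (y, z) := by
        intro q hq
        have hq' : q ∈ connectedComponentIn (DoubleSet F) (G.c i t) := by rw [hct]; exact hq
        obtain ⟨s, -, hs⟩ := h.of_mem_component htd hq'
        rw [← hs]
        exact h.sndClosed i hi s
      refine ⟨hcl, ?_⟩
      obtain ⟨x', y', z', ht', hne', hs1, hs2⟩ := exists_second_triple hF hg h ht hcl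
      have hq' : (y', z') ∈ connectedComponentIn (DoubleSet F) (G.c i t) := by
        rw [hct]; exact hs2
      obtain ⟨s, -, hs⟩ := h.of_mem_component htd hq'
      have hz' : z' ∈ Z := by
        have := hall s
        have e : G.snd i s = z' := by
          show (G.c i s).2 = z'
          rw [hs]
        rw [← e]; exact this
      refine ⟨x', y', z', ht', ⟨hz', _, _, ht'⟩, ?_, hs1, hs2⟩
      rintro rfl
      exact hne' (triple_unique hF hg ht' ht).1
    · left
      push Not at hall
      obtain ⟨s, hs⟩ := hall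
      -- move `s` to the period starting at `t`
      obtain ⟨n, hn⟩ := periodic_reduce (h.pos i) t s
      have hper : ∀ r, G.snd i (r + G.len i) = G.snd i r := fun r => by
        show (G.c i (r + G.len i)).2 = (G.c i r).2
        rw [h.periodic i hi r]
      have he : G.snd i (s + n * G.len i) = G.snd i s := periodic_int hper s n
      set r := s + n * G.len i with hr
      have hrZ : G.snd i r ∉ interior Z := by
        rw [he]; exact fun h' => hs (interior_subset h')
      obtain ⟨s1, hs1, hf1⟩ := exists_exit hc hn.1 hin hrZ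
      have hin2 : G.snd i (t + G.len i) ∈ interior Z := by rw [hper]; exact hin
      obtain ⟨s2, hs2, hf2⟩ := exists_exit' hc hn.2.le hrZ hin2
      by_cases h12 : s1 = s2
      · -- then `s1 = r = s2`, but `r` is outside `Z`
        exfalso
        have : s1 = r := le_antisymm hs1.2 (h12 ▸ hs2.1)
        rw [this] at hf1
        have h3 : G.snd i r ∈ Z := hZ.compact.isClosed.frontier_subset hf1
        rw [he] at h3
        exact hs h3
      · refine two s1 (Or.inl hi) s2 (Or.inl hi) hf1 hf2 ?_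
        have hlt : s1 < s2 := lt_of_le_of_ne (hs1.2.trans hs2.1) h12
        intro hc'
        exact h.ne_of_mem_Ioo hi (s := s2) (t := s1)
          ⟨hlt, by linarith [hs2.2, hs1.1]⟩ hc'.symm
  · left
    obtain ⟨he0, he1⟩ := h.ends i hi
    have hn : ∀ x : Plane, x ∈ sphere (0 : Plane) 1 → x ∉ interior Z := by
      intro x hx hxZ
      have := hZ.sub (interior_subset hxZ)
      rw [mem_ball_zero_iff] at this
      rw [mem_sphere_zero_iff_norm] at hx
      linarith
    obtain ⟨s1, hs1, hf1⟩ := exists_exit hc htI.2 hin (hn _ he1)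
    obtain ⟨s2, hs2, hf2⟩ := exists_exit' hc htI.1 (hn _ he0) hin
    have hd1 : s1 ∈ Icc 0 (G.len i) := ⟨by linarith [htI.1, hs1.1], hs1.2⟩
    have hd2 : s2 ∈ Icc 0 (G.len i) := ⟨hs2.1, by linarith [hs2.2, htI.2]⟩
    refine two s1 (Or.inr hd1) s2 (Or.inr hd2) hf1 hf2 ?_
    intro hc'
    have := h.injArc i hi hd1 hd2 hc'
    linarith [hs1.1, hs2.2]

end Pool.Agent.Lib_MP_752436_tp
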