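import Pool.Agent.Lib_MP_752436_tp.Local

/-!
Piece FL: Flip.lean.
-/

open Metric Set Filter
open scoped ContDiff Topology

namespace Pool.Agent.Lib_MP_752436_tp

open Pool.Agent.Lib_MP_752436_gt

variable {ι : Type} {G : Curves ι} {D : Set (Plane × Plane)}

theorem fl_c {φ : ι → Prop} {i : ι} (hi : φ i) : (G.flip φ).c i = fun t => (G.c i t).swap :=
  funext fun _ => if_pos hi

theorem fl_c_not {φ : ι → Prop} {i : ι} (hi : ¬ φ i) : (G.flip φ).c i = G.c i :=
  funext fun _ => if_neg hi

theorem fl_fst {φ : ι → Prop} {i : ι} (hi : φ i) : (G.flip φ).fst i = G.snd i :=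
  funext fun t => congrArg Prod.fst (congrFun (fl_c hi) t)

theorem fl_snd {φ : ι → Prop} {i : ι} (hi : φ i) : (G.flip φ).snd i = G.fst i :=
  funext fun t => congrArg Prod.snd (congrFun (fl_c hi) t)

theorem fl_fst_not {φ : ι → Prop} {i : ι} (hi : ¬ φ i) : (G.flip φ).fst i = G.fst i :=
  funext fun t => congrArg Prod.fst (congrFun (fl_c_not hi) t)

theorem fl_snd_not {φ : ι → Prop} {i : ι} (hi : ¬ φ i) : (G.flip φ).snd i = G.snd i :=
  funext fun t => congrArg Prod.snd (congrFun (fl_c_not hi) t)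

theorem mem_support_flip {φ : ι → Prop} {p : Plane × Plane} :
    p ∈ (G.flip φ).support ↔ (∃ i, ¬ φ i ∧ ∃ t ∈ Icc 0 (G.len i), G.c i t = p) ∨
      ∃ i, φ i ∧ ∃ t ∈ Icc 0 (G.len i), G.c i t = p.swap := by
  constructor
  · intro hp
    obtain ⟨i, t, ht, he⟩ := mem_iUnion.1 hp
    by_cases hi : φ i
    · refine Or.inr ⟨i, hi, t, ht, ?_⟩
      rw [fl_c hi] at he
      rw [← he, Prod.swap_swap]
    · refine Or.inl ⟨i, hi, t, ht, ?_⟩
      rw [fl_c_not hi] at he
      exact he
  · rintro (⟨i, hi, t, ht, he⟩ | ⟨i, hi, t, ht, he⟩)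
    · refine mem_iUnion.2 ⟨i, t, ht, ?_⟩
      rw [fl_c_not hi]
      exact he
    · refine mem_iUnion.2 ⟨i, t, ht, ?_⟩
      rw [fl_c hi]
      show (G.c i t).swap = p
      rw [he, Prod.swap_swap]

theorem isCurves_flip (h : IsCurves G D) (hD : ∀ x y, (x, y) ∈ D → (y, x) ∉ D) {φ : ι → Prop}
    (hφ : ∀ i, φ i → G.closed i) : IsCurves (G.flip φ) (G.flip φ).support := by
  have hdom : ∀ i, (G.flip φ).dom i = G.dom i := fun i => rfl
  have hlen : ∀ i, (G.flip φ).len i = G.len i := fun i => rfl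
  have hsw : ∀ p : Plane × Plane, p ∈ D → p.swap ∉ D := fun p hp => hD p.1 p.2 hp
  constructor
  · exact h.pos
  · intro i
    by_cases hi : φ i
    · rw [fl_c hi]
      exact (contDiff_snd.comp (h.smooth i)).prodMk (contDiff_fst.comp (h.smooth i))
    · rw [fl_c_not hi]
      exact h.smooth i
  · intro i t ht
    by_cases hi : φ i
    · rw [fl_fst hi]
      exact h.immSnd i t ht
    · rw [fl_fst_not hi]
      exact h.immFst i t ht
  · intro i t ht
    by_cases hi : φ i
    · rw [fl_snd hi]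
      exact h.immFst i t ht
    · rw [fl_snd_not hi]
      exact h.immSnd i t ht
  · rfl
  · intro i j hij
    rw [Set.disjoint_left]
    rintro p ⟨s, hs, hsp⟩ ⟨t, ht, htp⟩
    have hs' : s ∈ G.dom i := Or.inr hs
    have ht' : t ∈ G.dom j := Or.inr ht
    by_cases hi : φ i
    · rw [fl_c hi] at hsp
      have hsp' : G.c i s = p.swap := by rw [← hsp, Prod.swap_swap]
      by_cases hj : φ j
      · rw [fl_c hj] at htp
        have htp' : G.c j t = p.swap := by rw [← htp, Prod.swap_swap]
        exact Set.disjoint_left.1 (h.disj i j hij) ⟨s, hs, hsp'⟩ ⟨t, ht, htp'⟩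
      · rw [fl_c_not hj] at htp
        exact hsw p (htp ▸ h.mem ht') (hsp' ▸ h.mem hs')
    · rw [fl_c_not hi] at hsp
      by_cases hj : φ j
      · rw [fl_c hj] at htp
        have htp' : G.c j t = p.swap := by rw [← htp, Prod.swap_swap]
        exact hsw p (hsp ▸ h.mem hs') (htp' ▸ h.mem ht')
      · rw [fl_c_not hj] at htp
        exact Set.disjoint_left.1 (h.disj i j hij) ⟨s, hs, hsp⟩ ⟨t, ht, htp⟩
  · intro i hi t
    by_cases hi' : φ i
    · rw [fl_c hi']
      show (G.c i (t + G.len i)).swap = (G.c i t).swap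
      rw [h.periodic i hi t]
    · rw [fl_c_not hi']
      exact h.periodic i hi t
  · intro i hi
    by_cases hi' : φ i
    · rw [fl_c hi']
      intro s hs t ht he
      exact h.injClosed i hi hs ht (Prod.swap_injective he)
    · rw [fl_c_not hi']
      exact h.injClosed i hi
  · intro i hi
    have hi' : ¬ φ i := fun hp => hi (hφ i hp)
    rw [fl_c_not hi']
    exact h.injArc i hi
  · intro i t ht
    by_cases hi : φ i
    · rw [fl_fst hi]
      exact h.sndClosed i (hφ i hi) t
    · rw [fl_fst_not hi]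
      exact h.fstMem i t ht
  · intro i t ht
    by_cases hi : φ i
    · rw [fl_snd hi]
      exact ball_subset_closedBall (h.fstMem i t ht)
    · rw [fl_snd_not hi]
      exact h.sndMem i t ht
  · intro i hi t
    by_cases hi' : φ i
    · rw [fl_snd hi']
      exact h.fstMem i t (Or.inl hi)
    · rw [fl_snd_not hi']
      exact h.sndClosed i hi t
  · intro i hi t ht
    have hi' : ¬ φ i := fun hp => hi (hφ i hp)
    rw [fl_snd_not hi']
    exact h.sndArc i hi t ht
  · intro i hi
    have hi' : ¬ φ i := fun hp => hi (hφ i hp)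
    rw [fl_snd_not hi']
    exact h.ends i hi

end Pool.Agent.Lib_MP_752436_tp
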