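import Pool.Agent.Lib_MP_752436_tp.Hull
import Pool.Agent.Lib_MP_752436_tp.Flip

/-!
Piece R: Rank.lean.
-/

open Metric Set Filter
open scoped ContDiff Topology

namespace Pool.Agent.Lib_MP_752436_tp

open Pool.Agent.Lib_MP_752436_gt

variable {ι : Type} {G : Curves ι} {D : Set (Plane × Plane)}

theorem flip_up_eq (φ : ι → Prop) (i : ι) :
    (φ i ∧ (G.flip φ).up i = G.low i ∧ (G.flip φ).low i = G.up i) ∨
      (¬ φ i ∧ (G.flip φ).up i = G.up i ∧ (G.flip φ).low i = G.low i) := by
  by_cases hφ : φ i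
  · left
    refine ⟨hφ, ?_, ?_⟩
    · unfold Curves.up Curves.low
      apply image_congr
      intro t _
      simp [Curves.flip, Curves.fst, Curves.snd, hφ]
    · unfold Curves.up Curves.low
      apply image_congr
      intro t _
      simp [Curves.flip, Curves.fst, Curves.snd, hφ]
  · right
    refine ⟨hφ, ?_, ?_⟩
    · unfold Curves.up
      apply image_congr
      intro t _
      simp [Curves.flip, Curves.fst, hφ]
    · unfold Curves.low
      apply image_congr
      intro t _
      simp [Curves.flip, Curves.snd, hφ]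

/-- The set of all upper and lower curves. -/
def Lifts (G : Curves ι) : Set (Set Plane) := {K | ∃ i, K = G.up i ∨ K = G.low i}

theorem finite_Lifts [Finite ι] (G : Curves ι) : (Lifts G).Finite := by
  have h1 : Lifts G ⊆ range G.up ∪ range G.low := by
    rintro K ⟨i, hK | hK⟩
    · exact Or.inl ⟨i, hK.symm⟩
    · exact Or.inr ⟨i, hK.symm⟩
  exact ((finite_range _).union (finite_range _)).subset h1

/-- The rank of a set: the number of lifts in its hull. -/
noncomputable def rk (G : Curves ι) (X : Set Plane) : ℕ := ({K ∈ Lifts G | K ⊆ hull X}).ncard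

theorem isCompact_up (h : IsCurves G D) (i : ι) : IsCompact (G.up i) :=
  isCompact_Icc.image (continuous_fst.comp (h.smooth i).continuous)

theorem isCompact_low (h : IsCurves G D) (i : ι) : IsCompact (G.low i) :=
  isCompact_Icc.image (continuous_snd.comp (h.smooth i).continuous)

theorem nonempty_up (h : IsCurves G D) (i : ι) : (G.up i).Nonempty :=
  ⟨_, mem_image_of_mem _ (left_mem_Icc.mpr (h.pos i).le)⟩

theorem nonempty_low (h : IsCurves G D) (i : ι) : (G.low i).Nonempty :=
  ⟨_, mem_image_of_mem _ (left_mem_Icc.mpr (h.pos i).le)⟩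

theorem rk_lt [Finite ι] {X Y : Set Plane} (hX : IsCompact X) (hY : IsCompact Y)
    (hXn : X.Nonempty) (hYL : Y ∈ Lifts G) (hXY : X ⊆ hull Y) (hd : Disjoint X Y) :
    rk G X < rk G Y := by
  unfold rk
  refine ncard_lt_ncard ?_ ((finite_Lifts G).subset (sep_subset _ _))
  rw [ssubset_iff_of_subset]
  · refine ⟨Y, ⟨hYL, subset_hull Y⟩, ?_⟩
    rintro ⟨_, h2⟩
    exact hull_antisymm hX hY hXn hd hXY h2
  · rintro K ⟨hK, hKX⟩
    exact ⟨hK, hKX.trans (hull_subset hXY)⟩

/-- Some choice of the curves to flip is monotone with respect to the inclusion of hulls. -/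
theorem exists_flip [Finite ι] (h : IsCurves G D) (ψ : ι → Prop) :
    ∃ φ : ι → Prop, (∀ i, φ i → ψ i) ∧ ∃ ρu ρl : ι → ℕ,
      (∀ i, ψ i → ρu i ≤ ρl i) ∧
      ∀ i j, ψ i → ψ j → (G.flip φ).low i ⊆ hull ((G.flip φ).up j) →
        Disjoint ((G.flip φ).low i) ((G.flip φ).up j) → ρl i < ρu j := by
  refine ⟨fun i => ψ i ∧ rk G (G.low i) < rk G (G.up i), fun i hi => hi.1, ?_⟩
  set φ : ι → Prop := fun i => ψ i ∧ rk G (G.low i) < rk G (G.up i) with hφ
  refine ⟨fun i => rk G ((G.flip φ).up i), fun i => rk G ((G.flip φ).low i), ?_, ?_⟩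
  · intro i hi
    simp only
    rcases flip_up_eq (G := G) φ i with ⟨h1, h2, h3⟩ | ⟨h1, h2, h3⟩
    · rw [h2, h3]
      exact h1.2.le
    · rw [h2, h3]
      by_contra hlt
      exact h1 ⟨hi, not_le.mp hlt⟩
  · intro i j hi hj hsub hd
    have hX : IsCompact ((G.flip φ).low i) ∧ ((G.flip φ).low i).Nonempty := by
      rcases flip_up_eq (G := G) φ i with ⟨_, _, h3⟩ | ⟨_, _, h3⟩
      · rw [h3]; exact ⟨isCompact_up h i, nonempty_up h i⟩
      · rw [h3]; exact ⟨isCompact_low h i, nonempty_low h i⟩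
    have hY : IsCompact ((G.flip φ).up j) ∧ (G.flip φ).up j ∈ Lifts G := by
      rcases flip_up_eq (G := G) φ j with ⟨_, h3, _⟩ | ⟨_, h3, _⟩
      · rw [h3]; exact ⟨isCompact_low h j, j, Or.inr rfl⟩
      · rw [h3]; exact ⟨isCompact_up h j, j, Or.inl rfl⟩
    exact rk_lt hX.1 hY.1 hX.2 hY.2 hsub hd

end Pool.Agent.Lib_MP_752436_tp
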