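import Pool.Agent.Lib_MP_752436_tp.Exists
import Pool.Agent.Lib_MP_752436_tp.Rank
import Pool.Agent.Lib_MP_752436_tp.Bottom
import Pool.Agent.Lib_MP_752436_gt.DiagramBirths

/-!
Triple points bound births: the assembly.
-/

open Metric Set Filter
open scoped ContDiff Topology

namespace Pool.Agent.Lib_MP_752436_tp

open Pool.Agent.Lib_MP_752436_gt

theorem contDiff_shadow {F : Plane → EuclideanSpace ℝ (Fin 4)} (hF : IsSliceDisc F) :
    ContDiff ℝ ∞ (shadow F) := by
  have h := contDiff_euclidean.1 hF.smooth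
  rw [contDiff_euclidean]
  intro i
  fin_cases i
  · exact h 0
  · exact h 1
  · exact h 2

theorem births_of_locked {F : Plane → EuclideanSpace ℝ (Fin 4)} (hF : IsSliceDisc F)
    (hg : GeneralPosition F) {n : ℕ} {P : Set Plane} (hn : P.encard ≤ n)
    (hP : ∀ S, Locked F S → (S ∩ P).Nonempty) :
    ∃ G, MorseDisc G ∧ (births G).encard ≤ n ∧ ∀ x, shadow G x = shadow F x := by
  obtain ⟨ι, hι, G, hG⟩ := exists_curves hF hg
  obtain ⟨φ, hφ, ρu, ρl, h1, h2⟩ := exists_flip hG (fun i => Free G (DoubleSet F) i)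
  have hgood := good_flip hF hg hG hφ
  have hR := crossingInfo_flip hF hg hG (φ := φ) (fun i hi => (hφ i hi).1)
  suffices hS : ∃ P' : Set Plane, P'.encard ≤ n ∧
      (∀ p ∈ P', ∀ y, ¬ (p, y) ∈ (G.flip φ).support) ∧
      ∀ Z, IsTrapOf (fun x y => (x, y) ∈ (G.flip φ).support) Z → (Z ∩ P').Nonempty by
    obtain ⟨H, hH, hHn, -, hsh, -⟩ := (diagram_births (contDiff_shadow hF) hg.immersion hR n).2 hS
    exact ⟨H, hH, hHn, hsh⟩
  refine ⟨P ∩ triplePoints F, (encard_le_encard inter_subset_left).trans hn, ?_, ?_⟩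
  · rintro p ⟨-, x, y, ht⟩ w hw
    obtain ⟨a, b, hab, hbp⟩ := gn_chain_of_triple hG hφ ht
    exact hgood.noFour a b p w hab hbp hw
  · intro Z hZ
    obtain ⟨x, y, z, hxy, hyz, hz⟩ := exists_bottom_mem hgood ρu ρl
      (fun i hi => h1 i (free_of_free_flip hG hφ hi))
      (fun i j hi hj => h2 i j (free_of_free_flip hG hφ hi) (free_of_free_flip hG hφ hj)) hZ
    have hzt : z ∈ triplePoints F := by
      rcases gn_chain hF hG hφ hxy hyz with ht | ht
      · exact ⟨x, y, ht⟩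
      · exact ⟨y, x, ht⟩
    obtain ⟨p, hp1, hp2⟩ := hP _ (locked_trapBottoms hF hg hG hφ hZ ⟨z, hz, hzt⟩)
    exact ⟨p, hp1.1, hp2, hp1.2⟩

theorem Locked.exists_pair {F : Plane → EuclideanSpace ℝ (Fin 4)} {S : Set Plane}
    (h : Locked F S) : ∃ z₁ ∈ S, ∃ z₂ ∈ S, z₁ ≠ z₂ := by
  obtain ⟨z, hz⟩ := h.nonempty
  obtain ⟨x, y, ht⟩ := h.sub hz
  rcases h.lock x y z ht hz with ⟨x1, y1, z1, x2, y2, z2, -, -, h1, h2, h3, -⟩ |
    ⟨-, x1, y1, z1, -, h1, h2, -⟩
  · exact ⟨z1, h1, z2, h2, h3⟩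
  · exact ⟨z1, h1, z, hz, h2⟩

theorem births_of_triplePoints {F : Plane → EuclideanSpace ℝ (Fin 4)} (hF : IsSliceDisc F)
    (hg : GeneralPosition F) {n : ℕ} (hn : (triplePoints F).encard ≤ n + 1) :
    ∃ G, MorseDisc G ∧ (births G).encard ≤ n ∧ ∀ x, shadow G x = shadow F x := by
  rcases (triplePoints F).eq_empty_or_nonempty with he | ⟨z0, hz0⟩
  · refine births_of_locked hF hg (P := ∅) (by simp) ?_
    intro S hS
    obtain ⟨z, hz⟩ := hS.nonempty
    have := hS.sub hz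
    rw [he] at this
    exact absurd this (notMem_empty z)
  · refine births_of_locked hF hg (P := triplePoints F \ {z0}) ?_ ?_
    · have h1 := encard_sdiff_singleton_add_one hz0
      rw [← h1] at hn
      exact (ENat.add_le_add_iff_right (by simp)).1 hn
    · intro S hS
      obtain ⟨z1, h1, z2, h2, h12⟩ := hS.exists_pair
      by_cases hc : z1 = z0
      · exact ⟨z2, h2, hS.sub h2, fun h' => h12 (hc.trans (mem_singleton_iff.1 h').symm)⟩
      · exact ⟨z1, h1, hS.sub h1, hc⟩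

end Pool.Agent.Lib_MP_752436_tp
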