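import Pool.Agent.Lib_MP_752436_tp.Defs2
import Pool.Agent.Lib_MP_752436_gt.CrossLem
import Pool.Agent.Lib_MP_752436_gt.GaussJac

/-!
Piece F1: Field.lean.
-/

open Metric Set Filter
open scoped ContDiff Topology

namespace Pool.Agent.Lib_MP_752436_tp

open Pool.Agent.Lib_MP_752436_gt

theorem fl_inner (a b : Space) : inner ℝ a b = a 0 * b 0 + a 1 * b 1 + a 2 * b 2 := by
  rw [PiLp.inner_apply, Fin.sum_univ_three]
  simp [mul_comm]

theorem fl_normsq (a : Space) : ‖a‖ ^ 2 = a 0 * a 0 + a 1 * a 1 + a 2 * a 2 := by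
  rw [← real_inner_self_eq_norm_sq, fl_inner]

@[simp] theorem fl_cross0 (a b : Space) : cross a b 0 = a 1 * b 2 - a 2 * b 1 := rfl
@[simp] theorem fl_cross1 (a b : Space) : cross a b 1 = a 2 * b 0 - a 0 * b 2 := rfl
@[simp] theorem fl_cross2 (a b : Space) : cross a b 2 = a 0 * b 1 - a 1 * b 0 := rfl

/-- The derivative in terms of the partial derivatives. -/
theorem fl_fderiv (f : Plane → Space) (x u : Plane) :
    fderiv ℝ f x u = u 0 • pd f 0 x + u 1 • pd f 1 x := by
  have hu : u = u 0 • EuclideanSpace.single 0 (1 : ℝ) + u 1 • EuclideanSpace.single 1 (1 : ℝ) := by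
    ext i; fin_cases i <;> simp
  unfold pd
  conv_lhs => rw [hu]
  rw [map_add, map_smul, map_smul]

/-- The basic identity of vector algebra. -/
theorem fl_identity (a b N : Space) :
    inner ℝ (cross N b) (cross a b) • a + inner ℝ (cross a N) (cross a b) • b =
      ‖cross a b‖ ^ 2 • N - inner ℝ N (cross a b) • cross a b := by
  rw [fl_normsq, fl_inner, fl_inner, fl_inner]
  ext i
  fin_cases i <;> simp [-fl_cross0, -fl_cross1, -fl_cross2] <;>
    simp only [fl_cross0, fl_cross1, fl_cross2] <;> ring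

theorem fl_inner_cross_left (a b : Space) : inner ℝ (cross a b) a = 0 := by
  rw [fl_inner]
  simp only [fl_cross0, fl_cross1, fl_cross2]
  ring

theorem fl_inner_cross_right (a b : Space) : inner ℝ (cross a b) b = 0 := by
  rw [fl_inner]
  simp only [fl_cross0, fl_cross1, fl_cross2]
  ring

/-- The derivative of `f` maps `pull f x N` to `‖n‖ ^ 2 • N` for `N` orthogonal to `n`. -/
theorem fl_pull (f : Plane → Space) (x : Plane) (N : Space) (h : inner ℝ N (nvec f x) = 0) :
    fderiv ℝ f x (pull f x N) = ‖nvec f x‖ ^ 2 • N := by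
  rw [fl_fderiv]
  have h1 := fl_identity (pd f 0 x) (pd f 1 x) N
  have h2 : inner ℝ N (cross (pd f 0 x) (pd f 1 x)) = 0 := h
  rw [h2, zero_smul, sub_zero] at h1
  exact h1

theorem contDiff_nvec' {f : Plane → Space} (hf : ContDiff ℝ ∞ f) : ContDiff ℝ ∞ (nvec f) := by
  have h : nvec f = fun x => gjCross (pd f 0 x) (pd f 1 x) := rfl
  rw [h]
  exact (gjCross.contDiff.comp (gj_contDiff_pd hf 0)).clm_apply (gj_contDiff_pd hf 1)

theorem fl_contDiff_cross {X : Type*} [NormedAddCommGroup X] [NormedSpace ℝ X] {a b : X → Space}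
    (ha : ContDiff ℝ ∞ a) (hb : ContDiff ℝ ∞ b) : ContDiff ℝ ∞ fun x => cross (a x) (b x) := by
  have h : (fun x => cross (a x) (b x)) = fun x => gjCross (a x) (b x) := rfl
  rw [h]
  exact (gjCross.contDiff.comp ha).clm_apply hb

theorem fl_contDiff_pull {X : Type*} [NormedAddCommGroup X] [NormedSpace ℝ X] {f : Plane → Space}
    (hf : ContDiff ℝ ∞ f) {y : X → Plane} {N : X → Space} (hy : ContDiff ℝ ∞ y)
    (hN : ContDiff ℝ ∞ N) : ContDiff ℝ ∞ fun x => pull f (y x) (N x) := by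
  have ha : ContDiff ℝ ∞ fun x => pd f 0 (y x) := (gj_contDiff_pd hf 0).comp hy
  have hb : ContDiff ℝ ∞ fun x => pd f 1 (y x) := (gj_contDiff_pd hf 1).comp hy
  have hn : ContDiff ℝ ∞ fun x => nvec f (y x) := (contDiff_nvec' hf).comp hy
  rw [contDiff_euclidean]
  intro i
  fin_cases i
  · exact (fl_contDiff_cross hN hb).inner ℝ hn
  · exact (fl_contDiff_cross ha hN).inner ℝ hn

theorem contDiff_field {f : Plane → Space} (hf : ContDiff ℝ ∞ f) : ContDiff ℝ 1 (field f) := by
  have h1 : ContDiff ℝ ∞ fun p : Plane × Plane => nvec f p.1 := (contDiff_nvec' hf).comp contDiff_fst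
  have h2 : ContDiff ℝ ∞ fun p : Plane × Plane => nvec f p.2 := (contDiff_nvec' hf).comp contDiff_snd
  have hN := fl_contDiff_cross h1 h2
  have h3 : ContDiff ℝ ∞ (field f) :=
    ((h2.norm_sq ℝ).smul (fl_contDiff_pull hf contDiff_fst hN)).prodMk
      ((h1.norm_sq ℝ).smul (fl_contDiff_pull hf contDiff_snd hN))
  exact h3.of_le (by exact_mod_cast le_top)

/-- The image of the field. -/
theorem fl_image (f : Plane → Space) (p : Plane × Plane) :
    fderiv ℝ f p.1 (field f p).1 =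
      (‖nvec f p.1‖ ^ 2 * ‖nvec f p.2‖ ^ 2) • cross (nvec f p.1) (nvec f p.2) ∧
    fderiv ℝ f p.2 (field f p).2 =
      (‖nvec f p.1‖ ^ 2 * ‖nvec f p.2‖ ^ 2) • cross (nvec f p.1) (nvec f p.2) := by
  constructor
  · show fderiv ℝ f p.1 (‖nvec f p.2‖ ^ 2 • pull f p.1 (cross (nvec f p.1) (nvec f p.2))) = _
    rw [map_smul, fl_pull f p.1 _ (fl_inner_cross_left _ _), smul_smul, mul_comm]
  · show fderiv ℝ f p.2 (‖nvec f p.1‖ ^ 2 • pull f p.2 (cross (nvec f p.1) (nvec f p.2))) = _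
    rw [map_smul, fl_pull f p.2 _ (fl_inner_cross_right _ _), smul_smul]

theorem field_parallel {f : Plane → Space} (p : Plane × Plane) :
    fderiv ℝ f p.1 (field f p).1 = fderiv ℝ f p.2 (field f p).2 := by
  rw [(fl_image f p).1, (fl_image f p).2]

theorem fl_cross_zero {a b : Space} (h : cross a b = 0) : ‖a‖ ^ 2 • b = inner ℝ a b • a := by
  have h0 : a 1 * b 2 - a 2 * b 1 = 0 := by rw [← fl_cross0, h]; rfl
  have h1 : a 2 * b 0 - a 0 * b 2 = 0 := by rw [← fl_cross1, h]; rfl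
  have h2 : a 0 * b 1 - a 1 * b 0 = 0 := by rw [← fl_cross2, h]; rfl
  rw [fl_normsq, fl_inner]
  ext i
  fin_cases i
  · simp
    linear_combination a 2 * h1 - a 1 * h2
  · simp
    linear_combination a 0 * h2 - a 2 * h0
  · simp
    linear_combination a 1 * h0 - a 0 * h1

theorem fl_nvec_ne {f : Plane → Space} {x : Plane} (h : Function.Injective (fderiv ℝ f x)) :
    nvec f x ≠ 0 := by
  intro h0
  have h1 := fl_cross_zero (a := pd f 0 x) (b := pd f 1 x) h0
  have h2 : fderiv ℝ f x (!₂[-inner ℝ (pd f 0 x) (pd f 1 x), ‖pd f 0 x‖ ^ 2]) = 0 := by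
    rw [fl_fderiv]
    simp only [Matrix.cons_val_zero, Matrix.cons_val_one]
    rw [h1]
    module
  have h3 := h (h2.trans (map_zero _).symm)
  have h4 : ‖pd f 0 x‖ ^ 2 = 0 := by
    have := congrArg (fun v : Plane => v 1) h3
    simpa using this
  have h5 : pd f 0 x = 0 := by
    have := pow_eq_zero_iff (two_ne_zero) |>.1 h4
    exact norm_eq_zero.1 this
  have h6 : EuclideanSpace.single (0 : Fin 2) (1 : ℝ) = 0 := h (h5.trans (map_zero _).symm)
  have := congrArg (fun v : Plane => v 0) h6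
  simp at this

theorem fl_inner_fderiv (f : Plane → Space) (x u : Plane) :
    inner ℝ (fderiv ℝ f x u) (nvec f x) = 0 := by
  rw [fl_fderiv, inner_add_left, real_inner_smul_left, real_inner_smul_left,
    real_inner_comm, real_inner_comm (nvec f x)]
  have h1 := fl_inner_cross_left (pd f 0 x) (pd f 1 x)
  have h2 := fl_inner_cross_right (pd f 0 x) (pd f 1 x)
  unfold nvec
  rw [h1, h2]
  simp

/-- At a transverse double point the field is nonzero and it spans the kernel. -/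
theorem field_kernel {f : Plane → Space} {p : Plane × Plane}
    (h1 : Function.Injective (fderiv ℝ f p.1)) (h2 : Function.Injective (fderiv ℝ f p.2))
    (ht : ∀ v, ∃ u w, fderiv ℝ f p.1 u + fderiv ℝ f p.2 w = v) :
    (field f p).1 ≠ 0 ∧ (field f p).2 ≠ 0 ∧
      ∀ u w, fderiv ℝ f p.1 u = fderiv ℝ f p.2 w → ∃ s : ℝ, (u, w) = s • field f p := by
  have hn1 := fl_nvec_ne h1
  have hn2 := fl_nvec_ne h2
  have hN : cross (nvec f p.1) (nvec f p.2) ≠ 0 := by
    intro h0
    have h3 := fl_cross_zero h0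
    have hc : inner ℝ (nvec f p.1) (nvec f p.2) ≠ (0 : ℝ) := by
      intro hc
      rw [hc, zero_smul, smul_eq_zero] at h3
      rcases h3 with h3 | h3
      · exact hn1 (norm_eq_zero.1 ((pow_eq_zero_iff two_ne_zero).1 h3))
      · exact hn2 h3
    obtain ⟨u, w, huw⟩ := ht (nvec f p.1)
    have h4 : inner ℝ (fderiv ℝ f p.2 w) (nvec f p.1) = 0 := by
      have h5 : inner ℝ (fderiv ℝ f p.2 w) (‖nvec f p.1‖ ^ 2 • nvec f p.2) = 0 := by
        rw [real_inner_smul_right, fl_inner_fderiv, mul_zero]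
      rw [h3, real_inner_smul_right] at h5
      exact (mul_eq_zero.1 h5).resolve_left hc
    have h6 : inner ℝ (nvec f p.1) (nvec f p.1) = (0 : ℝ) := by
      conv_lhs => rw [← huw]
      rw [inner_add_left]
      have h7 : inner ℝ (fderiv ℝ f p.1 u) (fderiv ℝ f p.1 u + fderiv ℝ f p.2 w) = (0 : ℝ) := by
        rw [huw]; exact fl_inner_fderiv f p.1 u
      have h8 : inner ℝ (fderiv ℝ f p.2 w) (fderiv ℝ f p.1 u + fderiv ℝ f p.2 w) = (0 : ℝ) := by
        rw [huw]; exact h4
      rw [h7, h8, add_zero]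
    exact hn1 (inner_self_eq_zero.1 h6)
  have hm : ‖nvec f p.1‖ ^ 2 * ‖nvec f p.2‖ ^ 2 ≠ 0 := by
    have e1 : ‖nvec f p.1‖ ≠ 0 := norm_ne_zero_iff.2 hn1
    have e2 : ‖nvec f p.2‖ ≠ 0 := norm_ne_zero_iff.2 hn2
    positivity
  have him := fl_image f p
  refine ⟨?_, ?_, ?_⟩
  · intro h0
    have h3 := him.1
    rw [h0, map_zero] at h3
    exact (smul_ne_zero hm hN) h3.symm
  · intro h0
    have h3 := him.2
    rw [h0, map_zero] at h3
    exact (smul_ne_zero hm hN) h3.symm
  · intro u w huw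
    have h3 : inner ℝ (fderiv ℝ f p.1 u) (nvec f p.1) = 0 := fl_inner_fderiv f p.1 u
    have h4 : inner ℝ (fderiv ℝ f p.1 u) (nvec f p.2) = 0 := by
      rw [huw]; exact fl_inner_fderiv f p.2 w
    obtain ⟨s, hs⟩ := exists_smul_cross hN h3 h4
    refine ⟨s / (‖nvec f p.1‖ ^ 2 * ‖nvec f p.2‖ ^ 2), ?_⟩
    refine Prod.ext ?_ ?_
    · apply h1
      show fderiv ℝ f p.1 u = fderiv ℝ f p.1 (_ • (field f p).1)
      rw [map_smul, him.1, smul_smul, div_mul_cancel₀ _ hm, hs]
    · apply h2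
      show fderiv ℝ f p.2 w = fderiv ℝ f p.2 (_ • (field f p).2)
      rw [map_smul, him.2, smul_smul, div_mul_cancel₀ _ hm, ← huw, hs]

end Pool.Agent.Lib_MP_752436_tp
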