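import Pool.Agent.Lib_MP_752436_tp.Orbit

/-!
Piece O2: Family.lean.
-/

open Metric Set Filter
open scoped ContDiff Topology

namespace Pool.Agent.Lib_MP_752436_tp

open Pool.Agent.Lib_MP_752436_gt

/-- The points reached from `c` along the flow inside `D`. -/
def Reach {E : Type} (D : Set E) (Φ : ℝ → E → E) (c : E) : Set E :=
  {q | ∃ t, Φ t c = q ∧ ∀ s ∈ uIcc 0 t, Φ s c ∈ D}

section Reach

variable {E : Type} [MetricSpace E] {D B : Set E} {Φ : ℝ → E → E}

theorem Reach.subset {c : E} : Reach D Φ c ⊆ D := by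
  rintro q ⟨t, rfl, ht⟩
  exact ht t right_mem_uIcc

theorem OneDim.mem_reach (h : OneDim D B Φ) {c : E} (hc : c ∈ D) : c ∈ Reach D Φ c := by
  refine ⟨0, h.zero c, ?_⟩
  intro s hs
  rw [uIcc_self, mem_singleton_iff] at hs
  rw [hs, h.zero]
  exact hc

theorem OneDim.reach_symm (h : OneDim D B Φ) {c q : E} (hq : q ∈ Reach D Φ c) :
    c ∈ Reach D Φ q := by
  obtain ⟨t, rfl, ht⟩ := hq
  refine ⟨-t, ?_, ?_⟩
  · rw [← h.add, neg_add_cancel, h.zero]
  · intro s hs
    rw [← h.add]
    apply ht
    rw [mem_uIcc] at hs ⊢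
    rcases hs with ⟨h1, h2⟩ | ⟨h1, h2⟩
    · right; constructor <;> linarith
    · left; constructor <;> linarith

theorem OneDim.reach_trans (h : OneDim D B Φ) {c q r : E} (hq : q ∈ Reach D Φ c)
    (hr : r ∈ Reach D Φ q) : r ∈ Reach D Φ c := by
  obtain ⟨t, rfl, ht⟩ := hq
  obtain ⟨u, rfl, hu⟩ := hr
  refine ⟨u + t, h.add u t c, ?_⟩
  intro s hs
  by_cases h1 : s ∈ uIcc 0 t
  · exact ht s h1
  · have h2 : s - t ∈ uIcc 0 u := by
      rw [mem_uIcc] at hs h1 ⊢
      push Not at h1
      rcases hs with ⟨h3, h4⟩ | ⟨h3, h4⟩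
      · rcases le_or_gt s t with h5 | h5
        · exact absurd (h1.1 h3) (not_lt.mpr h5)
        · left; constructor <;> linarith
      · rcases le_or_gt t s with h5 | h5
        · exact absurd (h1.2 h5) (not_lt.mpr h4)
        · right; constructor <;> linarith
    have h3 := hu (s - t) h2
    rw [← h.add, sub_add_cancel] at h3
    exact h3

theorem OneDim.reach_eq (h : OneDim D B Φ) {c q : E} (hq : q ∈ Reach D Φ c) :
    Reach D Φ q = Reach D Φ c := by
  apply Subset.antisymm
  · intro r hr
    exact h.reach_trans hq hr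
  · intro r hr
    exact h.reach_trans (h.reach_symm hq) hr

theorem OneDim.reach_open (h : OneDim D B Φ) {q : E} (hq : q ∈ D) :
    ∃ O ∈ 𝓝 q, D ∩ O ⊆ Reach D Φ q := by
  by_cases hB : q ∈ B
  · obtain ⟨η, hη, hcase⟩ := h.bd q hB
    obtain ⟨O, hO, hbox⟩ := h.box q hq η hη
    refine ⟨O, hO, ?_⟩
    intro p hp
    obtain ⟨t, ht, rfl⟩ := hbox p hp
    refine ⟨t, rfl, ?_⟩
    rw [abs_lt] at ht
    rcases hcase with hcase | hcase
    · have ht0 : t ≤ 0 := by
        by_contra h1
        rw [not_le] at h1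
        exact (hcase t ⟨h1, ht.2⟩).1 hp.1
      intro s hs
      rw [uIcc_of_ge ht0] at hs
      rcases hs.2.lt_or_eq with h2 | h2
      · have h3 := (hcase (-s) ⟨by linarith, by linarith [hs.1]⟩).2
        rw [neg_neg] at h3
        exact h3.1
      · rw [h2, h.zero]; exact hq
    · have ht0 : 0 ≤ t := by
        by_contra h1
        rw [not_le] at h1
        have h3 := (hcase (-t) ⟨by linarith, by linarith⟩).2
        rw [neg_neg] at h3
        exact h3 hp.1
      intro s hs
      rw [uIcc_of_le ht0] at hs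
      rcases hs.1.lt_or_eq with h2 | h2
      · exact (hcase s ⟨h2, by linarith [hs.2]⟩).1.1
      · rw [← h2, h.zero]; exact hq
  · obtain ⟨η, hη, hst⟩ := h.stay q ⟨hq, hB⟩
    obtain ⟨O, hO, hbox⟩ := h.box q hq η hη
    refine ⟨O, hO, ?_⟩
    intro p hp
    obtain ⟨t, ht, rfl⟩ := hbox p hp
    refine ⟨t, rfl, ?_⟩
    intro s hs
    apply hst
    rw [abs_lt] at ht ⊢
    rw [mem_uIcc] at hs
    rcases hs with ⟨h1, h2⟩ | ⟨h1, h2⟩ <;> constructor <;> linarith

theorem OneDim.finite_reach (h : OneDim D B Φ) :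
    {S : Set E | ∃ c ∈ D, S = Reach D Φ c}.Finite := by
  choose! O hO hsub using fun q (hq : q ∈ D) => h.reach_open hq
  obtain ⟨F, hF, hcov⟩ := h.compact.elim_nhds_subcover O hO
  refine ((F.finite_toSet).image fun q => Reach D Φ q).subset ?_
  rintro S ⟨c, hc, rfl⟩
  obtain ⟨q, hq, hcq⟩ := mem_iUnion₂.mp (hcov hc)
  exact ⟨q, hq, (h.reach_eq (hsub q (hF q hq) ⟨hc, hcq⟩)).symm⟩

/-- Normal form of a class. -/
theorem OneDim.reach_param (h : OneDim D B Φ) {c : E} (hc : c ∈ D) :
    ∃ (c0 : E) (len : ℝ) (closed : Prop), 0 < len ∧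
      (Reach D Φ c = (fun t => Φ t c0) '' Icc 0 len) ∧
      (closed → Φ len c0 = c0 ∧ InjOn (fun t => Φ t c0) (Ico 0 len) ∧ ∀ t, Φ t c0 ∈ D \ B) ∧
      (¬ closed → c0 ∈ B ∧ Φ len c0 ∈ B ∧ InjOn (fun t => Φ t c0) (Icc 0 len) ∧
        ∀ t ∈ Ioo 0 len, Φ t c0 ∈ D \ B) := by
  rcases orbit_classification h hc with ⟨L, hL, hLc, hinj, hD⟩ | ⟨a, b, ha, hb, hab, haB, hbB,
    hinj, hD⟩
  · refine ⟨c, L, True, hL, ?_, fun _ => ⟨hLc, hinj, hD⟩, fun hf => absurd trivial hf⟩
    have hper : Function.Periodic (fun t => Φ t c) L := by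
      intro t
      simp only
      rw [h.add, hLc]
    apply Subset.antisymm
    · rintro _ ⟨t, rfl, _⟩
      obtain ⟨y, hy, hty⟩ := hper.exists_mem_Ico₀ hL t
      exact ⟨y, Ico_subset_Icc_self hy, hty.symm⟩
    · rintro _ ⟨t, _, rfl⟩
      exact ⟨t, rfl, fun s _ => (hD s).1⟩
  · have hIcc : ∀ s ∈ Icc a b, Φ s c ∈ D := by
      intro s hs
      rcases hs.1.lt_or_eq with h1 | h1
      · rcases hs.2.lt_or_eq with h2 | h2
        · exact (hD s ⟨h1, h2⟩).1
        · rw [h2]; exact h.sub hbB
      · rw [← h1]; exact h.sub haB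
    have hshift : ∀ t, Φ t (Φ a c) = Φ (t + a) c := fun t => (h.add t a c).symm
    refine ⟨Φ a c, b - a, False, by linarith, ?_, fun hf => hf.elim, fun _ => ⟨haB, ?_, ?_, ?_⟩⟩
    · apply Subset.antisymm
      · rintro _ ⟨t, rfl, hpath⟩
        have htb : t ≤ b := by
          by_contra h1
          rw [not_le] at h1
          obtain ⟨η, hη, hcase⟩ := h.bd _ hbB
          rcases hcase with hcase | hcase
          · set r := min (η / 2) (t - b) with hr
            have hr0 : 0 < r := lt_min (by linarith) (by linarith)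
            have hrη : r ≤ η / 2 := min_le_left _ _
            have hrt : r ≤ t - b := min_le_right _ _
            have h2 := (hcase r ⟨hr0, by linarith⟩).1
            rw [← h.add] at h2
            apply h2
            apply hpath
            rw [uIcc_of_le (by linarith)]
            constructor <;> linarith
          · set r := min (η / 2) ((b - a) / 2) with hr
            have hr0 : 0 < r := lt_min (by linarith) (by linarith)
            have hrη : r ≤ η / 2 := min_le_left _ _
            have hrt : r ≤ (b - a) / 2 := min_le_right _ _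
            have h2 := (hcase r ⟨hr0, by linarith⟩).2
            rw [← h.add] at h2
            apply h2
            apply hIcc
            constructor <;> linarith
        have hta : a ≤ t := by
          by_contra h1
          rw [not_le] at h1
          obtain ⟨η, hη, hcase⟩ := h.bd _ haB
          rcases hcase with hcase | hcase
          · set r := min (η / 2) ((b - a) / 2) with hr
            have hr0 : 0 < r := lt_min (by linarith) (by linarith)
            have hrη : r ≤ η / 2 := min_le_left _ _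
            have hrt : r ≤ (b - a) / 2 := min_le_right _ _
            have h2 := (hcase r ⟨hr0, by linarith⟩).1
            rw [← h.add] at h2
            apply h2
            apply hIcc
            constructor <;> linarith
          · set r := min (η / 2) (a - t) with hr
            have hr0 : 0 < r := lt_min (by linarith) (by linarith)
            have hrη : r ≤ η / 2 := min_le_left _ _
            have hrt : r ≤ a - t := min_le_right _ _
            have h2 := (hcase r ⟨hr0, by linarith⟩).2
            rw [← h.add] at h2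
            apply h2
            apply hpath
            rw [uIcc_of_ge (by linarith)]
            constructor <;> linarith
        refine ⟨t - a, ⟨by linarith, by linarith⟩, ?_⟩
        simp only
        rw [hshift, sub_add_cancel]
      · rintro _ ⟨t, ht, rfl⟩
        simp only
        rw [hshift]
        refine ⟨t + a, rfl, ?_⟩
        intro s hs
        apply hIcc
        rw [mem_uIcc] at hs
        rcases hs with ⟨h1, h2⟩ | ⟨h1, h2⟩
        · constructor <;> linarith [ht.1, ht.2]
        · constructor <;> linarith [ht.1, ht.2]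
    · rw [hshift, sub_add_cancel]; exact hbB
    · intro s hs t ht hst
      simp only at hst
      rw [hshift, hshift] at hst
      have h1 := hinj (x₁ := s + a) (x₂ := t + a)
        ⟨by linarith [hs.1], by linarith [hs.2]⟩ ⟨by linarith [ht.1], by linarith [ht.2]⟩ hst
      linarith
    · intro t ht
      rw [hshift]
      exact hD _ ⟨by linarith [ht.1], by linarith [ht.2]⟩

end Reach

theorem exists_orbit_family {E : Type} [MetricSpace E] {D B : Set E} {Φ : ℝ → E → E}
    (h : OneDim D B Φ) :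
    ∃ (ι : Type) (_ : Finite ι) (c : ι → E) (len : ι → ℝ) (closed : ι → Prop),
      (∀ i, 0 < len i) ∧ (D = ⋃ i, (fun t => Φ t (c i)) '' Icc 0 (len i)) ∧
      (∀ i, closed i → Φ (len i) (c i) = c i ∧ InjOn (fun t => Φ t (c i)) (Ico 0 (len i)) ∧
        ∀ t, Φ t (c i) ∈ D \ B) ∧
      (∀ i, ¬ closed i → c i ∈ B ∧ Φ (len i) (c i) ∈ B ∧
        InjOn (fun t => Φ t (c i)) (Icc 0 (len i)) ∧ ∀ t ∈ Ioo 0 (len i), Φ t (c i) ∈ D \ B) ∧
      ∀ i j, i ≠ j → Disjoint ((fun t => Φ t (c i)) '' Icc 0 (len i))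
        ((fun t => Φ t (c j)) '' Icc 0 (len j)) := by
  have hclass : ∀ S : {S : Set E // ∃ c ∈ D, S = Reach D Φ c},
      ∃ (c0 : E) (len : ℝ) (closed : Prop), 0 < len ∧
      (S.1 = (fun t => Φ t c0) '' Icc 0 len) ∧
      (closed → Φ len c0 = c0 ∧ InjOn (fun t => Φ t c0) (Ico 0 len) ∧ ∀ t, Φ t c0 ∈ D \ B) ∧
      (¬ closed → c0 ∈ B ∧ Φ len c0 ∈ B ∧ InjOn (fun t => Φ t c0) (Icc 0 len) ∧
        ∀ t ∈ Ioo 0 len, Φ t c0 ∈ D \ B) := by
    rintro ⟨S, c, hc, rfl⟩
    exact h.reach_param hc
  choose c len closed hlen himg hcl har using hclass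
  refine ⟨{S : Set E // ∃ c ∈ D, S = Reach D Φ c}, h.finite_reach.to_subtype, c, len, closed,
    hlen, ?_, hcl, har, ?_⟩
  · apply Subset.antisymm
    · intro x hx
      refine mem_iUnion.mpr ⟨⟨Reach D Φ x, x, hx, rfl⟩, ?_⟩
      rw [← himg]
      exact h.mem_reach hx
    · intro x hx
      obtain ⟨⟨S, c', hc', hS⟩, hxS⟩ := mem_iUnion.mp hx
      rw [← himg] at hxS
      simp only at hxS
      rw [hS] at hxS
      exact Reach.subset hxS
  · intro i j hij
    rw [← himg, ← himg, Set.disjoint_left]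
    intro x hxi hxj
    apply hij
    obtain ⟨S, c1, hc1, hS⟩ := i
    obtain ⟨T, c2, hc2, hT⟩ := j
    simp only at hxi hxj
    apply Subtype.ext
    simp only
    rw [hS] at hxi
    rw [hT] at hxj
    rw [hS, hT, ← h.reach_eq hxi, ← h.reach_eq hxj]

end Pool.Agent.Lib_MP_752436_tp
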