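import Pool.Agent.Lib_MP_752436_tp.OneDim
import Pool.Agent.Lib_MP_752436_tp.Family

/-!
Piece F5: Exists.lean.
-/

open Metric Set Filter
open scoped ContDiff Topology

namespace Pool.Agent.Lib_MP_752436_tp

open Pool.Agent.Lib_MP_752436_gt

theorem exists_curves {F : Plane → EuclideanSpace ℝ (Fin 4)} (hF : IsSliceDisc F)
    (hg : GeneralPosition F) :
    ∃ (ι : Type) (_ : Finite ι) (G : Curves ι), IsCurves G (DoubleSet F) := by
  obtain ⟨v, Φ, h⟩ := exists_cutFlow (od_contDiff_shadow hF)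
  obtain ⟨ι, hι, c, len, closed, hlen, hcov, hcl, harc, hdisj⟩ :=
    exists_orbit_family (oneDim_doubleSet hF hg h)
  have hend : ∀ i, ¬ closed i → Φ 0 (c i) ∈ DoubleSet F ∩ {p | p.2 ∈ sphere (0 : Plane) 1} ∧
      Φ (len i) (c i) ∈ DoubleSet F ∩ {p | p.2 ∈ sphere (0 : Plane) 1} := fun i hi => by
    rw [h.flow.zero]
    exact ⟨(harc i hi).1, (harc i hi).2.1⟩
  have hmem : ∀ i t, (closed i ∨ t ∈ Icc 0 (len i)) → Φ t (c i) ∈ DoubleSet F := by
    intro i t ht
    by_cases hi : closed i
    · exact ((hcl i hi).2.2 t).1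
    · have ht' : t ∈ Icc 0 (len i) := ht.resolve_left hi
      rcases ht'.1.eq_or_lt with h0 | h0
      · rw [← h0]; exact (hend i hi).1.1
      · rcases ht'.2.eq_or_lt with h1 | h1
        · rw [h1]; exact (hend i hi).2.1
        · exact ((harc i hi).2.2.2 t ⟨h0, h1⟩).1
  have hball : ∀ p : Plane × Plane,
      p ∈ DoubleSet F \ (DoubleSet F ∩ {p | p.2 ∈ sphere (0 : Plane) 1}) →
      p.2 ∈ ball (0 : Plane) 1 := by
    intro p hp
    rcases (mem_closedBall.mp hp.1.2.1).lt_or_eq with h1 | h1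
    · exact mem_ball.mpr h1
    · exact absurd ⟨hp.1, mem_sphere.mpr h1⟩ hp.2
  have hvc : Continuous v := h.smooth.continuous
  have hv : ∀ i t, (closed i ∨ t ∈ Icc 0 (len i)) →
      (v (Φ t (c i))).1 ≠ 0 ∧ (v (Φ t (c i))).2 ≠ 0 := by
    intro i t ht
    rw [od_field_eq h (hmem i t ht)]
    exact od_kernel hg (hmem i t ht)
  refine ⟨ι, hι, ⟨fun i t => Φ t (c i), len, closed⟩, ?_⟩
  exact {
    pos := hlen
    smooth := fun i => by
      have hd : ∀ t, HasDerivAt (fun t => Φ t (c i)) (v (Φ t (c i))) t := h.flow.deriv (c i)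
      change ContDiff ℝ 1 (fun t => Φ t (c i))
      rw [contDiff_one_iff_deriv]
      refine ⟨fun t => (hd t).differentiableAt, ?_⟩
      have : deriv (fun t => Φ t (c i)) = fun t => v (Φ t (c i)) := funext fun t => (hd t).deriv
      rw [this]
      exact hvc.comp (od_continuous_flow h (c i))
    immFst := fun i t ht => by
      have hd : HasDerivAt (fun t => (Φ t (c i)).1) (v (Φ t (c i))).1 t :=
        (h.flow.deriv (c i) t).fst
      change deriv (fun t => (Φ t (c i)).1) t ≠ 0
      rw [hd.deriv]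
      exact (hv i t ht).1
    immSnd := fun i t ht => by
      have hd : HasDerivAt (fun t => (Φ t (c i)).2) (v (Φ t (c i))).2 t :=
        (h.flow.deriv (c i) t).snd
      change deriv (fun t => (Φ t (c i)).2) t ≠ 0
      rw [hd.deriv]
      exact (hv i t ht).2
    cover := hcov
    disj := fun i j hij => hdisj i j hij
    periodic := fun i hi t => by
      change Φ (t + len i) (c i) = Φ t (c i)
      rw [h.flow.add, (hcl i hi).1]
    injClosed := fun i hi => (hcl i hi).2.1
    injArc := fun i hi => (harc i hi).2.2.1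
    fstMem := fun i t ht => od_fst_mem_ball hF (hmem i t ht)
    sndMem := fun i t ht => (hmem i t ht).2.1
    sndClosed := fun i hi t => hball _ ((hcl i hi).2.2 t)
    sndArc := fun i hi t ht => hball _ ((harc i hi).2.2.2 t ht)
    ends := fun i hi => ⟨(hend i hi).1.2, (hend i hi).2.2⟩ }

end Pool.Agent.Lib_MP_752436_tp
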