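import Pool.Agent.Lib_MP_752436_tp.CutFlow

/-!
Piece F3: FlowBox.lean.
-/

open Metric Set Filter
open scoped ContDiff Topology

namespace Pool.Agent.Lib_MP_752436_tp

open Pool.Agent.Lib_MP_752436_gt

/-- A map with an injective strict derivative at `c` is injective near `c`. -/
theorem eventually_injOn_of_strict {E F : Type*} [NormedAddCommGroup E] [NormedSpace ℝ E]
    [FiniteDimensional ℝ E] [NormedAddCommGroup F] [NormedSpace ℝ F] {G : E → F}
    {G' : E →L[ℝ] F} {c : E} (hG : HasStrictFDerivAt G G' c) (hinj : Function.Injective G') :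
    ∃ N ∈ 𝓝 c, InjOn G N := by
  obtain ⟨K, hK, hanti⟩ := G'.toLinearMap.exists_antilipschitzWith (LinearMap.ker_eq_bot.2 hinj)
  have hK' : (0 : ℝ) < K := by exact_mod_cast hK
  have hb := hG.isLittleO.def (c := 1 / (2 * (K : ℝ))) (by positivity)
  obtain ⟨N, M, hN1, hM1, hM2, hM3, hNM⟩ := mem_nhds_prod_iff'.1 hb
  refine ⟨N ∩ M, inter_mem (hN1.mem_nhds hM1) (hM2.mem_nhds hM3), ?_⟩
  intro x hx y hy hxy
  have h1 : ‖G x - G y - G' (x - y)‖ ≤ 1 / (2 * (K : ℝ)) * ‖x - y‖ :=
    hNM (Set.mk_mem_prod hx.1 hy.2)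
  have h2 : dist x y ≤ K * dist (G' x) (G' y) := hanti.le_mul_dist x y
  rw [dist_eq_norm, dist_eq_norm, ← map_sub] at h2
  rw [hxy, sub_self, zero_sub, norm_neg] at h1
  have h3 : ‖x - y‖ ≤ K * (1 / (2 * (K : ℝ)) * ‖x - y‖) := h2.trans (by gcongr)
  have h4 : K * (1 / (2 * (K : ℝ)) * ‖x - y‖) = ‖x - y‖ / 2 := by field_simp
  rw [h4] at h3
  have h5 : ‖x - y‖ = 0 := by
    have := norm_nonneg (x - y)
    linarith
  exact sub_eq_zero.1 (norm_eq_zero.1 h5)

theorem flowBox {f : Plane → Space} (hf : ContDiff ℝ ∞ f) {v : Plane × Plane → Plane × Plane}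
    {Φ : ℝ → Plane × Plane → Plane × Plane} (h : CutFlow f v Φ) {c : Plane × Plane}
    (hc1 : c.1 ∈ closedBall (0 : Plane) 1) (hc2 : c.2 ∈ closedBall (0 : Plane) 1)
    (hfc : f c.1 = f c.2)
    (h1 : Function.Injective (fderiv ℝ f c.1)) (h2 : Function.Injective (fderiv ℝ f c.2))
    (ht : ∀ v, ∃ u w, fderiv ℝ f c.1 u + fderiv ℝ f c.2 w = v) {η : ℝ} (hη : 0 < η) :
    ∃ O ∈ 𝓝 c, ∀ p ∈ O, f p.1 = f p.2 → ∃ t, |t| < η ∧ Φ t c = p := by
  have hv : v c = field f c := h.agree c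
    (closedBall_subset_ball (by norm_num) hc1) (closedBall_subset_ball (by norm_num) hc2)
  obtain ⟨hf1, hf2, hker⟩ := field_kernel h1 h2 ht
  have hne : v c ≠ 0 := by
    rw [hv]
    intro h0
    exact hf1 (by rw [h0]; rfl)
  obtain ⟨l, -, hl⟩ := exists_dual_vector ℝ (v c) (norm_ne_zero_iff.2 hne)
  have hlpos : 0 < l (v c) := by
    rw [hl]
    simpa using hne
  -- the map G
  have hs1 : HasStrictFDerivAt (fun p : Plane × Plane => f p.1)
      ((fderiv ℝ f c.1).comp (ContinuousLinearMap.fst ℝ Plane Plane)) c :=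
    ((hf.contDiffAt (x := c.1)).hasStrictFDerivAt (by simp)).comp c hasStrictFDerivAt_fst
  have hs2 : HasStrictFDerivAt (fun p : Plane × Plane => f p.2)
      ((fderiv ℝ f c.2).comp (ContinuousLinearMap.snd ℝ Plane Plane)) c :=
    ((hf.contDiffAt (x := c.2)).hasStrictFDerivAt (by simp)).comp c hasStrictFDerivAt_snd
  have hG : HasStrictFDerivAt (fun p : Plane × Plane => (f p.1 - f p.2, l p))
      (((fderiv ℝ f c.1).comp (ContinuousLinearMap.fst ℝ Plane Plane) -
        (fderiv ℝ f c.2).comp (ContinuousLinearMap.snd ℝ Plane Plane)).prod l) c :=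
    (hs1.sub hs2).prodMk l.hasStrictFDerivAt
  have hinj : Function.Injective (((fderiv ℝ f c.1).comp (ContinuousLinearMap.fst ℝ Plane Plane) -
        (fderiv ℝ f c.2).comp (ContinuousLinearMap.snd ℝ Plane Plane)).prod l) := by
    rw [injective_iff_map_eq_zero]
    rintro ⟨u, w⟩ huw
    have h3 := congrArg Prod.fst huw
    have h4 := congrArg Prod.snd huw
    simp only [ContinuousLinearMap.prod_apply, sub_apply,
      ContinuousLinearMap.comp_apply, ContinuousLinearMap.coe_fst', ContinuousLinearMap.coe_snd',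
      Prod.fst_zero, Prod.snd_zero] at h3 h4
    obtain ⟨s, hs⟩ := hker u w (sub_eq_zero.1 h3)
    rw [hs, ← hv, map_smul, smul_eq_mul] at h4
    have h5 : s = 0 := by
      rcases mul_eq_zero.1 h4 with h5 | h5
      · exact h5
      · exact absurd h5 hlpos.ne'
    rw [hs, h5, zero_smul]
  obtain ⟨N, hN, hNinj⟩ := eventually_injOn_of_strict hG hinj
  -- the flow line
  have hcont : Continuous fun t => Φ t c := by
    rw [continuous_iff_continuousAt]
    exact fun t => (h.flow.deriv c t).continuousAt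
  have hg : HasDerivAt (fun t => l (Φ t c)) (l (v c)) 0 := by
    have h3 := h.flow.deriv c 0
    rw [h.flow.zero] at h3
    exact l.hasFDerivAt.comp_hasDerivAt 0 h3
  have hslope := hasDerivAt_iff_tendsto_slope.1 hg
  have hpos : ∀ᶠ t in 𝓝[≠] (0 : ℝ), 0 < slope (fun t => l (Φ t c)) 0 t :=
    hslope.eventually (lt_mem_nhds hlpos)
  rw [eventually_nhdsWithin_iff] at hpos
  have hΦN : ∀ᶠ t in 𝓝 (0 : ℝ), Φ t c ∈ N := by
    have : Tendsto (fun t => Φ t c) (𝓝 0) (𝓝 c) := by
      have h3 := hcont.tendsto 0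
      rwa [h.flow.zero] at h3
    exact this.eventually hN
  obtain ⟨ε, hε, hball⟩ := Metric.eventually_nhds_iff.1 (hpos.and hΦN)
  set δ : ℝ := min (ε / 2) (η / 2) with hδ
  have hδ0 : 0 < δ := lt_min (by linarith) (by linarith)
  have hδε : δ < ε := (min_le_left _ _).trans_lt (by linarith)
  have hδη : δ < η := (min_le_right _ _).trans_lt (by linarith)
  have hup : l c < l (Φ δ c) := by
    have h3 := (hball (y := δ) (by simpa [abs_of_pos hδ0] using hδε)).1 hδ0.ne'
    rw [slope_def_field, h.flow.zero, sub_zero] at h3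
    have h4 := (div_pos_iff_of_pos_right hδ0).1 h3
    linarith
  have hdown : l (Φ (-δ) c) < l c := by
    have h3 := (hball (y := -δ) (by simpa [abs_of_pos hδ0] using hδε)).1 (by
      simpa using hδ0.ne')
    rw [slope_def_field, h.flow.zero, sub_zero] at h3
    have h4 : 0 < l c - l (Φ (-δ) c) := by
      have h5 : (l (Φ (-δ) c) - l c) / -δ = (l c - l (Φ (-δ) c)) / δ := by
        rw [div_neg, ← neg_div, neg_sub]
      rw [h5] at h3
      exact (div_pos_iff_of_pos_right hδ0).1 h3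
    linarith
  refine ⟨N ∩ l ⁻¹' Ioo (l (Φ (-δ) c)) (l (Φ δ c)), inter_mem hN
    ((isOpen_Ioo.preimage l.continuous).mem_nhds ⟨hdown, hup⟩), ?_⟩
  rintro p ⟨hpN, hpl⟩ hfp
  have hivt := intermediate_value_Icc (a := -δ) (b := δ) (by linarith)
    ((l.continuous.comp hcont).continuousOn (s := Icc (-δ) δ))
  obtain ⟨t, htm, hteq⟩ := hivt ⟨hpl.1.le, hpl.2.le⟩
  have htabs : |t| ≤ δ := abs_le.2 htm
  refine ⟨t, htabs.trans_lt hδη, ?_⟩
  have htN : Φ t c ∈ N := (hball (y := t) (by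
    rw [Real.dist_eq, sub_zero]
    exact htabs.trans_lt hδε)).2
  refine hNinj htN hpN ?_
  have h3 := h.const hf c t
  rw [hfc, sub_self] at h3
  refine Prod.ext ?_ ?_
  · change f (Φ t c).1 - f (Φ t c).2 = f p.1 - f p.2
    rw [h3, hfp, sub_self]
  · exact hteq

end Pool.Agent.Lib_MP_752436_tp
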