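import Pool.Agent.Lib_MP_752436_tp.Defs2

/-!
Piece F2: Flow.lean.
-/

open Metric Set Filter
open scoped ContDiff Topology NNReal

namespace Pool.Agent.Lib_MP_752436_tp

open Pool.Agent.Lib_MP_752436_gt

section GlobalFlow

variable {E : Type} [NormedAddCommGroup E] [NormedSpace ℝ E] [FiniteDimensional ℝ E]

/-- A bounded Lipschitz field has a solution on every bounded open interval around `0`. -/
theorem exists_sol_Ioo {v : E → E} {L B : ℝ≥0} (hL : LipschitzWith L v)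
    (hB : ∀ x, ‖v x‖ ≤ B) (p : E) (n : ℕ) :
    ∃ y : ℝ → E, y 0 = p ∧
      ∀ t ∈ Ioo (-((n : ℝ) + 1)) ((n : ℝ) + 1), HasDerivAt y (v (y t)) t := by
  have hn : (0 : ℝ) ≤ (n : ℝ) + 1 := by positivity
  have h : IsPicardLindelof (fun _ => v)
      (⟨0, by linarith, hn⟩ : Icc (-((n : ℝ) + 1)) ((n : ℝ) + 1)) p
      (B * ⟨(n : ℝ) + 1, hn⟩) 0 B L := by
    refine ⟨fun t _ => hL.lipschitzOnWith, fun x _ => continuousOn_const,
      fun t _ x _ => hB x, ?_⟩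
    simp only [sub_zero, NNReal.coe_mul, NNReal.coe_zero, zero_sub, neg_neg, max_self]
    exact le_rfl
  obtain ⟨y, hy0, hy⟩ := h.exists_eq_forall_mem_Icc_hasDerivWithinAt₀
  refine ⟨y, hy0, fun t ht => ?_⟩
  exact (hy t (Ioo_subset_Icc_self ht)).hasDerivAt (Icc_mem_nhds ht.1 ht.2)

/-- A bounded Lipschitz field has a global solution through every point. -/
theorem exists_sol_global {v : E → E} {L B : ℝ≥0} (hL : LipschitzWith L v)
    (hB : ∀ x, ‖v x‖ ≤ B) (p : E) :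
    ∃ y : ℝ → E, y 0 = p ∧ ∀ t, HasDerivAt y (v (y t)) t := by
  choose α hα0 hα using fun n : ℕ => exists_sol_Ioo hL hB p n
  have huniq : ∀ n m : ℕ, n ≤ m → EqOn (α n) (α m) (Ioo (-((n : ℝ) + 1)) ((n : ℝ) + 1)) := by
    intro n m hnm
    have hnm' : (n : ℝ) ≤ m := by exact_mod_cast hnm
    have hn : (0 : ℝ) < (n : ℝ) + 1 := by positivity
    refine ODE_solution_unique_of_mem_Ioo (v := fun _ => v) (s := fun _ => univ) (K := L)
      (t₀ := 0) (fun t _ => hL.lipschitzOnWith) ⟨by linarith, hn⟩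
      (fun t ht => ⟨hα n t ht, mem_univ _⟩) (fun t ht => ⟨hα m t ?_, mem_univ _⟩) ?_
    · exact ⟨by linarith [ht.1], by linarith [ht.2]⟩
    · rw [hα0, hα0]
  have hmem : ∀ s : ℝ, s ∈ Ioo (-((⌈|s|⌉₊ : ℝ) + 1)) ((⌈|s|⌉₊ : ℝ) + 1) := by
    intro s
    have h1 : |s| ≤ (⌈|s|⌉₊ : ℝ) := Nat.le_ceil _
    exact ⟨by linarith [neg_abs_le s], by linarith [le_abs_self s]⟩
  refine ⟨fun t => α ⌈|t|⌉₊ t, by simp [hα0], fun t => ?_⟩
  have hM : ∀ s, |s - t| < 1 → α ⌈|s|⌉₊ s = α (⌈|t|⌉₊ + 1) s := by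
    intro s hs
    refine huniq _ _ ?_ (hmem s)
    rw [Nat.ceil_le]
    have h1 : |t| ≤ (⌈|t|⌉₊ : ℝ) := Nat.le_ceil _
    have h2 : |s| ≤ |s - t| + |t| := by
      have := abs_add_le (s - t) t
      simpa using this
    push_cast
    linarith
  have hev : (fun t => α ⌈|t|⌉₊ t) =ᶠ[𝓝 t] α (⌈|t|⌉₊ + 1) := by
    filter_upwards [Metric.ball_mem_nhds t one_pos] with s hs
    exact hM s (by simpa [Real.dist_eq] using hs)
  have ht : t ∈ Ioo (-(((⌈|t|⌉₊ + 1 : ℕ) : ℝ) + 1)) (((⌈|t|⌉₊ + 1 : ℕ) : ℝ) + 1) := by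
    have h1 := hmem t
    push_cast
    exact ⟨by linarith [h1.1], by linarith [h1.2]⟩
  have hd := hα (⌈|t|⌉₊ + 1) t ht
  have h0 : α ⌈|t|⌉₊ t = α (⌈|t|⌉₊ + 1) t := hM t (by simp)
  have h3 := hd.congr_of_eventuallyEq hev
  rw [← h0] at h3
  exact h3

end GlobalFlow

theorem exists_isFlow {E : Type} [NormedAddCommGroup E] [NormedSpace ℝ E]
    [FiniteDimensional ℝ E] {v : E → E} (hv : ContDiff ℝ 1 v) (hc : HasCompactSupport v) :
    ∃ Φ, IsFlow v Φ := by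
  obtain ⟨L, hL⟩ := hv.lipschitzWith_of_hasCompactSupport hc (by norm_num)
  obtain ⟨B, hB⟩ := hc.exists_bound_of_continuous hv.continuous
  have hB' : ∀ x, ‖v x‖ ≤ ((⟨max B 0, le_max_right _ _⟩ : ℝ≥0) : ℝ) :=
    fun x => (hB x).trans (le_max_left _ _)
  choose Φ hΦ0 hΦ using fun x : E => exists_sol_global hL hB' x
  refine ⟨fun t x => Φ x t, ⟨hΦ0, fun x t => hΦ x t, fun s t x => ?_⟩⟩
  have h1 : (fun s => Φ x (s + t)) = Φ (Φ x t) := by
    refine ODE_solution_unique_univ (v := fun _ => v) (s := fun _ => univ) (K := L) (t₀ := 0)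
      (fun _ => hL.lipschitzOnWith) (fun s => ⟨?_, mem_univ _⟩)
      (fun s => ⟨hΦ (Φ x t) s, mem_univ _⟩) ?_
    · exact (hΦ x (s + t)).comp_add_const s t
    · simp [hΦ0]
  exact congrFun h1 s

end Pool.Agent.Lib_MP_752436_tp
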