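import Pool.Agent.Lib_MP_752436_tp.Field
import Pool.Agent.Lib_MP_752436_tp.Flow

/-!
Piece F2b: CutFlow.lean.
-/

open Metric Set Filter
open scoped ContDiff Topology

namespace Pool.Agent.Lib_MP_752436_tp

open Pool.Agent.Lib_MP_752436_gt

theorem exists_cutFlow {f : Plane → Space} (hf : ContDiff ℝ ∞ f) : ∃ v Φ, CutFlow f v Φ := by
  let χ : ContDiffBump (0 : Plane × Plane) := ⟨2, 3, by norm_num, by norm_num⟩
  have hχ : ContDiff ℝ 1 (χ : Plane × Plane → ℝ) := χ.contDiff
  have hv : ContDiff ℝ 1 (fun p => χ p • field f p) := hχ.smul (contDiff_field hf)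
  have hc : HasCompactSupport (fun p => χ p • field f p) := χ.hasCompactSupport.smul_right
  obtain ⟨Φ, hΦ⟩ := exists_isFlow hv hc
  refine ⟨fun p => χ p • field f p, Φ, hv, ?_, ?_, hΦ⟩
  · intro p
    show fderiv ℝ f p.1 (χ p • (field f p).1) = fderiv ℝ f p.2 (χ p • (field f p).2)
    rw [map_smul, map_smul, field_parallel]
  · intro p h1 h2
    have h3 : χ p = 1 := by
      apply χ.one_of_mem_closedBall
      rw [mem_closedBall_zero_iff, Prod.norm_def]
      rw [mem_ball_zero_iff] at h1 h2
      exact max_le h1.le h2.le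
    show χ p • field f p = field f p
    rw [h3, one_smul]

theorem CutFlow.const {f : Plane → Space} (hf : ContDiff ℝ ∞ f) {v : Plane × Plane → Plane × Plane}
    {Φ : ℝ → Plane × Plane → Plane × Plane} (h : CutFlow f v Φ) (p : Plane × Plane) (t : ℝ) :
    f (Φ t p).1 - f (Φ t p).2 = f p.1 - f p.2 := by
  have hd : Differentiable ℝ f := hf.differentiable (by simp)
  have hderiv : ∀ s : ℝ, HasDerivAt (fun s => f (Φ s p).1 - f (Φ s p).2) 0 s := by
    intro s
    have h1 := h.flow.deriv p s
    have h2 : HasDerivAt (fun s => (Φ s p).1) (v (Φ s p)).1 s := h1.fst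
    have h3 : HasDerivAt (fun s => (Φ s p).2) (v (Φ s p)).2 s := h1.snd
    have h4 := (hd (Φ s p).1).hasFDerivAt.comp_hasDerivAt s h2
    have h5 := (hd (Φ s p).2).hasFDerivAt.comp_hasDerivAt s h3
    have h6 := h4.sub h5
    rw [h.parallel, sub_self] at h6
    exact h6
  have h7 := is_const_of_deriv_eq_zero (fun s => (hderiv s).differentiableAt)
    (fun s => (hderiv s).deriv) t 0
  simp only [h.flow.zero] at h7
  exact h7

end Pool.Agent.Lib_MP_752436_tp
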