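import Pool.Agent.Lib_MP_752436_tp.Defs2

/-!
Piece S: Side.lean.
-/

open Metric Set Filter
open scoped ContDiff Topology

namespace Pool.Agent.Lib_MP_752436_tp

open Pool.Agent.Lib_MP_752436_gt

theorem subset_or_disjoint_of_frontier {S V : Set Plane} (hS : IsPreconnected S) (hV : IsOpen V)
    (hd : Disjoint S (frontier V)) : S ⊆ V ∨ Disjoint S V := by
  by_cases h : Disjoint S V
  · exact Or.inr h
  · left
    rw [Set.not_disjoint_iff] at h
    obtain ⟨x, hxS, hxV⟩ := h
    intro y hyS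
    by_contra hyV
    have hy : y ∈ (closure V)ᶜ := by
      intro hc
      exact (Set.disjoint_left.1 hd hyS) ⟨hc, fun hi => hyV (interior_subset hi)⟩
    obtain ⟨z, -, hz1, hz2⟩ := hS V (closure V)ᶜ hV isClosed_closure.isOpen_compl
      (fun z hz => by
        by_cases hzV : z ∈ V
        · exact Or.inl hzV
        · refine Or.inr fun hc => (Set.disjoint_left.1 hd hz) ⟨hc, fun hi => hzV (interior_subset hi)⟩)
      ⟨x, hxS, hxV⟩ ⟨y, hyS, hy⟩
    exact hz2 (subset_closure hz1)

theorem side_meets {N P M A U : Set Plane} (hb : SideBox N P M A) (hU : IsOpen U)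
    {p : Plane} (hpN : p ∈ N) (hpU : p ∈ closure U) : (P ∩ U).Nonempty ∨ (M ∩ U).Nonempty := by
  obtain ⟨x, hxN, hxU⟩ := mem_closure_iff.1 hpU N hb.openN hpN
  rw [hb.union] at hxN
  rcases hxN with (h | h) | h
  · exact Or.inl ⟨x, h, hxU⟩
  · exact Or.inr ⟨x, h, hxU⟩
  · obtain ⟨y, hyU, hyP⟩ := mem_closure_iff.1 (hb.closP h) U hU hxU
    exact Or.inl ⟨y, hyP, hyU⟩

theorem side_argument {N P M A V W : Set Plane} (hb : SideBox N P M A) (hV : IsOpen V)
    (hW : IsOpen W) (hVW : Disjoint V W) {p : Plane} (hpN : p ∈ N) (hpV : p ∈ closure V)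
    (hpW : p ∈ closure W) (hfr : frontier V ∩ N ⊆ A) :
    A ⊆ frontier V ∧ ((P ⊆ V ∧ Disjoint M V) ∨ (M ⊆ V ∧ Disjoint P V)) := by
  have hPN : P ⊆ N := by rw [hb.union]; exact fun x hx => Or.inl (Or.inl hx)
  have hMN : M ⊆ N := by rw [hb.union]; exact fun x hx => Or.inl (Or.inr hx)
  have hdP : Disjoint P (frontier V) := Set.disjoint_left.2 fun x hx hx' =>
    (Set.disjoint_left.1 hb.disjPA hx) (hfr ⟨hx', hPN hx⟩)
  have hdM : Disjoint M (frontier V) := Set.disjoint_left.2 fun x hx hx' =>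
    (Set.disjoint_left.1 hb.disjMA hx) (hfr ⟨hx', hMN hx⟩)
  have hP := subset_or_disjoint_of_frontier hb.connP hV hdP
  have hM := subset_or_disjoint_of_frontier hb.connM hV hdM
  have hVm := side_meets hb hV hpN hpV
  have hWm := side_meets hb hW hpN hpW
  have key : (P ⊆ V ∧ Disjoint M V) ∨ (M ⊆ V ∧ Disjoint P V) := by
    rcases hWm with ⟨x, hx1, hx2⟩ | ⟨x, hx1, hx2⟩
    · -- `W` meets `P`, so `P` is disjoint from `V`
      have hPd : Disjoint P V := by
        rcases hP with h | h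
        · exact absurd hx2 (Set.disjoint_left.1 hVW (h hx1))
        · exact h
      right
      refine ⟨?_, hPd⟩
      rcases hM with h | h
      · exact h
      · rcases hVm with ⟨y, hy1, hy2⟩ | ⟨y, hy1, hy2⟩
        · exact absurd hy2 (Set.disjoint_left.1 hPd hy1)
        · exact absurd hy2 (Set.disjoint_left.1 h hy1)
    · have hMd : Disjoint M V := by
        rcases hM with h | h
        · exact absurd hx2 (Set.disjoint_left.1 hVW (h hx1))
        · exact h
      left
      refine ⟨?_, hMd⟩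
      rcases hP with h | h
      · exact h
      · rcases hVm with ⟨y, hy1, hy2⟩ | ⟨y, hy1, hy2⟩
        · exact absurd hy2 (Set.disjoint_left.1 h hy1)
        · exact absurd hy2 (Set.disjoint_left.1 hMd hy1)
  refine ⟨?_, key⟩
  intro a ha
  have hint : interior V = V := hV.interior_eq
  rcases key with ⟨hPV, hMd⟩ | ⟨hMV, hPd⟩
  · refine ⟨closure_mono hPV (hb.closP ha), ?_⟩
    rw [hint]
    intro haV
    obtain ⟨y, hyV, hyM⟩ := mem_closure_iff.1 (hb.closM ha) V hV haV
    exact (Set.disjoint_left.1 hMd hyM) hyV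
  · refine ⟨closure_mono hMV (hb.closM ha), ?_⟩
    rw [hint]
    intro haV
    obtain ⟨y, hyV, hyP⟩ := mem_closure_iff.1 (hb.closP ha) V hV haV
    exact (Set.disjoint_left.1 hPd hyP) hyV

end Pool.Agent.Lib_MP_752436_tp
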