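import Pool.Agent.Lib_MP_752436_tp.Below

/-!
Piece N2: ArcAvoid.lean.
-/

open Metric Set Filter
open scoped ContDiff Topology

namespace Pool.Agent.Lib_MP_752436_tp

open Pool.Agent.Lib_MP_752436_gt

variable {ι : Type} {G : Curves ι} {D : Set (Plane × Plane)}

/-- A path which starts in the interior of `Z` and leaves it passes the frontier. -/
theorem exists_exit {Z : Set Plane} {γ : ℝ → Plane} (hγ : Continuous γ)
    {a b : ℝ} (hab : a ≤ b) (ha : γ a ∈ interior Z) (hb : γ b ∉ interior Z) :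
    ∃ s ∈ Ioc a b, γ s ∈ frontier Z := by
  set T : Set ℝ := Icc a b ∩ {s | γ s ∉ interior Z} with hT
  have hTc : IsCompact T :=
    isCompact_Icc.inter_right (isOpen_interior.isClosed_compl.preimage hγ)
  have hTne : T.Nonempty := ⟨b, ⟨hab, le_rfl⟩, hb⟩
  obtain ⟨s, hs, hmin⟩ := hTc.exists_isLeast hTne
  have has : a < s := by
    rcases lt_or_eq_of_le hs.1.1 with h | h
    · exact h
    · exact absurd (h ▸ ha) hs.2
  refine ⟨s, ⟨has, hs.1.2⟩, ?_, hs.2⟩
  have h1 : ∀ r ∈ Ioo a s, γ r ∈ interior Z := by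
    intro r hr
    by_contra hcon
    have := hmin ⟨⟨hr.1.le, hr.2.le.trans hs.1.2⟩, hcon⟩
    linarith [hr.2]
  have h2 : s ∈ closure (Ioo a s) := by
    rw [closure_Ioo has.ne]
    exact ⟨has.le, le_rfl⟩
  have h3 : γ s ∈ closure (γ '' Ioo a s) := image_closure_subset_closure_image hγ ⟨s, h2, rfl⟩
  refine closure_mono ?_ h3
  rintro _ ⟨r, hr, rfl⟩
  exact interior_subset (h1 r hr)

/-- The same for the reversed path. -/
theorem exists_exit' {Z : Set Plane} {γ : ℝ → Plane} (hγ : Continuous γ)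
    {a b : ℝ} (hab : a ≤ b) (ha : γ a ∉ interior Z) (hb : γ b ∈ interior Z) :
    ∃ s ∈ Ico a b, γ s ∈ frontier Z := by
  obtain ⟨s, hs, hf⟩ := exists_exit (γ := fun r => γ (a + b - r)) (Z := Z) (a := a) (b := b)
    (hγ.comp (by fun_prop)) hab (by simpa using hb) (by simpa using ha)
  exact ⟨a + b - s, ⟨by linarith [hs.2], by linarith [hs.1]⟩, hf⟩

theorem snd_mem_interior (h : Good G D) {Z : Set Plane}
    (hZ : IsTrapOf (fun x y => (x, y) ∈ D) Z) (hnb : NoBottom D Z) {i : ι} {t : ℝ}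
    (ht : t ∈ G.dom i) (hin : G.snd i t ∈ interior Z) {s : ℝ} (hs : s ∈ G.dom i) :
    G.snd i s ∈ interior Z := by
  by_contra hcon
  have hc : Continuous (G.snd i) := continuous_snd.comp (h.curves.smooth i).continuous
  have key : ∀ r ∈ G.dom i, G.snd i r ∈ frontier Z → False := by
    intro r hr hf
    obtain ⟨z, hz, hab⟩ := hZ.above _ hf
    exact hnb (G.fst i r) (G.snd i r) z (h.curves.mem hr) hab hz
  rcases le_total t s with hle | hle
  · obtain ⟨r, hr, hf⟩ := exists_exit hc hle hin hcon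
    refine key r ?_ hf
    rcases ht with h1 | h1
    · exact Or.inl h1
    · rcases hs with h2 | h2
      · exact Or.inl h2
      · exact Or.inr ⟨by linarith [h1.1, hr.1], by linarith [h2.2, hr.2]⟩
  · obtain ⟨r, hr, hf⟩ := exists_exit' hc hle hcon hin
    refine key r ?_ hf
    rcases ht with h1 | h1
    · exact Or.inl h1
    · rcases hs with h2 | h2
      · exact Or.inl h2
      · exact Or.inr ⟨by linarith [h2.1, hr.1], by linarith [h1.2, hr.2]⟩

theorem closed_of_snd_mem (h : Good G D) {Z : Set Plane}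
    (hZ : IsTrapOf (fun x y => (x, y) ∈ D) Z) (hnb : NoBottom D Z) {i : ι} {t : ℝ}
    (ht : t ∈ G.dom i) (hin : G.snd i t ∈ interior Z) : G.closed i := by
  by_contra hi
  have h0 : (0 : ℝ) ∈ G.dom i := Or.inr ⟨le_rfl, (h.curves.pos i).le⟩
  have h1 := hZ.sub (interior_subset (snd_mem_interior h hZ hnb ht hin h0))
  have h2 := (h.curves.ends i hi).1
  rw [mem_ball_zero_iff] at h1
  rw [mem_sphere_zero_iff_norm] at h2
  linarith

end Pool.Agent.Lib_MP_752436_tp
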