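import Pool.Agent.Lib_MP_752436_tp.Defs2

/-!
Piece B: Box.lean.
-/

open Metric Set Filter
open scoped ContDiff Topology

namespace Pool.Agent.Lib_MP_752436_tp

open Pool.Agent.Lib_MP_752436_gt

/-- The linear coordinates with respect to two independent vectors. -/
noncomputable def frameEquiv (a b : Plane) (h : det2 a b ≠ 0) : (ℝ × ℝ) ≃L[ℝ] Plane :=
  LinearEquiv.toContinuousLinearEquiv
    { toFun := fun z => z.1 • a + z.2 • b
      invFun := fun w => (det2 w b / det2 a b, det2 a w / det2 a b)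
      map_add' := by
        intro x y
        simp only [Prod.fst_add, Prod.snd_add, add_smul]
        abel
      map_smul' := by
        intro c x
        simp only [Prod.smul_fst, Prod.smul_snd, smul_add, smul_smul, RingHom.id_apply, smul_eq_mul]
      left_inv := by
        rintro ⟨x, y⟩
        ext
        · have h' : a 0 * b 1 - a 1 * b 0 ≠ 0 := h
          simp only [det2, PiLp.add_apply, PiLp.smul_apply, smul_eq_mul]
          rw [div_eq_iff h']
          ring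
        · have h' : a 0 * b 1 - a 1 * b 0 ≠ 0 := h
          simp only [det2, PiLp.add_apply, PiLp.smul_apply, smul_eq_mul]
          rw [div_eq_iff h']
          ring
      right_inv := by
        intro w
        ext i
        simp only [PiLp.add_apply, PiLp.smul_apply, smul_eq_mul]
        rw [div_mul_eq_mul_div, div_mul_eq_mul_div, ← add_div, div_eq_iff h]
        fin_cases i
        · simp only [det2, Fin.zero_eta]
          ring
        · simp only [det2, Fin.mk_one]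
          ring }

theorem frameEquiv_apply (a b : Plane) (h : det2 a b ≠ 0) (z : ℝ × ℝ) :
    frameEquiv a b h z = z.1 • a + z.2 • b := rfl

theorem frameEquiv_symm_snd (a b : Plane) (h : det2 a b ≠ 0) :
    (frameEquiv a b h).symm b = ((0 : ℝ), (1 : ℝ)) := by
  rw [ContinuousLinearEquiv.symm_apply_eq, frameEquiv_apply]
  simp

theorem box_strict {γ : ℝ → Plane} (hγ : ContDiff ℝ 1 γ) {t0 : ℝ} {ν : Plane}
    (hν : det2 (deriv γ t0) ν ≠ 0) :
    HasStrictFDerivAt (fun z : ℝ × ℝ => γ z.1 + z.2 • ν)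
      (frameEquiv (deriv γ t0) ν hν : (ℝ × ℝ) →L[ℝ] Plane) (t0, 0) := by
  have h1 : HasStrictDerivAt γ (deriv γ t0) t0 :=
    (hγ.contDiffAt (x := t0)).hasStrictDerivAt (by norm_num)
  have h2 : HasStrictFDerivAt (fun z : ℝ × ℝ => γ z.1)
      ((ContinuousLinearMap.toSpanSingleton ℝ (deriv γ t0)).comp
        (ContinuousLinearMap.fst ℝ ℝ ℝ)) (t0, 0) := by
    exact HasStrictFDerivAt.comp (t0, (0 : ℝ)) h1.hasStrictFDerivAt hasStrictFDerivAt_fst
  have h3 : HasStrictFDerivAt (fun z : ℝ × ℝ => z.2 • ν)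
      ((ContinuousLinearMap.snd ℝ ℝ ℝ).smulRight ν) (t0, 0) :=
    (hasStrictFDerivAt_snd (𝕜 := ℝ) (p := (t0, (0 : ℝ)))).smul_const ν
  have h4 := h2.add h3
  refine h4.congr_fderiv ?_
  ext z <;> simp [frameEquiv_apply]

theorem exists_sideBox {γ : ℝ → Plane} (hγ : ContDiff ℝ 1 γ) {t0 : ℝ} {ν : Plane}
    (hν : det2 (deriv γ t0) ν ≠ 0) {η0 : ℝ} (h0 : 0 < η0) :
    ∃ η1, 0 < η1 ∧ η1 ≤ η0 ∧ ∀ O ∈ 𝓝 (γ t0), ∃ η, 0 < η ∧ η ≤ η1 ∧ ∃ N P M,
      SideBox N P M (γ '' Ioo (t0 - η) (t0 + η)) ∧ γ t0 ∈ N ∧ N ⊆ O ∧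
      N ∩ γ '' Ioo (t0 - η1) (t0 + η1) ⊆ γ '' Ioo (t0 - η) (t0 + η) ∧
      ∀ (δ : ℝ → Plane) (r0 : ℝ), HasDerivAt δ ν r0 → δ r0 = γ t0 →
        ∀ᶠ s in 𝓝[>] (0 : ℝ), δ (r0 + s) ∈ P ∧ δ (r0 - s) ∈ M := by
  set Ψ : ℝ × ℝ → Plane := fun z => γ z.1 + z.2 • ν with hΨ
  have hΨc : Continuous Ψ := by
    have := hγ.continuous
    fun_prop
  have hst := box_strict hγ hν
  set e := hst.toOpenPartialHomeomorph Ψ with he
  have hcoe : (e : ℝ × ℝ → Plane) = Ψ := hst.toOpenPartialHomeomorph_coe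
  have hsrc : ((t0, 0) : ℝ × ℝ) ∈ e.source := hst.mem_toOpenPartialHomeomorph_source
  obtain ⟨r, hr, hrs⟩ := Metric.isOpen_iff.mp e.open_source _ hsrc
  have hinj : InjOn Ψ e.source := by
    rw [← hcoe]
    exact e.injOn
  have hΨ0 : Ψ (t0, 0) = γ t0 := by simp [hΨ]
  have hΨt : ∀ t, Ψ (t, 0) = γ t := fun t => by simp [hΨ]
  refine ⟨min η0 r, lt_min h0 hr, min_le_left _ _, ?_⟩
  set η1 := min η0 r with hη1
  have hbig : ball ((t0, 0) : ℝ × ℝ) η1 ⊆ e.source :=
    (ball_subset_ball (min_le_right _ _)).trans hrs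
  intro O hO
  have hpre : Ψ ⁻¹' O ∈ 𝓝 ((t0, 0) : ℝ × ℝ) := hΨc.continuousAt.preimage_mem_nhds (by rwa [hΨ0])
  obtain ⟨η', hη', hηO⟩ := Metric.mem_nhds_iff.mp hpre
  have hη1p : 0 < η1 := lt_min h0 hr
  set η := min η' η1 with hη
  have hηp : 0 < η := lt_min hη' hη1p
  have hηη1 : η ≤ η1 := min_le_right _ _
  set Q : Set (ℝ × ℝ) := ball ((t0, 0) : ℝ × ℝ) η with hQ
  have hQs : Q ⊆ e.source := (ball_subset_ball hηη1).trans hbig
  have hQmem : ∀ t s : ℝ, (t, s) ∈ Q ↔ (t ∈ Ioo (t0 - η) (t0 + η) ∧ |s| < η) := by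
    intro t s
    rw [hQ, ← ball_prod_same, mem_prod, Real.ball_eq_Ioo, mem_ball, dist_zero_right,
      Real.norm_eq_abs]
  have himg : ∀ S : Set (ℝ × ℝ), IsOpen S → S ⊆ e.source → IsOpen (Ψ '' S) := by
    intro S hS hSs
    rw [← hcoe]
    exact e.isOpen_image_of_subset_source hS hSs
  have hpos : IsOpen {z : ℝ × ℝ | 0 < z.2} := isOpen_lt continuous_const continuous_snd
  have hneg : IsOpen {z : ℝ × ℝ | z.2 < 0} := isOpen_lt continuous_snd continuous_const
  have hposc : Convex ℝ {z : ℝ × ℝ | 0 < z.2} := by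
    have := (convex_Ioi (0 : ℝ)).linear_preimage (LinearMap.snd ℝ ℝ ℝ)
    exact this
  have hnegc : Convex ℝ {z : ℝ × ℝ | z.2 < 0} := by
    have := (convex_Iio (0 : ℝ)).linear_preimage (LinearMap.snd ℝ ℝ ℝ)
    exact this
  have hQc : Convex ℝ Q := convex_ball _ _
  have hA : γ '' Ioo (t0 - η) (t0 + η) = Ψ '' (Q ∩ {z | z.2 = 0}) := by
    ext w
    constructor
    · rintro ⟨t, ht, rfl⟩
      exact ⟨(t, 0), ⟨(hQmem t 0).mpr ⟨ht, by simpa using hηp⟩, rfl⟩, hΨt t⟩
    · rintro ⟨⟨t, s⟩, ⟨hz, hs⟩, rfl⟩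
      have hs' : s = 0 := hs
      subst hs'
      exact ⟨t, ((hQmem t 0).mp hz).1, (hΨt t).symm⟩
  have hdisj : ∀ S T : Set (ℝ × ℝ), S ⊆ e.source → T ⊆ e.source → Disjoint S T →
      Disjoint (Ψ '' S) (Ψ '' T) := fun S T hS hT h => h.image hinj hS hT
  refine ⟨η, hηp, hηη1, Ψ '' Q, Ψ '' (Q ∩ {z | 0 < z.2}), Ψ '' (Q ∩ {z | z.2 < 0}), ?_, ?_, ?_,
    ?_, ?_⟩
  · have hmemcl : ∀ t ∈ Ioo (t0 - η) (t0 + η),
        γ t ∈ closure (Ψ '' (Q ∩ {z | 0 < z.2})) ∧ γ t ∈ closure (Ψ '' (Q ∩ {z | z.2 < 0})) := by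
      intro t ht
      have hc : Continuous (fun s : ℝ => Ψ (t, s)) := by fun_prop
      have hlim : Tendsto (fun s : ℝ => Ψ (t, s)) (𝓝 0) (𝓝 (γ t)) := by
        have := hc.tendsto 0
        rwa [hΨt t] at this
      have hab : ∀ᶠ s : ℝ in 𝓝 0, |s| < η := by
        have : Continuous (fun s : ℝ => |s|) := continuous_abs
        exact (this.tendsto 0).eventually_lt_const (by simpa using hηp)
      constructor
      · refine mem_closure_of_tendsto (hlim.mono_left (nhdsWithin_le_nhds (s := Ioi 0))) ?_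
        filter_upwards [nhdsWithin_le_nhds hab, self_mem_nhdsWithin] with s hs hs0
        exact ⟨(t, s), ⟨(hQmem t s).mpr ⟨ht, hs⟩, hs0⟩, rfl⟩
      · refine mem_closure_of_tendsto (hlim.mono_left (nhdsWithin_le_nhds (s := Iio 0))) ?_
        filter_upwards [nhdsWithin_le_nhds hab, self_mem_nhdsWithin] with s hs hs0
        exact ⟨(t, s), ⟨(hQmem t s).mpr ⟨ht, hs⟩, hs0⟩, rfl⟩
    refine
      { openN := himg _ isOpen_ball hQs
        openP := himg _ (isOpen_ball.inter hpos) (inter_subset_left.trans hQs)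
        openM := himg _ (isOpen_ball.inter hneg) (inter_subset_left.trans hQs)
        connP := ((hQc.inter hposc).isPreconnected).image _ hΨc.continuousOn
        connM := ((hQc.inter hnegc).isPreconnected).image _ hΨc.continuousOn
        union := ?_
        disjPM := ?_
        disjPA := ?_
        disjMA := ?_
        closP := ?_
        closM := ?_ }
    · rw [hA, ← image_union, ← image_union]
      congr 1
      ext z
      constructor
      · intro hz
        rcases lt_trichotomy z.2 0 with h | h | h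
        · exact Or.inl (Or.inr ⟨hz, h⟩)
        · exact Or.inr ⟨hz, h⟩
        · exact Or.inl (Or.inl ⟨hz, h⟩)
      · rintro ((h | h) | h)
        · exact h.1
        · exact h.1
        · exact h.1
    · refine hdisj _ _ (inter_subset_left.trans hQs) (inter_subset_left.trans hQs) ?_
      rw [Set.disjoint_left]
      rintro z ⟨_, h1⟩ ⟨_, h2⟩
      exact lt_asymm (show (0 : ℝ) < z.2 from h1) (show z.2 < 0 from h2)
    · rw [hA]
      refine hdisj _ _ (inter_subset_left.trans hQs) (inter_subset_left.trans hQs) ?_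
      rw [Set.disjoint_left]
      rintro z ⟨_, h1⟩ ⟨_, h2⟩
      exact (ne_of_gt h1) h2
    · rw [hA]
      refine hdisj _ _ (inter_subset_left.trans hQs) (inter_subset_left.trans hQs) ?_
      rw [Set.disjoint_left]
      rintro z ⟨_, h1⟩ ⟨_, h2⟩
      exact (ne_of_lt h1) h2
    · rintro _ ⟨t, ht, rfl⟩
      exact (hmemcl t ht).1
    · rintro _ ⟨t, ht, rfl⟩
      exact (hmemcl t ht).2
  · exact ⟨(t0, 0), mem_ball_self hηp, hΨ0⟩
  · rintro _ ⟨z, hz, rfl⟩
    exact hηO (ball_subset_ball (min_le_left _ _) hz)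
  · rintro w ⟨⟨z, hz, hzw⟩, ⟨t, ht, htw⟩⟩
    have h1 : ((t, 0) : ℝ × ℝ) ∈ ball ((t0, 0) : ℝ × ℝ) η1 := by
      rw [← ball_prod_same, mem_prod, Real.ball_eq_Ioo]
      exact ⟨ht, mem_ball_self hη1p⟩
    have h2 : z = (t, 0) := by
      apply hinj (hQs hz) (hbig h1)
      rw [hzw, hΨt t, htw]
    subst h2
    exact ⟨t, ((hQmem t 0).mp hz).1, htw⟩
  · intro δ r0 hδ hδ0
    -- the curve in the coordinates
    have hloc := hst.to_localInverse
    set g : ℝ → ℝ × ℝ := fun s => hst.localInverse Ψ _ _ (δ (r0 + s)) with hg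
    have hδ' : HasDerivAt (fun s : ℝ => δ (r0 + s)) ν 0 := by
      have h1 : HasDerivAt δ ν (r0 + 0) := by simpa using hδ
      exact h1.comp_const_add r0 0
    have hval : δ (r0 + 0) = Ψ (t0, 0) := by rw [add_zero, hδ0, hΨ0]
    have hgd : HasDerivAt g ((0 : ℝ), (1 : ℝ)) 0 := by
      have h1 : HasFDerivAt (hst.localInverse Ψ _ _)
          ((frameEquiv (deriv γ t0) ν hν).symm : Plane →L[ℝ] ℝ × ℝ) (δ (r0 + 0)) := by
        rw [hval]
        exact hloc.hasFDerivAt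
      have h2 := h1.comp_hasDerivAt (0 : ℝ) hδ'
      have h3 : ((frameEquiv (deriv γ t0) ν hν).symm : Plane →L[ℝ] ℝ × ℝ) ν
          = ((0 : ℝ), (1 : ℝ)) := frameEquiv_symm_snd _ _ hν
      rw [h3] at h2
      exact h2
    have hg0 : g 0 = (t0, 0) := by
      have h1 : hst.localInverse Ψ _ _ (Ψ (t0, 0)) = (t0, 0) := hst.localInverse_apply_image
      rw [hg]
      simp only
      rw [hval]
      exact h1
    have hev1 : ∀ᶠ s in 𝓝 (0 : ℝ), g s ∈ Q := by
      have := hgd.continuousAt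
      apply this.eventually_mem
      rw [hg0]
      exact ball_mem_nhds _ hηp
    have hev2 : ∀ᶠ s in 𝓝 (0 : ℝ), Ψ (g s) = δ (r0 + s) := by
      have h1 : ∀ᶠ w in 𝓝 (Ψ (t0, 0)), Ψ (hst.localInverse Ψ _ _ w) = w :=
        hst.eventually_right_inverse
      have h2 : Tendsto (fun s : ℝ => δ (r0 + s)) (𝓝 0) (𝓝 (Ψ (t0, 0))) := by
        have := hδ'.continuousAt.tendsto
        rwa [hval] at this
      exact h2.eventually h1
    have hsnd : HasDerivAt (fun s => (g s).2) (1 : ℝ) 0 := by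
      have h1 : HasFDerivAt (Prod.snd : ℝ × ℝ → ℝ) (ContinuousLinearMap.snd ℝ ℝ ℝ) (g 0) :=
        hasFDerivAt_snd
      have h2 := h1.comp_hasDerivAt (0 : ℝ) hgd
      exact h2
    have hev3 : ∀ᶠ s in 𝓝[≠] (0 : ℝ), 0 < slope (fun s => (g s).2) 0 s :=
      hsnd.tendsto_slope.eventually_const_lt one_pos
    have hslope : ∀ s : ℝ, slope (fun s => (g s).2) 0 s = s⁻¹ * (g s).2 := by
      intro s
      rw [slope_def_field, hg0]
      simp [div_eq_inv_mul]
    have t1 : Tendsto (fun s : ℝ => s) (𝓝[>] 0) (𝓝[≠] 0) :=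
      tendsto_id.mono_left (nhdsWithin_mono _ fun x hx => ne_of_gt hx)
    have t2 : Tendsto (fun s : ℝ => -s) (𝓝[>] 0) (𝓝[≠] 0) := by
      refine tendsto_nhdsWithin_of_tendsto_nhds_of_eventually_within _ ?_ ?_
      · have : Tendsto (fun s : ℝ => -s) (𝓝 0) (𝓝 (-0)) := continuous_neg.tendsto 0
        rw [neg_zero] at this
        exact this.mono_left nhdsWithin_le_nhds
      · filter_upwards [self_mem_nhdsWithin] with s hs
        exact neg_ne_zero.mpr (ne_of_gt hs)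
    have hev12 := (hev1.and hev2).filter_mono (nhdsWithin_le_nhds (s := {0}ᶜ))
    have hall := hev12.and hev3
    filter_upwards [t1.eventually hall, t2.eventually hall, self_mem_nhdsWithin] with s h1 h2 hs
    have hs0 : (0 : ℝ) < s := hs
    obtain ⟨⟨h1a, h1b⟩, h1c⟩ := h1
    obtain ⟨⟨h2a, h2b⟩, h2c⟩ := h2
    rw [hslope] at h1c h2c
    constructor
    · refine ⟨g s, ⟨h1a, ?_⟩, h1b⟩
      have := mul_pos hs0 h1c
      rwa [← mul_assoc, mul_inv_cancel₀ hs0.ne', one_mul] at this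
    · refine ⟨g (-s), ⟨h2a, ?_⟩, ?_⟩
      · have h3 := mul_pos hs0 h2c
        rw [← mul_assoc, inv_neg, mul_neg, mul_inv_cancel₀ hs0.ne', neg_mul, one_mul] at h3
        show (g (-s)).2 < 0
        linarith
      · rw [h2b, ← sub_eq_add_neg]

end Pool.Agent.Lib_MP_752436_tp
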