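import Pool.Agent.Lib_MP_752436_tp.Hull
import Pool.Agent.Lib_MP_752436_tp.Box
import Pool.Agent.Lib_MP_752436_tp.Side
import Pool.Agent.Lib_MP_752436_tp.ArcAvoid

/-!
Piece N4: FrontierCurve.lean. The frontier of the outer region of a trap is a union of complete
closed double curves.
-/

open Metric Set Filter
open scoped ContDiff Topology

namespace Pool.Agent.Lib_MP_752436_tp

open Pool.Agent.Lib_MP_752436_gt

variable {ι : Type} {G : Curves ι} {D : Set (Plane × Plane)}

theorem isCompact_closure_interior {Z : Set Plane} (hZ : IsCompact Z) :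
    IsCompact (closure (interior Z)) :=
  hZ.of_isClosed_subset isClosed_closure (closure_minimal interior_subset hZ.isClosed)

theorem frontier_hull_disjoint {Z : Set Plane} :
    Disjoint (interior Z) (frontier (hull (closure (interior Z)))) := by
  have hWV : interior Z ⊆ interior (hull (closure (interior Z))) :=
    interior_maximal (subset_closure.trans (subset_hull _)) isOpen_interior
  rw [Set.disjoint_left]
  intro x hx hx'
  exact hx'.2 (hWV hx)

theorem frontier_hull_subset_frontier {Z : Set Plane} (hZ : IsCompact Z) :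
    frontier (hull (closure (interior Z))) ⊆ frontier Z := by
  intro x hx
  have h1 : x ∈ closure (interior Z) :=
    frontier_hull_subset (isCompact_closure_interior hZ) hx
  have h2 : x ∉ interior Z := fun h => (Set.disjoint_left.1 frontier_hull_disjoint h) hx
  exact ⟨closure_mono interior_subset h1, h2⟩

/-- Near a frontier point on a closed curve the frontier is contained in the curve. -/
theorem frontier_local [Finite ι] (h : Good G D) {Z : Set Plane}
    (hZ : IsTrapOf (fun x y => (x, y) ∈ D) Z) (hnb : NoBottom D Z) {i : ι} (hi : G.closed i)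
    {t : ℝ} (ht : G.fst i t ∈ frontier (hull (closure (interior Z))))
    (hin : G.snd i t ∈ interior Z) {η : ℝ} (hη : 0 < η) :
    ∃ O ∈ 𝓝 (G.fst i t), frontier (hull (closure (interior Z))) ∩ O ⊆
      G.fst i '' Ioo (t - η) (t + η) := by
  have hfr := frontier_hull_subset_frontier hZ.compact
  have huniq : ∀ q ∈ Z, (G.fst i t, q) ∈ D → q = G.snd i t := fun q hq hpq =>
    unique_below h hnb hq (interior_subset hin) hpq (h.curves.mem (i := i) (Or.inl hi))
  obtain ⟨O2, hO2, hloc⟩ := h.curves.local (i := i) (t0 := t) (Or.inl hi) hη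
  have hD : IsCompact D := h.curves.isCompact
  set C : Set (Plane × Plane) := (D ∩ (univ ×ˢ Z)) \ interior O2 with hC
  have hCc : IsCompact C :=
    (hD.inter_right (isClosed_univ.prod hZ.compact.isClosed)).diff isOpen_interior
  have hCp : G.fst i t ∉ Prod.fst '' C := by
    rintro ⟨⟨x, q⟩, ⟨⟨hq1, hq2⟩, hq3⟩, hxt⟩
    simp only at hxt
    subst hxt
    have hqe : q = G.snd i t := huniq q hq2.2 hq1
    apply hq3
    have : ((G.fst i t, q) : Plane × Plane) = G.c i t := by rw [hqe]; rfl
    rw [this]
    exact mem_interior_iff_mem_nhds.2 hO2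
  refine ⟨(Prod.fst '' C)ᶜ, (hCc.image continuous_fst).isClosed.isOpen_compl.mem_nhds hCp, ?_⟩
  rintro x ⟨hx1, hx2⟩
  obtain ⟨q, hq, hxq⟩ := exists_interior_below h hZ (hfr hx1)
  have hmem : ((x, q) : Plane × Plane) ∈ O2 := by
    by_contra hcon
    exact hx2 ⟨(x, q), ⟨⟨hxq, mem_univ _, interior_subset hq⟩,
      fun h' => hcon (interior_subset h')⟩, rfl⟩
  obtain ⟨t', -, ht', hct'⟩ := hloc (x, q) ⟨hxq, hmem⟩
  refine ⟨t', ?_, ?_⟩
  · rw [abs_lt] at ht'
    exact ⟨by linarith [ht'.1], by linarith [ht'.2]⟩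
  · show (G.c i t').1 = x
    rw [hct']

theorem exists_det2_ne {a : Plane} (ha : a ≠ 0) : ∃ ν, det2 a ν ≠ 0 := by
  refine ⟨!₂[-a 1, a 0], ?_⟩
  intro hcon
  apply ha
  have h1 : a 0 * a 0 + a 1 * a 1 = 0 := by
    have : det2 a !₂[-a 1, a 0] = a 0 * a 0 - a 1 * (-a 1) := by simp [det2]
    rw [this] at hcon
    linarith
  ext k
  fin_cases k
  · show a 0 = 0
    nlinarith [mul_self_nonneg (a 0), mul_self_nonneg (a 1)]
  · show a 1 = 0
    nlinarith [mul_self_nonneg (a 0), mul_self_nonneg (a 1)]

theorem frontier_curve [Finite ι] (h : Good G D) {Z : Set Plane}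
    (hZ : IsTrapOf (fun x y => (x, y) ∈ D) Z) (hnb : NoBottom D Z) {p : Plane}
    (hp : p ∈ frontier (hull (closure (interior Z)))) :
    ∃ i, G.closed i ∧ p ∈ G.up i ∧ G.up i ⊆ frontier (hull (closure (interior Z))) ∧
      ∀ t, G.snd i t ∈ interior Z := by
  have hK := isCompact_closure_interior hZ.compact
  have hfr := frontier_hull_subset_frontier hZ.compact
  obtain ⟨q, hq, hpq⟩ := exists_interior_below h hZ (hfr hp)
  obtain ⟨i, t, ht, hct⟩ := h.curves.exists_param hpq
  have hdom : t ∈ G.dom i := Or.inr ht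
  have hsnd : G.snd i t ∈ interior Z := by
    show (G.c i t).2 ∈ interior Z
    rw [hct]; exact hq
  have hi : G.closed i := closed_of_snd_mem h hZ hnb hdom hsnd
  have hlow : ∀ s, G.snd i s ∈ interior Z := fun s =>
    snd_mem_interior h hZ hnb hdom hsnd (Or.inl hi)
  have hfc : Continuous (G.fst i) := continuous_fst.comp (h.curves.smooth i).continuous
  set T : Set ℝ := {s | G.fst i s ∈ frontier (hull (closure (interior Z)))} with hT
  have hTc : IsClosed T := isClosed_frontier.preimage hfc
  have hTo : IsOpen T := by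
    rw [isOpen_iff_mem_nhds]
    intro s hs
    obtain ⟨ν, hν⟩ := exists_det2_ne (h.curves.immFst i s (Or.inl hi))
    have hsm : ContDiff ℝ 1 (G.fst i) := contDiff_fst.comp (h.curves.smooth i)
    obtain ⟨η1, hη1, -, hbox⟩ := exists_sideBox hsm hν one_pos
    obtain ⟨O, hO, hfO⟩ := frontier_local h hZ hnb hi hs (hlow s) hη1
    obtain ⟨η, hη, -, N, P, M, hb, hsN, hNO, hNA, -⟩ := hbox O hO
    have hside := side_argument (V := (hull (closure (interior Z)))ᶜ) (W := interior Z) hb
      (isClosed_hull hK).isOpen_compl isOpen_interior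
      (Set.disjoint_left.2 fun x hx hx' => hx (subset_hull _ (subset_closure hx'))) hsN
      (by
        rw [closure_compl]
        intro hmem
        exact hs.2 hmem)
      (frontier_hull_subset hK hs)
      (by
        rw [frontier_compl]
        intro x hx
        exact hNA ⟨hx.2, hfO ⟨hx.1, hNO hx.2⟩⟩)
    rw [frontier_compl] at hside
    have : Ioo (s - η) (s + η) ⊆ T := fun r hr => hside.1 ⟨r, hr, rfl⟩
    exact mem_of_superset (Ioo_mem_nhds (by linarith) (by linarith)) this
  have htT : t ∈ T := by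
    show (G.c i t).1 ∈ frontier (hull (closure (interior Z)))
    rw [hct]; exact hp
  have hTu : T = univ := IsClopen.eq_univ ⟨hTc, hTo⟩ ⟨t, htT⟩
  refine ⟨i, hi, ⟨t, ht, ?_⟩, ?_, hlow⟩
  · show (G.c i t).1 = p
    rw [hct]
  · rintro x ⟨s, -, rfl⟩
    have : s ∈ T := by rw [hTu]; exact mem_univ s
    exact this

end Pool.Agent.Lib_MP_752436_tp
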