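import Pool.Agent.Lib_MP_752436_tp.Defs2

/-!
Piece O1: Orbit.lean.
-/

open Metric Set Filter
open scoped ContDiff Topology

namespace Pool.Agent.Lib_MP_752436_tp

open Pool.Agent.Lib_MP_752436_gt

section

variable {E : Type} [MetricSpace E] {D B : Set E} {Φ : ℝ → E → E}

lemma OneDim.rev (h : OneDim D B Φ) : OneDim D B (fun t => Φ (-t)) where
  compact := h.compact
  sub := h.sub
  zero := fun x => by simp only [neg_zero]; exact h.zero x
  add := fun s t x => by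
    simp only [neg_add]
    exact h.add (-s) (-t) x
  cont := fun x => (h.cont x).comp continuous_neg
  box := by
    intro c hc η hη
    obtain ⟨O, hO, hO2⟩ := h.box c hc η hη
    refine ⟨O, hO, fun p hp => ?_⟩
    obtain ⟨t, ht, htp⟩ := hO2 p hp
    exact ⟨-t, by rwa [abs_neg], by simp only [neg_neg]; exact htp⟩
  stay := by
    intro c hc
    obtain ⟨η, hη, h1⟩ := h.stay c hc
    exact ⟨η, hη, fun t ht => h1 (-t) (by rwa [abs_neg])⟩
  bd := by
    intro c hc
    obtain ⟨η, hη, h1⟩ := h.bd c hc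
    refine ⟨η, hη, ?_⟩
    rcases h1 with h1 | h1
    · right
      intro t ht
      obtain ⟨h2, h3⟩ := h1 t ht
      exact ⟨h3, by simp only [neg_neg]; exact h2⟩
    · left
      intro t ht
      obtain ⟨h2, h3⟩ := h1 t ht
      exact ⟨h3, by simp only [neg_neg]; exact h2⟩
  move := by
    intro c hc
    obtain ⟨η, hη, h1⟩ := h.move c hc
    exact ⟨η, hη, fun t ht ht2 => h1 (-t) (by rwa [abs_neg]) (by rwa [abs_neg])⟩

lemma OneDim.period_of_stay (h : OneDim D B Φ) {c : E} (hst : ∀ t, 0 ≤ t → Φ t c ∈ D) :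
    ∃ T > 0, Φ T c = c := by
  obtain ⟨d, hd, φ, hφ, hlim⟩ := h.compact.tendsto_subseq (x := fun n : ℕ => Φ (n : ℝ) c)
    (fun n => hst n (Nat.cast_nonneg n))
  obtain ⟨O, hO, hO2⟩ := h.box d hd (1 / 4) (by norm_num)
  obtain ⟨N, hN⟩ := eventually_atTop.1 (hlim.eventually hO)
  have h1 := hO2 (Φ ((φ N : ℕ) : ℝ) c) ⟨hst _ (Nat.cast_nonneg _), hN N le_rfl⟩
  have h2 := hO2 (Φ ((φ (N + 1) : ℕ) : ℝ) c) ⟨hst _ (Nat.cast_nonneg _), hN (N + 1) (Nat.le_succ N)⟩
  obtain ⟨s, hs, hs2⟩ := h1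
  obtain ⟨t, ht, ht2⟩ := h2
  have h3 : ((φ N : ℕ) : ℝ) + 1 ≤ ((φ (N + 1) : ℕ) : ℝ) := by
    exact_mod_cast hφ (Nat.lt_succ_self N)
  rw [abs_lt] at hs ht
  refine ⟨((φ (N + 1) : ℕ) : ℝ) - t - (φ N : ℕ) + s, by linarith, ?_⟩
  have e1 : Φ (((φ N : ℕ) : ℝ) - s) c = d := by
    rw [sub_eq_neg_add, h.add, ← hs2, ← h.add, neg_add_cancel, h.zero]
  have e2 : Φ (((φ (N + 1) : ℕ) : ℝ) - t) c = d := by
    rw [sub_eq_neg_add, h.add, ← ht2, ← h.add, neg_add_cancel, h.zero]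
  have e3 : ((φ (N + 1) : ℕ) : ℝ) - t - (φ N : ℕ) + s =
      -(((φ N : ℕ) : ℝ) - s) + (((φ (N + 1) : ℕ) : ℝ) - t) := by ring
  rw [e3, h.add, e2, ← e1, ← h.add, neg_add_cancel, h.zero]

lemma OneDim.per (h : OneDim D B Φ) {c : E} {T : ℝ} (hT : Φ T c = c) (u : ℝ) :
    Φ (u + T) c = Φ u c := by
  rw [h.add, hT]

lemma OneDim.per_int (h : OneDim D B Φ) {c : E} {T : ℝ} (hT : Φ T c = c) (n : ℤ) (u : ℝ) :
    Φ (u + n * T) c = Φ u c := by
  have hper : Function.Periodic (fun u => Φ u c) T := fun u => h.per hT u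
  have := hper.int_mul n u
  simpa using this

/-- a periodic orbit is determined on one period -/
lemma OneDim.all_of_period (h : OneDim D B Φ) {c : E} {T : ℝ} (hT0 : 0 < T) (hT : Φ T c = c)
    {P : E → Prop} {s : ℝ} (hP : ∀ t ∈ Icc s (s + T), P (Φ t c)) (u : ℝ) : P (Φ u c) := by
  have h1 : Φ u c = Φ (u + (-toIcoDiv hT0 s u : ℤ) * T) c := (h.per_int hT _ u).symm
  rw [h1]
  apply hP
  have h2 := sub_toIcoDiv_zsmul_mem_Ico hT0 s u
  have h3 : u + ((-toIcoDiv hT0 s u : ℤ) : ℝ) * T = u - toIcoDiv hT0 s u • T := by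
    rw [zsmul_eq_mul]; push_cast; ring
  rw [h3]
  exact Ico_subset_Icc_self h2

lemma OneDim.exit (h : OneDim D B Φ) {c : E} (hc : c ∈ D) (hex : ∃ t, 0 ≤ t ∧ Φ t c ∉ D) :
    ∃ b, 0 ≤ b ∧ Φ b c ∈ B ∧ (∀ s ∈ Icc 0 b, Φ s c ∈ D) ∧
      ∀ ε > 0, ∃ t ∈ Ioo b (b + ε), Φ t c ∉ D := by
  set S : Set ℝ := {t | 0 ≤ t ∧ ∀ s ∈ Icc 0 t, Φ s c ∈ D} with hS
  obtain ⟨t0, ht0, ht0D⟩ := hex
  have h0 : (0 : ℝ) ∈ S := by
    refine ⟨le_rfl, fun s hs => ?_⟩
    rw [Icc_self, mem_singleton_iff] at hs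
    rw [hs, h.zero]; exact hc
  have hbdd : BddAbove S := by
    refine ⟨t0, fun t ht => ?_⟩
    by_contra hlt
    push Not at hlt
    exact ht0D (ht.2 t0 ⟨ht0, hlt.le⟩)
  set b := sSup S with hb
  have hb0 : 0 ≤ b := le_csSup hbdd h0
  have hlt : ∀ s, 0 ≤ s → s < b → Φ s c ∈ D := by
    intro s hs hsb
    obtain ⟨t, ht, hst⟩ := exists_lt_of_lt_csSup ⟨0, h0⟩ hsb
    exact ht.2 s ⟨hs, hst.le⟩
  have hDclosed : IsClosed D := h.compact.isClosed
  have hbD : Φ b c ∈ D := by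
    rcases hb0.eq_or_lt with h1 | h1
    · rw [← h1, h.zero]; exact hc
    · have h2 : (𝓝[<] b).NeBot := inferInstance
      have h3 : Tendsto (fun t => Φ t c) (𝓝[<] b) (𝓝 (Φ b c)) :=
        ((h.cont c).tendsto b).mono_left nhdsWithin_le_nhds
      refine hDclosed.mem_of_tendsto h3 ?_
      have h4 : Ioo 0 b ∈ 𝓝[<] b := Ioo_mem_nhdsLT h1
      filter_upwards [h4] with t ht
      exact hlt t ht.1.le ht.2
  have hall : ∀ s ∈ Icc 0 b, Φ s c ∈ D := by
    intro s hs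
    rcases hs.2.eq_or_lt with h1 | h1
    · rw [h1]; exact hbD
    · exact hlt s hs.1 h1
  have hmax : ∀ ε > 0, ∃ t ∈ Ioo b (b + ε), Φ t c ∉ D := by
    intro ε hε
    by_contra hno
    push Not at hno
    have h5 : b + ε / 2 ∈ S := by
      refine ⟨by linarith, fun s hs => ?_⟩
      by_cases hsb : s ≤ b
      · exact hall s ⟨hs.1, hsb⟩
      · push Not at hsb
        exact hno s ⟨hsb, by linarith [hs.2]⟩
    have := le_csSup hbdd h5
    linarith
  refine ⟨b, hb0, ?_, hall, hmax⟩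
  by_contra hbB
  obtain ⟨η, hη, hst⟩ := h.stay _ ⟨hbD, hbB⟩
  obtain ⟨t, ht, htD⟩ := hmax η hη
  apply htD
  have h6 : Φ t c = Φ (t - b) (Φ b c) := by rw [← h.add, sub_add_cancel]
  rw [h6]
  apply hst
  rw [abs_lt]
  exact ⟨by linarith [ht.1], by linarith [ht.2]⟩

/-- a point of `B` is left in one of the two directions -/
lemma OneDim.not_bd (h : OneDim D B Φ) {c : E} {t : ℝ}
    (hin : ∃ ε > 0, ∀ s, |s| < ε → Φ (t + s) c ∈ D) : Φ t c ∉ B := by
  intro hB
  obtain ⟨ε, hε, hin⟩ := hin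
  obtain ⟨η, hη, hbd⟩ := h.bd _ hB
  set r := min ε η / 2 with hr
  have hr0 : 0 < r := by rw [hr]; positivity
  have hr1 : r < ε := by
    rw [hr]; have := min_le_left ε η; linarith
  have hr2 : r < η := by
    rw [hr]; have := min_le_right ε η; linarith
  rcases hbd with hbd | hbd
  · apply (hbd r ⟨hr0, hr2⟩).1
    rw [← h.add, add_comm]
    exact hin r (by rwa [abs_of_pos hr0])
  · apply (hbd r ⟨hr0, hr2⟩).2
    rw [← h.add, add_comm]
    exact hin (-r) (by rwa [abs_neg, abs_of_pos hr0])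

end

theorem orbit_classification {E : Type} [MetricSpace E] {D B : Set E} {Φ : ℝ → E → E}
    (h : OneDim D B Φ) {c : E} (hc : c ∈ D) :
    (∃ L > 0, Φ L c = c ∧ InjOn (fun t => Φ t c) (Ico 0 L) ∧ ∀ t, Φ t c ∈ D \ B) ∨
    ∃ a b, a ≤ 0 ∧ 0 ≤ b ∧ a < b ∧ Φ a c ∈ B ∧ Φ b c ∈ B ∧ InjOn (fun t => Φ t c) (Icc a b) ∧
      ∀ t ∈ Ioo a b, Φ t c ∈ D \ B := by
  -- the periodic case
  have hcase : (∀ t, 0 ≤ t → Φ t c ∈ D) →
      (∃ L > 0, Φ L c = c ∧ InjOn (fun t => Φ t c) (Ico 0 L) ∧ ∀ t, Φ t c ∈ D \ B) := by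
    intro hst
    obtain ⟨T, hT0, hT⟩ := h.period_of_stay hst
    have hallD : ∀ u, Φ u c ∈ D := fun u =>
      h.all_of_period hT0 hT (P := fun x => x ∈ D) (s := 0) (fun t ht => hst t ht.1) u
    have hall : ∀ u, Φ u c ∈ D \ B := fun u =>
      ⟨hallD u, h.not_bd ⟨1, one_pos, fun s _ => hallD _⟩⟩
    obtain ⟨η, hη, hmv⟩ := h.move c hc
    set S : Set ℝ := {T | η ≤ T ∧ Φ T c = c} with hS
    have hSmem : ∀ t, 0 < t → Φ t c = c → t ∈ S := by
      intro t ht htc
      refine ⟨?_, htc⟩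
      by_contra hlt
      push Not at hlt
      exact hmv t (by rwa [abs_of_pos ht]) (by rwa [abs_of_pos ht]) htc
    have hclosed : IsClosed S := by
      have h1 : S = Ici η ∩ (fun t => Φ t c) ⁻¹' {c} := by
        ext t; simp [hS]
      rw [h1]
      exact isClosed_Ici.inter ((isClosed_singleton).preimage (h.cont c))
    have hbdd : BddBelow S := ⟨η, fun t ht => ht.1⟩
    have hL : sInf S ∈ S := hclosed.csInf_mem ⟨T, hSmem T hT0 hT⟩ hbdd
    refine ⟨sInf S, lt_of_lt_of_le hη hL.1, hL.2, ?_, hall⟩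
    have hinj : ∀ s ∈ Ico 0 (sInf S), ∀ t ∈ Ico 0 (sInf S), s < t → Φ s c = Φ t c → False := by
      intro s hs t ht hst' heq
      have h2 : Φ (t - s) c = c := by
        rw [sub_eq_neg_add, h.add, ← heq, ← h.add, neg_add_cancel, h.zero]
      have h3 := csInf_le hbdd (hSmem (t - s) (by linarith) h2)
      linarith [hs.1, ht.2]
    intro s hs t ht heq
    rcases lt_trichotomy s t with h1 | h1 | h1
    · exact absurd heq (fun h' => hinj s hs t ht h1 h')
    · exact h1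
    · exact absurd heq (fun h' => hinj t ht s hs h1 h'.symm)
  by_cases hf : ∀ t, 0 ≤ t → Φ t c ∈ D
  · exact Or.inl (hcase hf)
  by_cases hb : ∀ t, 0 ≤ t → Φ (-t) c ∈ D
  · left
    apply hcase
    obtain ⟨T, hT0, hT⟩ := h.rev.period_of_stay (c := c) hb
    have hT' : Φ T c = c := by
      have h1 : Φ T (Φ (-T) c) = c := by rw [← h.add, add_neg_cancel, h.zero]
      have hT2 : Φ (-T) c = c := hT
      rwa [hT2] at h1
    intro t _
    exact h.all_of_period hT0 hT' (P := fun x => x ∈ D) (s := -T) (fun u hu => by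
      have := hb (-u) (by linarith [hu.2])
      rwa [neg_neg] at this) t
  · right
    push Not at hf hb
    obtain ⟨b, hb0, hbB, hbD, hbm⟩ := h.exit hc hf
    obtain ⟨a', ha0, haB, haD, ham⟩ := h.rev.exit hc hb
    have hD : ∀ s ∈ Icc (-a') b, Φ s c ∈ D := by
      intro s hs
      by_cases hs0 : 0 ≤ s
      · exact hbD s ⟨hs0, hs.2⟩
      · push Not at hs0
        have := haD (-s) ⟨by linarith, by linarith [hs.1]⟩
        simp only [neg_neg] at this
        exact this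
    have hab : -a' < b := by
      by_contra hlt
      push Not at hlt
      have hb1 : b = 0 := by linarith
      have ha1 : a' = 0 := by linarith
      rw [hb1] at hbB hbm
      rw [h.zero] at hbB
      rw [ha1] at ham
      obtain ⟨η, hη, hbd⟩ := h.bd c hbB
      rcases hbd with hbd | hbd
      · obtain ⟨t, ht, htD⟩ := ham η hη
        rw [zero_add] at ht
        exact htD (hbd t ht).2.1
      · obtain ⟨t, ht, htD⟩ := hbm η hη
        rw [zero_add] at ht
        exact htD (hbd t ht).1.1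
    refine ⟨-a', b, by linarith, hb0, hab, haB, hbB, ?_, ?_⟩
    · have hinj : ∀ s ∈ Icc (-a') b, ∀ t ∈ Icc (-a') b, s < t → Φ s c = Φ t c → False := by
        intro s hs t ht hst heq
        have hT : Φ (t - s) c = c := by
          rw [sub_eq_neg_add, h.add, ← heq, ← h.add, neg_add_cancel, h.zero]
        obtain ⟨u, _, huD⟩ := hf
        apply huD
        exact h.all_of_period (by linarith : 0 < t - s) hT (P := fun x => x ∈ D) (s := s)
          (fun v hv => hD v ⟨by linarith [hs.1, hv.1], by linarith [ht.2, hv.2]⟩) u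
      intro s hs t ht heq
      rcases lt_trichotomy s t with h1 | h1 | h1
      · exact absurd heq (fun h' => hinj s hs t ht h1 h')
      · exact h1
      · exact absurd heq (fun h' => hinj t ht s hs h1 h'.symm)
    · intro t ht
      refine ⟨hD t (Ioo_subset_Icc_self ht), ?_⟩
      apply h.not_bd
      refine ⟨min (t - (-a')) (b - t), lt_min (by linarith [ht.1]) (by linarith [ht.2]), ?_⟩
      intro s hs
      rw [abs_lt] at hs
      have h1 := min_le_left (t - (-a')) (b - t)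
      have h2 := min_le_right (t - (-a')) (b - t)
      exact hD _ ⟨by linarith [hs.1], by linarith [hs.2]⟩

end Pool.Agent.Lib_MP_752436_tp
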