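import Pool.Agent.Lib_MP_752436_tp.Local

/-!
Piece N1: Below.lean.
-/

open Metric Set Filter
open scoped ContDiff Topology

namespace Pool.Agent.Lib_MP_752436_tp

open Pool.Agent.Lib_MP_752436_gt

variable {ι : Type} {G : Curves ι} {D : Set (Plane × Plane)}

theorem exists_interior_below (h : Good G D) {Z : Set Plane}
    (hZ : IsTrapOf (fun x y => (x, y) ∈ D) Z) {p : Plane} (hp : p ∈ frontier Z) :
    ∃ q ∈ interior Z, (p, q) ∈ D := by
  obtain ⟨q1, hq1, h1⟩ := hZ.above p hp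
  by_cases hi1 : q1 ∈ interior Z
  · exact ⟨q1, hi1, h1⟩
  obtain ⟨q2, hq2, h2⟩ := hZ.above q1 ⟨subset_closure hq1, hi1⟩
  by_cases hi2 : q2 ∈ interior Z
  · exact ⟨q2, hi2, h.trans _ _ _ h1 h2⟩
  obtain ⟨q3, hq3, h3⟩ := hZ.above q2 ⟨subset_closure hq2, hi2⟩
  exact absurd h3 (h.noFour _ _ _ _ h1 h2)

/-- The set `Z` contains no bottom point of a triple point. -/
def NoBottom (D : Set (Plane × Plane)) (Z : Set Plane) : Prop :=
  ∀ x y z, (x, y) ∈ D → (y, z) ∈ D → z ∉ Z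

theorem unique_below (h : Good G D) {Z : Set Plane} (hnb : NoBottom D Z) {p q q' : Plane}
    (hq : q ∈ Z) (hq' : q' ∈ Z) (h1 : (p, q) ∈ D) (h2 : (p, q') ∈ D) : q = q' := by
  by_contra hne
  rcases h.comparable _ _ _ h1 h2 hne with h3 | h3
  · exact hnb _ _ _ h1 h3 hq'
  · exact hnb _ _ _ h2 h3 hq

end Pool.Agent.Lib_MP_752436_tp
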