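import Pool.Agent.Lib_MP_752436_tp.Hull

/-!
Piece W1: WindConst.lean.
-/

open Metric Set Filter
open scoped ContDiff Topology

namespace Pool.Agent.Lib_MP_752436_tp

open Pool.Agent.Lib_MP_752436_gt

theorem wc_norm_toC (x : Plane) : ‖toC x‖ = ‖x‖ := by
  rw [EuclideanSpace.norm_eq, Complex.norm_def, Complex.normSq_apply]
  simp only [toC, Fin.sum_univ_two, Real.norm_eq_abs, sq_abs]
  congr 1
  ring

/-- `toC` as a continuous linear map. -/
noncomputable def wcL : Plane →L[ℝ] ℂ :=
  LinearMap.toContinuousLinearMap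
    { toFun := toC
      map_add' := by
        intro x y
        apply Complex.ext <;> simp [toC]
      map_smul' := by
        intro c x
        apply Complex.ext <;> simp [toC] }

theorem wcL_apply (x : Plane) : wcL x = toC x := rfl

theorem wc_continuous : Continuous toC := wcL.continuous

theorem wc_toC_ne {x : Plane} (hx : x ≠ 0) : toC x ≠ 0 := by
  intro h
  apply hx
  rw [← norm_eq_zero, ← wc_norm_toC, h, norm_zero]

theorem wc_exp {γ : ℝ → Plane} (hγ : ContDiff ℝ 1 γ) {L : ℝ} (hL : 0 < L)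
    (hcl : γ L = γ 0) {p : Plane} (hp : p ∉ γ '' Icc 0 L) : Complex.exp (wind γ L p) = 1 := by
  have hdc : Continuous (deriv γ) := hγ.continuous_deriv le_rfl
  have hγd : Differentiable ℝ γ := hγ.differentiable one_ne_zero
  set u : ℝ → ℂ := fun t => toC (γ t - p) with hu
  set F : ℝ → ℂ := fun t => toC (deriv γ t) / toC (γ t - p) with hF
  have huc : Continuous u := wc_continuous.comp (hγ.continuous.sub continuous_const)
  have hud : ∀ t, HasDerivAt u (toC (deriv γ t)) t := by
    intro t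
    have h1 : HasDerivAt (fun t => γ t - p) (deriv γ t) t := (hγd t).hasDerivAt.sub_const p
    exact wcL.hasFDerivAt.comp_hasDerivAt t h1
  have hne : ∀ t ∈ Icc 0 L, u t ≠ 0 := by
    intro t ht
    apply wc_toC_ne
    intro h
    exact hp ⟨t, ht, sub_eq_zero.mp h⟩
  have hopen : IsOpen {t | u t ≠ 0} := isOpen_ne_fun huc continuous_const
  have hFc : ContinuousOn F {t | u t ≠ 0} :=
    ((wc_continuous.comp hdc).continuousOn).div huc.continuousOn (fun t ht => ht)
  have hFI : ∀ t ∈ Icc 0 L, IntervalIntegrable F MeasureTheory.volume 0 t := by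
    intro t ht
    apply ContinuousOn.intervalIntegrable
    apply hFc.mono
    intro s hs
    rw [uIcc_of_le ht.1] at hs
    exact hne s ⟨hs.1, hs.2.trans ht.2⟩
  have hI : ∀ t ∈ Icc 0 L, HasDerivAt (fun s => ∫ x in (0 : ℝ)..s, F x) (F t) t := by
    intro t ht
    exact intervalIntegral.integral_hasDerivAt_right (hFI t ht)
      (hFc.stronglyMeasurableAtFilter hopen t (hne t ht))
      (hFc.continuousAt (hopen.mem_nhds (hne t ht)))
  have hh : ∀ t ∈ Icc 0 L, HasDerivAt
      (fun s => Complex.exp (-(∫ x in (0 : ℝ)..s, F x)) * u s) 0 t := by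
    intro t ht
    have h1 := ((hI t ht).neg.cexp).mul (hud t)
    have hz : u t ≠ 0 := hne t ht
    have h2 : Complex.exp (-(∫ x in (0 : ℝ)..t, F x)) * -F t * u t +
        Complex.exp (-(∫ x in (0 : ℝ)..t, F x)) * toC (deriv γ t) = 0 := by
      have : F t * u t = toC (deriv γ t) := div_mul_cancel₀ _ hz
      rw [← this]
      ring
    rw [← h2]
    exact h1
  have hconst := constant_of_has_deriv_right_zero (a := 0) (b := L)
    (f := fun s => Complex.exp (-(∫ x in (0 : ℝ)..s, F x)) * u s)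
    (fun t ht => (hh t ht).continuousAt.continuousWithinAt)
    (fun t ht => (hh t ⟨ht.1, ht.2.le⟩).hasDerivWithinAt) L ⟨hL.le, le_rfl⟩
  have huL : u L = u 0 := by simp only [hu, hcl]
  simp only [intervalIntegral.integral_same, neg_zero, Complex.exp_zero, one_mul, huL] at hconst
  have h0 : u 0 ≠ 0 := hne 0 ⟨le_rfl, hL.le⟩
  have h3 : Complex.exp (-(∫ x in (0 : ℝ)..L, F x)) = 1 := by
    apply mul_right_cancel₀ h0
    rw [hconst, one_mul]
  rw [Complex.exp_neg] at h3
  exact inv_eq_one.mp h3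

theorem wc_int {γ : ℝ → Plane} (hγ : ContDiff ℝ 1 γ) {L : ℝ} (hL : 0 < L)
    (hcl : γ L = γ 0) {p : Plane} (hp : p ∉ γ '' Icc 0 L) :
    ∃ n : ℤ, wind γ L p = n * (2 * Real.pi * Complex.I) :=
  Complex.exp_eq_one_iff.mp (wc_exp hγ hL hcl hp)

theorem wc_contOn {γ : ℝ → Plane} (hγ : ContDiff ℝ 1 γ) {L : ℝ} (hL : 0 < L) :
    ContinuousOn (wind γ L) (γ '' Icc 0 L)ᶜ := by
  have hdc : Continuous (deriv γ) := hγ.continuous_deriv le_rfl
  rw [continuousOn_iff_continuous_domRestrict]
  set c : ℝ → ℝ := fun t => max 0 (min t L) with hc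
  have hcc : Continuous c := continuous_const.max (continuous_id.min continuous_const)
  have hcm : ∀ t, c t ∈ Icc 0 L := fun t =>
    ⟨le_max_left _ _, max_le hL.le (min_le_right _ _)⟩
  have hce : ∀ t ∈ Icc 0 L, c t = t := by
    intro t ht
    simp only [hc]
    rw [min_eq_left ht.2, max_eq_right ht.1]
  have key : Continuous (fun p : ((γ '' Icc 0 L)ᶜ : Set Plane) =>
      ∫ t in (0 : ℝ)..L, toC (deriv γ (c t)) / toC (γ (c t) - (p : Plane))) := by
    apply intervalIntegral.continuous_parametric_intervalIntegral_of_continuous'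
    apply Continuous.div
    · exact wc_continuous.comp (hdc.comp (hcc.comp continuous_snd))
    · exact wc_continuous.comp ((hγ.continuous.comp (hcc.comp continuous_snd)).sub
        (continuous_subtype_val.comp continuous_fst))
    · rintro ⟨p, t⟩
      apply wc_toC_ne
      intro h
      exact p.2 ⟨c t, hcm t, sub_eq_zero.mp h⟩
  refine key.congr ?_
  intro p
  simp only [domRestrict_apply, wind]
  apply intervalIntegral.integral_congr
  intro t ht
  rw [uIcc_of_le hL.le] at ht
  simp only [hce t ht]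

theorem wind_const {γ : ℝ → Plane} (hγ : ContDiff ℝ 1 γ) {L : ℝ} (hL : 0 < L)
    (hcl : γ L = γ 0) {S : Set Plane} (hS : IsPreconnected S) (hd : Disjoint S (γ '' Icc 0 L))
    {p q : Plane} (hp : p ∈ S) (hq : q ∈ S) : wind γ L p = wind γ L q := by
  have hsub : S ⊆ (γ '' Icc 0 L)ᶜ := disjoint_left.mp hd
  have hpi : (0 : ℝ) < 2 * Real.pi := by positivity
  have hval : ∀ x ∈ S, ∃ n : ℤ, wind γ L x = n * (2 * Real.pi * Complex.I) :=
    fun x hx => wc_int hγ hL hcl (hsub hx)
  set f : Plane → ℝ := fun x => (wind γ L x).im / (2 * Real.pi) with hf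
  have hfc : ContinuousOn f S :=
    (Complex.continuous_im.comp_continuousOn ((wc_contOn hγ hL).mono hsub)).div_const _
  have hfn : ∀ x (n : ℤ), wind γ L x = n * (2 * Real.pi * Complex.I) → f x = n := by
    intro x n hn
    simp only [hf, hn]
    have : ((n : ℂ) * (2 * Real.pi * Complex.I)).im = n * (2 * Real.pi) := by
      simp [Complex.mul_im]
    rw [this]
    field_simp
  have main : ∀ x ∈ S, ∀ y ∈ S, ∀ n m : ℤ, f x = n → f y = m → ¬ n < m := by
    intro x hx y hy n m hn hm hlt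
    have h1 := hS.intermediate_value hx hy hfc
    have h2 : (n : ℝ) + 1 / 2 ∈ Icc (f x) (f y) := by
      rw [hn, hm]
      have : (n : ℝ) + 1 ≤ m := by exact_mod_cast hlt
      constructor <;> linarith
    obtain ⟨z, hz, hz2⟩ := h1 h2
    obtain ⟨k, hk⟩ := hval z hz
    rw [hfn z k hk] at hz2
    have h3 : (2 * k : ℝ) = 2 * n + 1 := by linarith
    have h4 : 2 * k = 2 * n + 1 := by exact_mod_cast h3
    omega
  obtain ⟨n, hn⟩ := hval p hp
  obtain ⟨m, hm⟩ := hval q hq
  have e1 := main p hp q hq n m (hfn p n hn) (hfn q m hm)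
  have e2 := main q hq p hp m n (hfn q m hm) (hfn p n hn)
  have e3 : n = m := by omega
  rw [hn, hm, e3]

theorem wind_zero {γ : ℝ → Plane} (hγ : ContDiff ℝ 1 γ) {L : ℝ} (hL : 0 < L)
    (hcl : γ L = γ 0) {S : Set Plane} (hS : IsPreconnected S) (hd : Disjoint S (γ '' Icc 0 L))
    (hu : ¬ Bornology.IsBounded S) {p : Plane} (hp : p ∈ S) : wind γ L p = 0 := by
  have hdc : Continuous (deriv γ) := hγ.continuous_deriv le_rfl
  obtain ⟨R, hR⟩ := (isCompact_Icc (a := (0 : ℝ)) (b := L)).exists_bound_of_continuousOn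
    hγ.continuous.continuousOn
  obtain ⟨M, hM⟩ := (isCompact_Icc (a := (0 : ℝ)) (b := L)).exists_bound_of_continuousOn
    hdc.continuousOn
  have hM0 : 0 ≤ M := (norm_nonneg _).trans (hM 0 ⟨le_rfl, hL.le⟩)
  have hR0 : 0 ≤ R := (norm_nonneg _).trans (hR 0 ⟨le_rfl, hL.le⟩)
  obtain ⟨q, hqS, hq⟩ : ∃ q ∈ S, R + (M * L + 1) < ‖q‖ := by
    by_contra hcon
    push Not at hcon
    exact hu (isBounded_iff_forall_norm_le.mpr ⟨_, hcon⟩)
  rw [wind_const hγ hL hcl hS hd hp hqS]
  obtain ⟨n, hn⟩ := wc_int hγ hL hcl (disjoint_left.mp hd hqS)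
  have hD : 0 < M * L + 1 := by positivity
  have hb : ‖wind γ L q‖ ≤ M / (M * L + 1) * |L - 0| := by
    apply intervalIntegral.norm_integral_le_of_norm_le_const
    intro t ht
    rw [uIoc_of_le hL.le] at ht
    have ht' : t ∈ Icc 0 L := ⟨ht.1.le, ht.2⟩
    rw [norm_div, wc_norm_toC, wc_norm_toC]
    have h1 : M * L + 1 ≤ ‖γ t - q‖ := by
      have h2 := norm_sub_norm_le q (γ t)
      rw [norm_sub_rev] at h2
      have h3 := hR t ht'
      linarith
    exact div_le_div₀ hM0 (hM t ht') hD h1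
  have hlt : ‖wind γ L q‖ < 1 := by
    apply hb.trans_lt
    rw [sub_zero, abs_of_pos hL, div_mul_eq_mul_div, div_lt_one hD]
    linarith
  rw [hn] at hlt ⊢
  have hnorm : ‖(n : ℂ) * (2 * Real.pi * Complex.I)‖ = |(n : ℝ)| * (2 * Real.pi) := by
    rw [norm_mul, norm_mul, norm_mul, Complex.norm_I, mul_one, Complex.norm_real,
      Complex.norm_intCast, Real.norm_eq_abs, abs_of_pos Real.pi_pos]
    norm_num
  rw [hnorm] at hlt
  have hpi := Real.pi_gt_three
  have h5 : |(n : ℝ)| < 1 := by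
    have : |(n : ℝ)| * 1 ≤ |(n : ℝ)| * (2 * Real.pi) :=
      mul_le_mul_of_nonneg_left (by linarith) (abs_nonneg _)
    linarith
  have h6 : n = 0 := by
    rw [← Int.abs_lt_one_iff]
    exact_mod_cast h5
  simp [h6]

theorem mem_hull_of_wind {γ : ℝ → Plane} (hγ : ContDiff ℝ 1 γ) {L : ℝ} (hL : 0 < L)
    (hcl : γ L = γ 0) {p : Plane} (hp : wind γ L p ≠ 0) : p ∈ hull (γ '' Icc 0 L) := by
  intro S hS hpS hd
  by_contra hu
  exact hp (wind_zero hγ hL hcl hS hd hu hpS)

end Pool.Agent.Lib_MP_752436_tp
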