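import Pool.Agent.Lib_MP_752436_tp.Defs2

/-!
Piece W2: WindJump.lean.
-/

open Metric Set Filter
open scoped ContDiff Topology

namespace Pool.Agent.Lib_MP_752436_tp

open Pool.Agent.Lib_MP_752436_gt

section Jump

lemma log_neg_sub_pos {z : ℂ} (hz : 0 < z.im) :
    Complex.log (-z) - Complex.log z = -(Real.pi : ℂ) * Complex.I := by
  unfold Complex.log
  rw [norm_neg, Complex.arg_neg_eq_arg_sub_pi_of_im_pos hz]
  push_cast
  ring

lemma log_neg_sub_neg {z : ℂ} (hz : z.im < 0) :
    Complex.log (-z) - Complex.log z = (Real.pi : ℂ) * Complex.I := by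
  unfold Complex.log
  rw [norm_neg, Complex.arg_neg_eq_arg_add_pi_of_im_neg hz]
  push_cast
  ring

lemma jump_far {ζ ζ' : ℝ → ℂ} (hζ : Continuous ζ) (hc : Continuous ζ') {a b : ℝ} (hab : a ≤ b)
    (hne : ∀ t ∈ Icc a b, ζ t ≠ 0) :
    Tendsto (fun s : ℝ => (∫ t in a..b, ζ' t / (ζ t - s)) - ∫ t in a..b, ζ' t / (ζ t + s))
      (𝓝[>] (0 : ℝ)) (𝓝 0) := by
  obtain ⟨m, hm0, hm⟩ : ∃ m : ℝ, 0 < m ∧ ∀ t ∈ Icc a b, m ≤ ‖ζ t‖ := by
    obtain ⟨t1, ht1, hmin⟩ := isCompact_Icc.exists_isMinOn (nonempty_Icc.2 hab)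
      (hζ.norm.continuousOn (s := Icc a b))
    exact ⟨‖ζ t1‖, norm_pos_iff.2 (hne t1 ht1), fun t ht => hmin ht⟩
  obtain ⟨M, hM⟩ : ∃ M : ℝ, ∀ t ∈ Icc a b, ‖ζ' t‖ ≤ M :=
    (isCompact_Icc.bddAbove_image (hc.norm.continuousOn)).imp
      (fun M hM t ht => hM (mem_image_of_mem _ ht))
  have hM0 : 0 ≤ M := (norm_nonneg _).trans (hM a (left_mem_Icc.2 hab))
  have hbound : ∀ᶠ s : ℝ in 𝓝[>] (0 : ℝ),
      ‖(∫ t in a..b, ζ' t / (ζ t - s)) - ∫ t in a..b, ζ' t / (ζ t + s)‖ ≤
        (M * (2 * s) / (m / 2 * (m / 2))) * |b - a| := by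
    have h1 : Ioo (0 : ℝ) (m / 2) ∈ 𝓝[>] (0 : ℝ) := Ioo_mem_nhdsGT (by positivity)
    filter_upwards [h1] with s hs
    have hs1 : ‖(s : ℂ)‖ = s := by rw [Complex.norm_real, Real.norm_eq_abs, abs_of_pos hs.1]
    have hmi : ∀ t ∈ Icc a b, m / 2 ≤ ‖ζ t - s‖ := by
      intro t ht
      have h2 := norm_sub_norm_le (ζ t) (s : ℂ)
      have h3 := hm t ht
      rw [hs1] at h2
      linarith [hs.2]
    have hpl : ∀ t ∈ Icc a b, m / 2 ≤ ‖ζ t + s‖ := by
      intro t ht
      have h2 := norm_sub_norm_le (ζ t) (-(s : ℂ))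
      have h3 := hm t ht
      rw [norm_neg, hs1, sub_neg_eq_add] at h2
      linarith [hs.2]
    have hmi0 : ∀ t ∈ Icc a b, ζ t - s ≠ 0 := fun t ht => by
      rw [← norm_pos_iff]; linarith [hmi t ht]
    have hpl0 : ∀ t ∈ Icc a b, ζ t + s ≠ 0 := fun t ht => by
      rw [← norm_pos_iff]; linarith [hpl t ht]
    have hi1 : IntervalIntegrable (fun t => ζ' t / (ζ t - s)) MeasureTheory.volume a b := by
      apply ContinuousOn.intervalIntegrable
      rw [uIcc_of_le hab]
      exact hc.continuousOn.div (hζ.sub continuous_const).continuousOn hmi0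
    have hi2 : IntervalIntegrable (fun t => ζ' t / (ζ t + s)) MeasureTheory.volume a b := by
      apply ContinuousOn.intervalIntegrable
      rw [uIcc_of_le hab]
      exact hc.continuousOn.div (hζ.add continuous_const).continuousOn hpl0
    rw [← intervalIntegral.integral_sub hi1 hi2]
    apply intervalIntegral.norm_integral_le_of_norm_le_const
    intro t ht
    rw [uIoc_of_le hab] at ht
    have ht' : t ∈ Icc a b := Ioc_subset_Icc_self ht
    have h4 : ζ' t / (ζ t - s) - ζ' t / (ζ t + s) = ζ' t * (2 * s) / ((ζ t - s) * (ζ t + s)) := by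
      have h5 := hmi0 t ht'
      have h6 := hpl0 t ht'
      field_simp
      ring
    rw [h4, norm_div, norm_mul, norm_mul, norm_mul, hs1]
    have h7 : ‖(2 : ℂ)‖ = 2 := by simp
    rw [h7]
    apply div_le_div₀
    · have := hs.1
      positivity
    · exact mul_le_mul_of_nonneg_right (hM t ht') (by linarith [hs.1])
    · positivity
    · exact mul_le_mul (hmi t ht') (hpl t ht') (by positivity) (norm_nonneg _)
  rw [tendsto_zero_iff_norm_tendsto_zero]
  refine squeeze_zero' (Eventually.of_forall fun s => norm_nonneg _) hbound ?_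
  have h8 : Tendsto (fun s : ℝ => (M * (2 * s) / (m / 2 * (m / 2))) * |b - a|) (𝓝[>] (0 : ℝ))
      (𝓝 ((M * (2 * 0) / (m / 2 * (m / 2))) * |b - a|)) := by
    have h9 : Continuous (fun s : ℝ => (M * (2 * s) / (m / 2 * (m / 2))) * |b - a|) := by
      fun_prop
    exact (h9.tendsto 0).mono_left nhdsWithin_le_nhds
  simpa using h8

lemma jump_near {ζ ζ' : ℝ → ℂ} (hd : ∀ t, HasDerivAt ζ (ζ' t) t) (hc : Continuous ζ')
    {t0 e : ℝ} (he : 0 < e) (h0 : ζ t0 = 0) {σ : ℝ} (hσ : σ = 1 ∨ σ = -1)
    (hpos : ∀ t ∈ Ioc t0 (t0 + e), 0 < σ * (ζ t).im)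
    (hneg : ∀ t ∈ Ico (t0 - e) t0, σ * (ζ t).im < 0) :
    Tendsto (fun s : ℝ => (∫ t in (t0 - e)..(t0 + e), ζ' t / (ζ t - s)) -
      ∫ t in (t0 - e)..(t0 + e), ζ' t / (ζ t + s))
      (𝓝[>] (0 : ℝ)) (𝓝 (-(σ : ℂ) * (2 * Real.pi * Complex.I))) := by
  have hζ : Continuous ζ := continuous_iff_continuousAt.2 fun t => (hd t).continuousAt
  have him : ∀ t ∈ Icc (t0 - e) (t0 + e), t ≠ t0 → (ζ t).im ≠ 0 := by
    intro t ht hne h
    rcases lt_or_gt_of_ne hne with h1 | h1
    · have := hneg t ⟨ht.1, h1⟩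
      rw [h, mul_zero] at this
      exact lt_irrefl _ this
    · have := hpos t ⟨h1, ht.2⟩
      rw [h, mul_zero] at this
      exact lt_irrefl _ this
  have hle : t0 - e ≤ t0 + e := by linarith
  have hz1 : (ζ (t0 + e)).im ≠ 0 := him _ (right_mem_Icc.2 hle) (by linarith)
  have hz0 : (ζ (t0 - e)).im ≠ 0 := him _ (left_mem_Icc.2 hle) (by linarith)
  -- membership in the slit plane
  have hsl1 : ∀ s : ℝ, 0 < s → ∀ t ∈ Icc (t0 - e) (t0 + e), (s : ℂ) - ζ t ∈ Complex.slitPlane := by
    intro s hs t ht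
    by_cases htt : t = t0
    · rw [htt, h0, sub_zero]
      exact Complex.ofReal_mem_slitPlane.2 hs
    · right
      have := him t ht htt
      simpa using this
  have hsl2 : ∀ s : ℝ, 0 < s → ∀ t ∈ Icc (t0 - e) (t0 + e), (s : ℂ) + ζ t ∈ Complex.slitPlane := by
    intro s hs t ht
    by_cases htt : t = t0
    · rw [htt, h0, add_zero]
      exact Complex.ofReal_mem_slitPlane.2 hs
    · right
      have := him t ht htt
      simpa using this
  have hI1 : ∀ s : ℝ, 0 < s → ∫ t in (t0 - e)..(t0 + e), ζ' t / (ζ t - s) =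
      Complex.log (s - ζ (t0 + e)) - Complex.log (s - ζ (t0 - e)) := by
    intro s hs
    apply intervalIntegral.integral_eq_sub_of_hasDerivAt (f := fun t => Complex.log (s - ζ t))
    · intro t ht
      rw [uIcc_of_le hle] at ht
      have h1 : HasDerivAt (fun t => (s : ℂ) - ζ t) (-(ζ' t)) t := by
        simpa using (hd t).const_sub (s : ℂ)
      have h2 := h1.clog_real (hsl1 s hs t ht)
      refine h2.congr_deriv ?_
      rw [← neg_sub (ζ t) (s : ℂ), neg_div_neg_eq]
    · apply ContinuousOn.intervalIntegrable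
      rw [uIcc_of_le hle]
      apply hc.continuousOn.div (hζ.sub continuous_const).continuousOn
      intro t ht h
      have := hsl1 s hs t ht
      have h' : ζ t - s = 0 := h
      rw [← neg_sub, h', neg_zero] at this
      exact Complex.slitPlane_ne_zero this rfl
  have hI2 : ∀ s : ℝ, 0 < s → ∫ t in (t0 - e)..(t0 + e), ζ' t / (ζ t + s) =
      Complex.log (s + ζ (t0 + e)) - Complex.log (s + ζ (t0 - e)) := by
    intro s hs
    apply intervalIntegral.integral_eq_sub_of_hasDerivAt (f := fun t => Complex.log (s + ζ t))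
    · intro t ht
      rw [uIcc_of_le hle] at ht
      have h1 : HasDerivAt (fun t => (s : ℂ) + ζ t) (ζ' t) t := by
        simpa using (hd t).const_add (s : ℂ)
      have h2 := h1.clog_real (hsl2 s hs t ht)
      refine h2.congr_deriv ?_
      rw [add_comm]
    · apply ContinuousOn.intervalIntegrable
      rw [uIcc_of_le hle]
      apply hc.continuousOn.div (hζ.add continuous_const).continuousOn
      intro t ht h
      have := hsl2 s hs t ht
      have h' : ζ t + s = 0 := h
      rw [add_comm, h'] at this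
      exact Complex.slitPlane_ne_zero this rfl
  have hcont : ∀ z : ℂ, z.im ≠ 0 → Tendsto (fun s : ℝ => Complex.log (s + z)) (𝓝[>] (0 : ℝ))
      (𝓝 (Complex.log z)) := by
    intro z hz
    have h1 : ContinuousAt (fun s : ℝ => Complex.log (s + z)) 0 := by
      apply ContinuousAt.clog
      · fun_prop
      · right; simpa using hz
    have h2 := h1.tendsto
    simp only [Complex.ofReal_zero, zero_add] at h2
    exact h2.mono_left nhdsWithin_le_nhds
  have hlim : Tendsto (fun s : ℝ => (Complex.log (s + -ζ (t0 + e)) - Complex.log (s + -ζ (t0 - e))) -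
      (Complex.log (s + ζ (t0 + e)) - Complex.log (s + ζ (t0 - e)))) (𝓝[>] (0 : ℝ))
      (𝓝 ((Complex.log (-ζ (t0 + e)) - Complex.log (-ζ (t0 - e))) -
      (Complex.log (ζ (t0 + e)) - Complex.log (ζ (t0 - e))))) := by
    refine ((hcont _ ?_).sub (hcont _ ?_)).sub ((hcont _ hz1).sub (hcont _ hz0))
    · simpa using hz1
    · simpa using hz0
  have hval : (Complex.log (-ζ (t0 + e)) - Complex.log (-ζ (t0 - e))) -
      (Complex.log (ζ (t0 + e)) - Complex.log (ζ (t0 - e))) =
      -(σ : ℂ) * (2 * Real.pi * Complex.I) := by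
    have h3 : (Complex.log (-ζ (t0 + e)) - Complex.log (-ζ (t0 - e))) -
      (Complex.log (ζ (t0 + e)) - Complex.log (ζ (t0 - e))) =
      (Complex.log (-ζ (t0 + e)) - Complex.log (ζ (t0 + e))) -
      (Complex.log (-ζ (t0 - e)) - Complex.log (ζ (t0 - e))) := by ring
    have hp := hpos (t0 + e) ⟨by linarith, le_rfl⟩
    have hn := hneg (t0 - e) ⟨le_rfl, by linarith⟩
    rw [h3]
    rcases hσ with h | h
    · rw [h] at hp hn
      rw [log_neg_sub_pos (by linarith : 0 < (ζ (t0 + e)).im),
        log_neg_sub_neg (by linarith : (ζ (t0 - e)).im < 0), h]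
      push_cast
      ring
    · rw [h] at hp hn
      rw [log_neg_sub_neg (by linarith : (ζ (t0 + e)).im < 0),
        log_neg_sub_pos (by linarith : 0 < (ζ (t0 - e)).im), h]
      push_cast
      ring
  rw [hval] at hlim
  refine hlim.congr' ?_
  filter_upwards [self_mem_nhdsWithin] with s hs
  rw [hI1 s hs, hI2 s hs]
  simp only [sub_eq_add_neg]

lemma jumpC {ζ ζ' : ℝ → ℂ} (hd : ∀ t, HasDerivAt ζ (ζ' t) t) (hc : Continuous ζ')
    {L : ℝ} (hL : 0 < L) (hper : ∀ t, ζ (t + L) = ζ t) (hper' : ∀ t, ζ' (t + L) = ζ' t)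
    {t0 : ℝ} (h0 : ζ t0 = 0) (hne : ∀ t ∈ Ioo t0 (t0 + L), ζ t ≠ 0) (hκ : (ζ' t0).im ≠ 0) :
    ∀ᶠ s : ℝ in 𝓝[>] (0 : ℝ), (∫ t in (0 : ℝ)..L, ζ' t / (ζ t - s)) ≠
      ∫ t in (0 : ℝ)..L, ζ' t / (ζ t + s) := by
  have hζ : Continuous ζ := continuous_iff_continuousAt.2 fun t => (hd t).continuousAt
  -- the sign
  obtain ⟨σ, hσ, hσκ⟩ : ∃ σ : ℝ, (σ = 1 ∨ σ = -1) ∧ 0 < σ * (ζ' t0).im := by
    rcases lt_or_gt_of_ne (a := (ζ' t0).im) (b := (0 : ℝ)) hκ with h | h
    · exact ⟨-1, Or.inr rfl, by linarith⟩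
    · exact ⟨1, Or.inl rfl, by linarith⟩
  have hcim : Continuous fun t => σ * (ζ' t).im := by fun_prop
  obtain ⟨r, hr0, hr⟩ : ∃ r > 0, ∀ t, |t - t0| < r → 0 < σ * (ζ' t).im := by
    have h1 : ∀ᶠ t in 𝓝 t0, 0 < σ * (ζ' t).im := 
      (hcim.tendsto t0).eventually (lt_mem_nhds hσκ)
    obtain ⟨r, hr0, hr⟩ := Metric.eventually_nhds_iff.1 h1
    exact ⟨r, hr0, fun t ht => hr (by rwa [Real.dist_eq])⟩
  set e := min r L / 3 with he
  have he0 : 0 < e := by rw [he]; positivity
  have her : e < r := by rw [he]; have := min_le_left r L; linarith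
  have heL : 2 * e < L := by rw [he]; have := min_le_right r L; linarith
  have hmono : StrictMonoOn (fun t => σ * (ζ t).im) (Icc (t0 - e) (t0 + e)) := by
    apply strictMonoOn_of_deriv_pos (convex_Icc _ _)
    · fun_prop
    · intro t ht
      rw [interior_Icc] at ht
      have h2 : HasDerivAt (fun t => σ * (ζ t).im) (σ * (ζ' t).im) t := by
        have h3 : HasDerivAt (fun t => (ζ t).im) (ζ' t).im t := by
          exact (Complex.imCLM.hasFDerivAt.comp_hasDerivAt t (hd t))
        exact h3.const_mul σ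
      rw [h2.deriv]
      apply hr
      rw [abs_lt]
      exact ⟨by linarith [ht.1], by linarith [ht.2]⟩
  have hpos : ∀ t ∈ Ioc t0 (t0 + e), 0 < σ * (ζ t).im := by
    intro t ht
    have h4 := hmono (a := t0) ⟨by linarith, by linarith⟩ (b := t) ⟨by linarith [ht.1], ht.2⟩ ht.1
    simpa [h0] using h4
  have hneg : ∀ t ∈ Ico (t0 - e) t0, σ * (ζ t).im < 0 := by
    intro t ht
    have h4 := hmono (a := t) ⟨ht.1, by linarith [ht.2]⟩ (b := t0) ⟨by linarith, by linarith⟩ ht.2
    simpa [h0] using h4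
  have hnear := jump_near hd hc he0 h0 hσ hpos hneg
  have hfar := jump_far hζ hc (a := t0 + e) (b := t0 - e + L) (by linarith) (fun t ht =>
    hne t ⟨by linarith [ht.1], by linarith [ht.2]⟩)
  have hsum := hnear.add hfar
  rw [add_zero] at hsum
  have hne0 : -(σ : ℂ) * (2 * Real.pi * Complex.I) ≠ 0 := by
    have h5 : (σ : ℂ) ≠ 0 := by
      rcases hσ with h | h
      · rw [h]; simp
      · rw [h]; simp
    have h6 : (Real.pi : ℂ) ≠ 0 := by exact_mod_cast Real.pi_ne_zero
    exact mul_ne_zero (neg_ne_zero.2 h5)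
      (mul_ne_zero (mul_ne_zero two_ne_zero h6) Complex.I_ne_zero)
  have hev := hsum.eventually_ne hne0
  -- a lower bound of `ζ` on the far part, for integrability
  obtain ⟨m, hm0, hm⟩ : ∃ m : ℝ, 0 < m ∧ ∀ t ∈ Icc (t0 + e) (t0 - e + L), m ≤ ‖ζ t‖ := by
    obtain ⟨t1, ht1, hmin⟩ := isCompact_Icc.exists_isMinOn
      (nonempty_Icc.2 (by linarith : t0 + e ≤ t0 - e + L))
      (hζ.norm.continuousOn (s := Icc (t0 + e) (t0 - e + L)))
    exact ⟨‖ζ t1‖, norm_pos_iff.2 (hne t1 ⟨by linarith [ht1.1], by linarith [ht1.2]⟩),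
      fun t ht => hmin ht⟩
  have hsm : ∀ᶠ s in 𝓝[>] (0 : ℝ), s ∈ Ioo (0 : ℝ) m := Ioo_mem_nhdsGT hm0
  filter_upwards [hev, hsm] with s hs1 hs2 heq
  apply hs1
  have hs0 : ‖(s : ℂ)‖ = s := by rw [Complex.norm_real, Real.norm_eq_abs, abs_of_pos hs2.1]
  -- periodicity of the integrands
  have hp1 : Function.Periodic (fun t => ζ' t / (ζ t - s)) L := fun t => by
    simp only [hper, hper']
  have hp2 : Function.Periodic (fun t => ζ' t / (ζ t + s)) L := fun t => by
    simp only [hper, hper']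
  have hz1 := hp1.intervalIntegral_add_eq 0 (t0 - e)
  have hz2 := hp2.intervalIntegral_add_eq 0 (t0 - e)
  rw [zero_add] at hz1 hz2
  have hnz1 : ∀ t ∈ Icc (t0 - e) (t0 - e + L), ζ t - s ≠ 0 ∧ ζ t + s ≠ 0 := by
    intro t ht
    by_cases htn : t ≤ t0 + e
    · by_cases htt : t = t0
      · rw [htt, h0, zero_sub, zero_add]
        have : (s : ℂ) ≠ 0 := by exact_mod_cast hs2.1.ne'
        exact ⟨neg_ne_zero.2 this, this⟩
      · have him : (ζ t).im ≠ 0 := by
          intro h
          rcases lt_or_gt_of_ne htt with h1 | h1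
          · have := hneg t ⟨ht.1, h1⟩
            rw [h, mul_zero] at this
            exact lt_irrefl _ this
          · have := hpos t ⟨h1, htn⟩
            rw [h, mul_zero] at this
            exact lt_irrefl _ this
        constructor
        · intro h
          apply him
          have := congrArg Complex.im h
          simpa using this
        · intro h
          apply him
          have := congrArg Complex.im h
          simpa using this
    · push Not at htn
      have h7 := hm t ⟨htn.le, ht.2⟩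
      constructor
      · intro h
        rw [sub_eq_zero] at h
        rw [h, hs0] at h7
        linarith [hs2.2]
      · intro h
        rw [add_eq_zero_iff_eq_neg] at h
        rw [h, norm_neg, hs0] at h7
        linarith [hs2.2]
  have hint1 : ∀ a b, t0 - e ≤ a → a ≤ b → b ≤ t0 - e + L →
      IntervalIntegrable (fun t => ζ' t / (ζ t - s)) MeasureTheory.volume a b := by
    intro a b ha hab hb
    apply ContinuousOn.intervalIntegrable
    rw [uIcc_of_le hab]
    exact hc.continuousOn.div (hζ.sub continuous_const).continuousOn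
      (fun t ht => (hnz1 t ⟨ha.trans ht.1, ht.2.trans hb⟩).1)
  have hint2 : ∀ a b, t0 - e ≤ a → a ≤ b → b ≤ t0 - e + L →
      IntervalIntegrable (fun t => ζ' t / (ζ t + s)) MeasureTheory.volume a b := by
    intro a b ha hab hb
    apply ContinuousOn.intervalIntegrable
    rw [uIcc_of_le hab]
    exact hc.continuousOn.div (hζ.add continuous_const).continuousOn
      (fun t ht => (hnz1 t ⟨ha.trans ht.1, ht.2.trans hb⟩).2)
  have hsp1 := intervalIntegral.integral_add_adjacent_intervals
    (hint1 (t0 - e) (t0 + e) le_rfl (by linarith) (by linarith))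
    (hint1 (t0 + e) (t0 - e + L) (by linarith) (by linarith) le_rfl)
  have hsp2 := intervalIntegral.integral_add_adjacent_intervals
    (hint2 (t0 - e) (t0 + e) le_rfl (by linarith) (by linarith))
    (hint2 (t0 + e) (t0 - e + L) (by linarith) (by linarith) le_rfl)
  have h8 : (∫ t in (t0 - e)..(t0 - e + L), ζ' t / (ζ t - s)) =
      ∫ t in (t0 - e)..(t0 - e + L), ζ' t / (ζ t + s) := by
    rw [← hz1, ← hz2]; exact heq
  rw [← hsp1, ← hsp2] at h8
  linear_combination h8

end Jump

theorem wind_jump {γ : ℝ → Plane} (hγ : ContDiff ℝ 1 γ) {L : ℝ} (hL : 0 < L)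
    (hper : ∀ t, γ (t + L) = γ t) {t0 : ℝ} (hs : ∀ t ∈ Ioo t0 (t0 + L), γ t ≠ γ t0) {ν : Plane}
    (hν : det2 (deriv γ t0) ν ≠ 0) :
    ∀ᶠ s in 𝓝[>] (0 : ℝ), wind γ L (γ t0 + s • ν) ≠ wind γ L (γ t0 - s • ν) := by
  have hn : toC ν ≠ 0 := by
    intro h
    apply hν
    have h1 := congrArg Complex.re h
    have h2 := congrArg Complex.im h
    simp only [toC, Complex.zero_re, Complex.zero_im] at h1 h2
    simp [det2, h1, h2]
  have toC_sub : ∀ a b : Plane, toC (a - b) = toC a - toC b := by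
    intro a b; apply Complex.ext <;> simp [toC]
  have toC_add : ∀ a b : Plane, toC (a + b) = toC a + toC b := by
    intro a b; apply Complex.ext <;> simp [toC]
  have toC_smul : ∀ (r : ℝ) (a : Plane), toC (r • a) = r * toC a := by
    intro r a; apply Complex.ext <;> simp [toC]
  let T : Plane →L[ℝ] ℂ := LinearMap.toContinuousLinearMap
    { toFun := toC
      map_add' := toC_add
      map_smul' := fun r a => by rw [toC_smul]; simp }
  have hT : ∀ x, T x = toC x := fun x => rfl
  have hdγ : ∀ t, HasDerivAt γ (deriv γ t) t := fun t =>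
    (hγ.differentiable one_ne_zero t).hasDerivAt
  have hcγ : Continuous (deriv γ) := hγ.continuous_deriv le_rfl
  have hperd : ∀ t, deriv γ (t + L) = deriv γ t := by
    intro t
    have h1 : (fun t => γ (t + L)) = γ := funext hper
    have h2 := deriv_comp_add_const (f := γ) L t
    rw [h1] at h2
    exact h2.symm
  have key := jumpC (ζ := fun t => toC (γ t - γ t0) / toC ν) (ζ' := fun t => toC (deriv γ t) / toC ν)
    (fun t => by
      have h1 : HasDerivAt (fun t => γ t - γ t0) (deriv γ t) t := (hdγ t).sub_const _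
      have h2 := (T.hasFDerivAt.comp_hasDerivAt t h1)
      have h3 : HasDerivAt (fun t => toC (γ t - γ t0)) (toC (deriv γ t)) t := h2
      exact h3.div_const _)
    (by
      have h1 : Continuous fun t => T (deriv γ t) := T.continuous.comp hcγ
      exact h1.div_const _)
    hL (fun t => by simp only [hper]) (fun t => by simp only [hperd])
    (t0 := t0) (by
      have h1 : toC (γ t0 - γ t0) = 0 := by rw [toC_sub, sub_self]
      simp only [h1, zero_div])
    (by
      intro t ht h
      rw [div_eq_zero_iff] at h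
      rcases h with h | h
      · apply hs t ht
        rw [toC_sub, sub_eq_zero] at h
        have h1 := congrArg Complex.re h
        have h2 := congrArg Complex.im h
        simp only [toC] at h1 h2
        ext i
        fin_cases i
        · exact h1
        · exact h2
      · exact hn h)
    (by
      intro h
      apply hν
      rw [Complex.div_im] at h
      have hq : Complex.normSq (toC ν) ≠ 0 := fun h' => hn (Complex.normSq_eq_zero.1 h')
      simp only [toC] at h hq
      field_simp at h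
      unfold det2
      linarith)
  filter_upwards [key] with s hs'
  intro heq
  apply hs'
  have e1 : ∀ t, toC (deriv γ t) / toC ν / (toC (γ t - γ t0) / toC ν - s) =
      toC (deriv γ t) / toC (γ t - (γ t0 + s • ν)) := by
    intro t
    have h1 : toC (γ t - (γ t0 + s • ν)) = toC (γ t - γ t0) - s * toC ν := by
      rw [toC_sub, toC_add, toC_smul, toC_sub]; ring
    have h2 : toC (γ t - γ t0) / toC ν - s = (toC (γ t - γ t0) - s * toC ν) / toC ν := by
      field_simp
    rw [h1, h2, div_div_div_cancel_right₀ hn]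
  have e2 : ∀ t, toC (deriv γ t) / toC ν / (toC (γ t - γ t0) / toC ν + s) =
      toC (deriv γ t) / toC (γ t - (γ t0 - s • ν)) := by
    intro t
    have h1 : toC (γ t - (γ t0 - s • ν)) = toC (γ t - γ t0) + s * toC ν := by
      rw [toC_sub, toC_sub, toC_smul, toC_sub]; ring
    have h2 : toC (γ t - γ t0) / toC ν + s = (toC (γ t - γ t0) + s * toC ν) / toC ν := by
      field_simp
    rw [h1, h2, div_div_div_cancel_right₀ hn]
  unfold wind at heq
  simp only [e1, e2]
  exact heq

end Pool.Agent.Lib_MP_752436_tp
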