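import Pool.Agent.Lib_MP_752436_tp.Box
import Pool.Agent.Lib_MP_752436_tp.WindConst
import Pool.Agent.Lib_MP_752436_tp.WindJump

/-!
Piece PJ: BoxJump.lean.
-/

open Metric Set Filter
open scoped ContDiff Topology

namespace Pool.Agent.Lib_MP_752436_tp

open Pool.Agent.Lib_MP_752436_gt

theorem periodic_reduce {L : ℝ} (hL : 0 < L) (a s : ℝ) : ∃ n : ℤ, s + n * L ∈ Ico a (a + L) := by
  refine ⟨-⌊(s - a) / L⌋, ?_⟩
  have h1 := Int.floor_le ((s - a) / L)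
  have h2 := Int.lt_floor_add_one ((s - a) / L)
  rw [le_div_iff₀ hL] at h1
  rw [div_lt_iff₀ hL] at h2
  push_cast
  constructor
  · nlinarith
  · nlinarith

theorem periodic_int {γ : ℝ → Plane} {L : ℝ} (hper : ∀ t, γ (t + L) = γ t) (s : ℝ) (n : ℤ) :
    γ (s + n * L) = γ s := by
  have hp : Function.Periodic γ L := hper
  have := hp.int_mul n s
  exact this

theorem exists_jumpBox {γ : ℝ → Plane} (hγ : ContDiff ℝ 1 γ) {L : ℝ} (hL : 0 < L)
    (hper : ∀ t, γ (t + L) = γ t) {t0 : ℝ} (hs : ∀ t ∈ Ioo t0 (t0 + L), γ t ≠ γ t0) {ν : Plane}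
    (hν : det2 (deriv γ t0) ν ≠ 0) {O : Set Plane} (hO : O ∈ 𝓝 (γ t0)) {η0 : ℝ} (h0 : 0 < η0) :
    ∃ η, 0 < η ∧ η ≤ η0 ∧ ∃ N P M, SideBox N P M (γ '' Ioo (t0 - η) (t0 + η)) ∧ γ t0 ∈ N ∧
      N ⊆ O ∧ N ∩ range γ ⊆ γ '' Ioo (t0 - η) (t0 + η) ∧
      (∀ p ∈ P, ∀ q ∈ M, wind γ L p ≠ wind γ L q) ∧
      ∀ (δ : ℝ → Plane) (r0 : ℝ), HasDerivAt δ ν r0 → δ r0 = γ t0 →
        ∀ᶠ s in 𝓝[>] (0 : ℝ), δ (r0 + s) ∈ P ∧ δ (r0 - s) ∈ M := by
  obtain ⟨η1, hη1, hη10, hbox⟩ := exists_sideBox hγ hν (lt_min h0 (half_pos hL))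
  have hη1a : η1 ≤ η0 := hη10.trans (min_le_left _ _)
  have hη1b : η1 ≤ L / 2 := hη10.trans (min_le_right _ _)
  set C : Set Plane := γ '' Icc (t0 + η1) (t0 + L - η1) with hC
  have hCc : IsClosed C := (isCompact_Icc.image hγ.continuous).isClosed
  have hCn : γ t0 ∉ C := by
    rintro ⟨t, ht, htt⟩
    exact hs t ⟨by linarith [ht.1], by linarith [ht.2]⟩ htt
  obtain ⟨η, hη, hηη1, N, P, M, hb, htN, hNO, hNA, hcross⟩ :=
    hbox (O ∩ Cᶜ) (inter_mem hO (hCc.isOpen_compl.mem_nhds hCn))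
  have hNr : N ∩ range γ ⊆ γ '' Ioo (t0 - η) (t0 + η) := by
    rintro x ⟨hxN, s, rfl⟩
    obtain ⟨n, hn⟩ := periodic_reduce hL (t0 - η1) s
    have he := periodic_int hper s n
    set r := s + n * L with hr
    rw [← he] at hxN ⊢
    have hrC : γ r ∉ C := (hNO hxN).2
    apply hNA
    refine ⟨hxN, ?_⟩
    by_cases hlt : r < t0 + η1
    · by_cases hgt : t0 - η1 < r
      · exact ⟨r, ⟨hgt, hlt⟩, rfl⟩
      · -- `r = t0 - η1`, equivalent to `t0 + L - η1`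
        exfalso
        have hre : r = t0 - η1 := le_antisymm (not_lt.1 hgt) hn.1
        apply hrC
        refine ⟨t0 + L - η1, ⟨by linarith, le_rfl⟩, ?_⟩
        have : t0 + L - η1 = r + L := by rw [hre]; ring
        rw [this, hper]
    · exfalso
      apply hrC
      exact ⟨r, ⟨not_lt.1 hlt, by linarith [hn.2]⟩, rfl⟩
  refine ⟨η, hη, hηη1.trans hη1a, N, P, M, hb, htN, fun x hx => (hNO hx).1, hNr, ?_, hcross⟩
  have hcl : γ L = γ 0 := by simpa using hper 0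
  have hPN : P ⊆ N := by rw [hb.union]; exact fun x hx => Or.inl (Or.inl hx)
  have hMN : M ⊆ N := by rw [hb.union]; exact fun x hx => Or.inl (Or.inr hx)
  have hdP : Disjoint P (γ '' Icc 0 L) := Set.disjoint_left.2 fun x hx hx' =>
    (Set.disjoint_left.1 hb.disjPA hx) (hNr ⟨hPN hx, image_subset_range _ _ hx'⟩)
  have hdM : Disjoint M (γ '' Icc 0 L) := Set.disjoint_left.2 fun x hx hx' =>
    (Set.disjoint_left.1 hb.disjMA hx) (hNr ⟨hMN hx, image_subset_range _ _ hx'⟩)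
  have hδ : HasDerivAt (fun s : ℝ => γ t0 + s • ν) ν 0 := by
    have h1 := (hasDerivAt_id (0 : ℝ)).smul_const ν
    simpa using h1.const_add (γ t0)
  have hev := hcross (fun s => γ t0 + s • ν) 0 hδ (by simp)
  have hj := wind_jump hγ hL hper hs hν
  obtain ⟨s, ⟨hs1, hs2⟩, hs3⟩ := (hev.and hj).exists
  simp only [zero_add, zero_sub] at hs1 hs2
  have hs2' : γ t0 - s • ν ∈ M := by
    rw [neg_smul, ← sub_eq_add_neg] at hs2
    exact hs2
  intro p hp q hq hpq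
  apply hs3
  rw [wind_const hγ hL hcl hb.connP hdP hs1 hp, wind_const hγ hL hcl hb.connM hdM hs2' hq]
  exact hpq

end Pool.Agent.Lib_MP_752436_tp
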