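import Pool.Agent.Lib_MP_752436_gt.DiagramDefs

/-!
Double curves and triple points of the projection of a slice disc.
-/

open Metric Set
open scoped ContDiff

namespace Pool.Agent.Lib_MP_752436_tp

open Pool.Agent.Lib_MP_752436_gt

/-- The Euclidean plane. -/
abbrev Plane : Type := EuclideanSpace ℝ (Fin 2)

/-- The Euclidean space. -/
abbrev Space : Type := EuclideanSpace ℝ (Fin 3)

/-- The double curves of the projection of the disc `F` to `R^3`: the pairs `(x, y)` of points of
the closed unit disc with the same projection such that `x` lies above `y`. -/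
def DoubleSet (F : Plane → EuclideanSpace ℝ (Fin 4)) : Set (Plane × Plane) :=
  {p | p.1 ∈ closedBall 0 1 ∧ p.2 ∈ closedBall 0 1 ∧ shadow F p.1 = shadow F p.2 ∧
    F p.2 3 < F p.1 3}

/-- The pairs `p` and `q` lie on the same double curve (connected component of the double
set). -/
def SameCurve (F : Plane → EuclideanSpace ℝ (Fin 4)) (p q : Plane × Plane) : Prop :=
  q ∈ connectedComponentIn (DoubleSet F) p

/-- The double curve of `p` is closed: it contains no pair whose lower point lies on the unit
circle. -/
def ClosedCurve (F : Plane → EuclideanSpace ℝ (Fin 4)) (p : Plane × Plane) : Prop :=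
  ∀ q, SameCurve F p q → q.2 ∈ ball (0 : Plane) 1

/-- The points `x` (top), `y` (middle), `z` (bottom) of the disc form a triple point of the
projection. -/
def Triple (F : Plane → EuclideanSpace ℝ (Fin 4)) (x y z : Plane) : Prop :=
  (x, y) ∈ DoubleSet F ∧ (y, z) ∈ DoubleSet F

/-- The bottom points of the triple points; they correspond to the triple points if there are no
quadruple points. -/
def triplePoints (F : Plane → EuclideanSpace ℝ (Fin 4)) : Set Plane :=
  {z | ∃ x y, Triple F x y z}

/-- A set `S` of (bottom points of) triple points is locked if it is nonempty and for every triple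
point of `S` the middle-bottom curve is the top-middle curve of two different triple points of `S`,
or it is closed and a second triple point of `S` has the same top-middle curve and the same
middle-bottom curve. -/
structure Locked (F : Plane → EuclideanSpace ℝ (Fin 4)) (S : Set Plane) : Prop where
  nonempty : S.Nonempty
  sub : S ⊆ triplePoints F
  lock : ∀ x y z, Triple F x y z → z ∈ S →
    (∃ x₁ y₁ z₁ x₂ y₂ z₂, Triple F x₁ y₁ z₁ ∧ Triple F x₂ y₂ z₂ ∧ z₁ ∈ S ∧ z₂ ∈ S ∧ z₁ ≠ z₂ ∧
      SameCurve F (y, z) (x₁, y₁) ∧ SameCurve F (y, z) (x₂, y₂)) ∨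
    (ClosedCurve F (y, z) ∧ ∃ x₁ y₁ z₁, Triple F x₁ y₁ z₁ ∧ z₁ ∈ S ∧ z₁ ≠ z ∧
      SameCurve F (x, y) (x₁, y₁) ∧ SameCurve F (y, z) (y₁, z₁))

/-- The derivative at `x` in the direction `u` of the projection of the disc `F` to `R^3`. -/
noncomputable def dproj (F : Plane → EuclideanSpace ℝ (Fin 4)) (x u : Plane) : Space :=
  fderiv ℝ (shadow F) x u

/-- The projection of the slice disc `F` to `R^3` is in general position: it is an immersion of
the closed disc, two sheets meet transversally, the boundary knot meets the sheets transversally,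
three sheets meet transversally, and no four sheets meet. -/
structure InGeneralPosition (F : Plane → EuclideanSpace ℝ (Fin 4)) : Prop where
  immersion : ∀ x ∈ closedBall (0 : Plane) 1, ∀ u, dproj F x u = 0 → u = 0
  double : ∀ x y, (x, y) ∈ DoubleSet F → ∀ v, ∃ u w, dproj F x u + dproj F y w = v
  boundary : ∀ x y, (x, y) ∈ DoubleSet F → ‖y‖ = 1 → ∀ u w, inner ℝ y w = 0 →
    dproj F x u = dproj F y w → w = 0
  triple : ∀ x y z, Triple F x y z → ∀ u v w, dproj F x u = dproj F y v →
    dproj F y v = dproj F z w → u = 0
  quadruple : ∀ x y z w, Triple F x y z → ¬ Triple F y z w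

end Pool.Agent.Lib_MP_752436_tp
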