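import Pool.Agent.Lib_MP_752436_tp.Defs
import Pool.Agent.Lib_MP_752436_gt.CurvDefs

/-!
Working definitions: parametrised double curves, hulls, side boxes, winding numbers, the vector
field along the double curves.
-/

open Metric Set Filter
open scoped ContDiff Topology

namespace Pool.Agent.Lib_MP_752436_tp

open Pool.Agent.Lib_MP_752436_gt

/-- Working form of `InGeneralPosition`: the projection is an immersion of
the closed disc, two sheets meet transversally, the boundary knot meets the sheets transversally,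
three sheets meet transversally, and no four sheets meet. -/
structure GeneralPosition (F : Plane → EuclideanSpace ℝ (Fin 4)) : Prop where
  immersion : ∀ x ∈ closedBall (0 : Plane) 1, Function.Injective (fderiv ℝ (shadow F) x)
  double : ∀ x y, (x, y) ∈ DoubleSet F → ∀ v, ∃ u w,
    fderiv ℝ (shadow F) x u + fderiv ℝ (shadow F) y w = v
  boundary : ∀ x y, (x, y) ∈ DoubleSet F → y ∈ sphere 0 1 → ∀ u w, inner ℝ y w = 0 →
    fderiv ℝ (shadow F) x u = fderiv ℝ (shadow F) y w → w = 0
  triple : ∀ x y z, Triple F x y z → ∀ u v w,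
    fderiv ℝ (shadow F) x u = fderiv ℝ (shadow F) y v →
    fderiv ℝ (shadow F) y v = fderiv ℝ (shadow F) z w → u = 0
  quadruple : ∀ x y z w, Triple F x y z → ¬ Triple F y z w

theorem InGeneralPosition.generalPosition {F : Plane → EuclideanSpace ℝ (Fin 4)}
    (h : InGeneralPosition F) : GeneralPosition F where
  immersion := fun x hx => by
    rw [injective_iff_map_eq_zero]
    exact h.immersion x hx
  double := h.double
  boundary := fun x y hxy hy u w hw he => h.boundary x y hxy (mem_sphere_zero_iff_norm.1 hy) u w hw he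
  triple := h.triple
  quadruple := h.quadruple

/-- The determinant of two vectors of the plane. -/
def det2 (a b : Plane) : ℝ := a 0 * b 1 - a 1 * b 0

/-- A point of the plane as a complex number. -/
def toC (x : Plane) : ℂ := ⟨x 0, x 1⟩

/-- `2 pi i` times the winding number around `p` of the closed curve `γ` on `[0, L]`. -/
noncomputable def wind (γ : ℝ → Plane) (L : ℝ) (p : Plane) : ℂ :=
  ∫ t in (0 : ℝ)..L, toC (deriv γ t) / toC (γ t - p)

/-- The complement of the unbounded component of the complement of `X` (for compact `X`). -/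
def hull (X : Set Plane) : Set Plane :=
  {p | ∀ S : Set Plane, IsPreconnected S → p ∈ S → Disjoint S X → Bornology.IsBounded S}

/-- A neighbourhood `N` cut by the open arc `A` into the two sides `P` and `M`. -/
structure SideBox (N P M A : Set Plane) : Prop where
  openN : IsOpen N
  openP : IsOpen P
  openM : IsOpen M
  connP : IsPreconnected P
  connM : IsPreconnected M
  union : N = P ∪ M ∪ A
  disjPM : Disjoint P M
  disjPA : Disjoint P A
  disjMA : Disjoint M A
  closP : A ⊆ closure P
  closM : A ⊆ closure M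

/-- A family of parametrised curves in `Plane × Plane`; curve `i` is defined on the interval
`[0, len i]`, or on the whole line if it is closed. -/
structure Curves (ι : Type) where
  c : ι → ℝ → Plane × Plane
  len : ι → ℝ
  closed : ι → Prop

namespace Curves

variable {ι : Type}

/-- The domain of the curve. -/
def dom (G : Curves ι) (i : ι) : Set ℝ := {t | G.closed i ∨ t ∈ Icc 0 (G.len i)}

/-- The upper curve. -/
def fst (G : Curves ι) (i : ι) (t : ℝ) : Plane := (G.c i t).1

/-- The lower curve. -/
def snd (G : Curves ι) (i : ι) (t : ℝ) : Plane := (G.c i t).2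

/-- The image of the upper curve. -/
def up (G : Curves ι) (i : ι) : Set Plane := G.fst i '' Icc 0 (G.len i)

/-- The image of the lower curve. -/
def low (G : Curves ι) (i : ι) : Set Plane := G.snd i '' Icc 0 (G.len i)

open Classical in
/-- Interchange upper and lower point on the curves with `φ`. -/
noncomputable def flip (G : Curves ι) (φ : ι → Prop) : Curves ι where
  c := fun i t => if φ i then (G.c i t).swap else G.c i t
  len := G.len
  closed := G.closed

/-- The union of the images. -/
def support (G : Curves ι) : Set (Plane × Plane) := ⋃ i, G.c i '' Icc 0 (G.len i)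

end Curves

/-- `G` parametrises the set `D` of pairs: closed curves in the product of two open discs and
arcs, which start and end at pairs whose lower point is on the unit circle. -/
structure IsCurves {ι : Type} (G : Curves ι) (D : Set (Plane × Plane)) : Prop where
  pos : ∀ i, 0 < G.len i
  smooth : ∀ i, ContDiff ℝ 1 (G.c i)
  immFst : ∀ i, ∀ t ∈ G.dom i, deriv (G.fst i) t ≠ 0
  immSnd : ∀ i, ∀ t ∈ G.dom i, deriv (G.snd i) t ≠ 0
  cover : D = G.support
  disj : ∀ i j, i ≠ j → Disjoint (G.c i '' Icc 0 (G.len i)) (G.c j '' Icc 0 (G.len j))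
  periodic : ∀ i, G.closed i → ∀ t, G.c i (t + G.len i) = G.c i t
  injClosed : ∀ i, G.closed i → InjOn (G.c i) (Ico 0 (G.len i))
  injArc : ∀ i, ¬ G.closed i → InjOn (G.c i) (Icc 0 (G.len i))
  fstMem : ∀ i, ∀ t ∈ G.dom i, G.fst i t ∈ ball 0 1
  sndMem : ∀ i, ∀ t ∈ G.dom i, G.snd i t ∈ closedBall 0 1
  sndClosed : ∀ i, G.closed i → ∀ t, G.snd i t ∈ ball 0 1
  sndArc : ∀ i, ¬ G.closed i → ∀ t ∈ Ioo 0 (G.len i), G.snd i t ∈ ball 0 1
  ends : ∀ i, ¬ G.closed i → G.snd i 0 ∈ sphere 0 1 ∧ G.snd i (G.len i) ∈ sphere 0 1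

/-- A parametrised set of pairs `(x, y)`, read `x` above `y`, for which the argument against
traps works. -/
structure Good {ι : Type} (G : Curves ι) (D : Set (Plane × Plane)) : Prop where
  curves : IsCurves G D
  irrefl : ∀ x, (x, x) ∉ D
  trans : ∀ x y z, (x, y) ∈ D → (y, z) ∈ D → (x, z) ∈ D
  noFour : ∀ x y z w, (x, y) ∈ D → (y, z) ∈ D → (z, w) ∉ D
  comparable : ∀ x y z, (x, y) ∈ D → (x, z) ∈ D → y ≠ z → (y, z) ∈ D ∨ (z, y) ∈ D

/-- A closed curve none of whose lower points is the bottom of a triple point. -/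
def Free {ι : Type} (G : Curves ι) (D : Set (Plane × Plane)) (i : ι) : Prop :=
  G.closed i ∧ ∀ t x y, (x, y) ∈ D → (y, G.snd i t) ∉ D

/-- The vector with image `‖n‖ ^ 2 • N` under the derivative of `f` at `x`, for `N` orthogonal to
the normal vector `n`. -/
noncomputable def pull (f : Plane → Space) (x : Plane) (N : Space) : Plane :=
  !₂[inner ℝ (cross N (pd f 1 x)) (nvec f x), inner ℝ (cross (pd f 0 x) N) (nvec f x)]

/-- The vector field along the double curves of `f`. -/
noncomputable def field (f : Plane → Space) (p : Plane × Plane) : Plane × Plane :=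
  (‖nvec f p.2‖ ^ 2 • pull f p.1 (cross (nvec f p.1) (nvec f p.2)),
    ‖nvec f p.1‖ ^ 2 • pull f p.2 (cross (nvec f p.1) (nvec f p.2)))

/-- `Φ` is the flow of the vector field `v`. -/
structure IsFlow {E : Type*} [NormedAddCommGroup E] [NormedSpace ℝ E] (v : E → E)
    (Φ : ℝ → E → E) : Prop where
  zero : ∀ x, Φ 0 x = x
  deriv : ∀ x t, HasDerivAt (fun s => Φ s x) (v (Φ t x)) t
  add : ∀ s t x, Φ (s + t) x = Φ s (Φ t x)

/-- A cut off of the vector field along the double curves, which agrees with it near the product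
of the closed discs, with its flow. -/
structure CutFlow (f : Plane → Space) (v : Plane × Plane → Plane × Plane)
    (Φ : ℝ → Plane × Plane → Plane × Plane) : Prop where
  smooth : ContDiff ℝ 1 v
  parallel : ∀ p, fderiv ℝ f p.1 (v p).1 = fderiv ℝ f p.2 (v p).2
  agree : ∀ p : Plane × Plane, p.1 ∈ ball (0 : Plane) 2 → p.2 ∈ ball (0 : Plane) 2 →
    v p = field f p
  flow : IsFlow v Φ

/-- Hypotheses on a partially defined flow on a compact one dimensional space `D` with boundary
`B`. -/
structure OneDim {E : Type} [TopologicalSpace E] (D B : Set E) (Φ : ℝ → E → E) : Prop where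
  compact : IsCompact D
  sub : B ⊆ D
  zero : ∀ x, Φ 0 x = x
  add : ∀ s t x, Φ (s + t) x = Φ s (Φ t x)
  cont : ∀ x, Continuous fun t => Φ t x
  box : ∀ c ∈ D, ∀ η > 0, ∃ O ∈ 𝓝 c, ∀ p ∈ D ∩ O, ∃ t, |t| < η ∧ Φ t c = p
  stay : ∀ c ∈ D \ B, ∃ η > 0, ∀ t, |t| < η → Φ t c ∈ D
  bd : ∀ c ∈ B, ∃ η > 0, (∀ t ∈ Ioo 0 η, Φ t c ∉ D ∧ Φ (-t) c ∈ D \ B) ∨
    (∀ t ∈ Ioo 0 η, Φ t c ∈ D \ B ∧ Φ (-t) c ∉ D)
  move : ∀ c ∈ D, ∃ η > 0, ∀ t, 0 < |t| → |t| < η → Φ t c ≠ c

end Pool.Agent.Lib_MP_752436_tp
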