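import Pool.Agent.Lib_MP_752436_tp.Flip

/-!
Piece G: Goodness.lean.
-/

open Metric Set Filter
open scoped ContDiff Topology

namespace Pool.Agent.Lib_MP_752436_tp

open Pool.Agent.Lib_MP_752436_gt

section DoubleSetFacts

variable {F : Plane → EuclideanSpace ℝ (Fin 4)}

theorem gn_asymm (x y : Plane) (h : (x, y) ∈ DoubleSet F) : (y, x) ∉ DoubleSet F :=
  fun h' => lt_asymm h.2.2.2 h'.2.2.2

theorem gn_trans {x y z : Plane} (h : (x, y) ∈ DoubleSet F) (h' : (y, z) ∈ DoubleSet F) :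
    (x, z) ∈ DoubleSet F :=
  ⟨h.1, h'.2.1, h.2.2.1.trans h'.2.2.1, h'.2.2.2.trans h.2.2.2⟩

theorem gn_total (hF : IsSliceDisc F) {x y : Plane} (hx : x ∈ closedBall (0 : Plane) 1)
    (hy : y ∈ closedBall (0 : Plane) 1) (hne : x ≠ y) (he : shadow F x = shadow F y) :
    (x, y) ∈ DoubleSet F ∨ (y, x) ∈ DoubleSet F := by
  rcases lt_trichotomy (F x 3) (F y 3) with h | h | h
  · exact Or.inr ⟨hy, hx, he.symm, h⟩
  · exfalso
    apply hne
    apply hF.inj hx hy
    have h0 := congrArg (fun v : EuclideanSpace ℝ (Fin 3) => v 0) he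
    have h1 := congrArg (fun v : EuclideanSpace ℝ (Fin 3) => v 1) he
    have h2 := congrArg (fun v : EuclideanSpace ℝ (Fin 3) => v 2) he
    simp [shadow] at h0 h1 h2
    ext i
    fin_cases i
    · exact h0
    · exact h1
    · exact h2
    · exact h
  · exact Or.inl ⟨hx, hy, he, h⟩

end DoubleSetFacts

section Flipped

variable {F : Plane → EuclideanSpace ℝ (Fin 4)} {ι : Type} {G : Curves ι} {φ : ι → Prop}

theorem gn_c {i : ι} (hi : φ i) (t : ℝ) : (G.flip φ).c i t = (G.c i t).swap :=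
  if_pos hi

theorem gn_c_not {i : ι} (hi : ¬ φ i) (t : ℝ) : (G.flip φ).c i t = G.c i t :=
  if_neg hi

theorem gn_dom {i : ι} {t : ℝ} (ht : t ∈ Icc 0 (G.len i)) : t ∈ G.dom i := Or.inr ht

/-- A pair of the flipped set is a pair of the double set, up to order. -/
theorem gn_mem_or (h : IsCurves G (DoubleSet F)) {p : Plane × Plane}
    (hp : p ∈ (G.flip φ).support) : p ∈ DoubleSet F ∨ p.swap ∈ DoubleSet F := by
  rcases mem_support_flip.1 hp with ⟨i, -, t, ht, he⟩ | ⟨i, -, t, ht, he⟩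
  · exact Or.inl (he ▸ h.mem (gn_dom ht))
  · exact Or.inr (he ▸ h.mem (gn_dom ht))

theorem gn_or_mem (h : IsCurves G (DoubleSet F)) {p : Plane × Plane}
    (hp : p ∈ DoubleSet F) : p ∈ (G.flip φ).support ∨ p.swap ∈ (G.flip φ).support := by
  obtain ⟨i, t, ht, he⟩ := h.exists_param hp
  by_cases hi : φ i
  · exact Or.inr (mem_support_flip.2 (Or.inr ⟨i, hi, t, ht, by simpa using he⟩))
  · exact Or.inl (mem_support_flip.2 (Or.inl ⟨i, hi, t, ht, he⟩))

theorem gn_flip_asymm (h : IsCurves G (DoubleSet F)) {x y : Plane}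
    (hp : (x, y) ∈ (G.flip φ).support) : (y, x) ∉ (G.flip φ).support := by
  intro hq
  rcases mem_support_flip.1 hp with ⟨i, hi, t, ht, he⟩ | ⟨i, hi, t, ht, he⟩
  · rcases mem_support_flip.1 hq with ⟨j, hj, s, hs, he'⟩ | ⟨j, hj, s, hs, he'⟩
    · exact gn_asymm x y (he ▸ h.mem (gn_dom ht)) (he' ▸ h.mem (gn_dom hs))
    · have hij := h.index_eq (gn_dom ht) (gn_dom hs) (he.trans (by simpa using he'.symm))
      exact hi (hij ▸ hj)
  · rcases mem_support_flip.1 hq with ⟨j, hj, s, hs, he'⟩ | ⟨j, hj, s, hs, he'⟩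
    · have hij := h.index_eq (gn_dom ht) (gn_dom hs) (he.trans (by simpa using he'.symm))
      exact hj (hij ▸ hi)
    · have h1 := h.mem (gn_dom ht)
      have h2 := h.mem (gn_dom hs)
      rw [he] at h1
      rw [he'] at h2
      exact gn_asymm y x h1 h2

theorem gn_same (h : IsCurves G (DoubleSet F)) {x y : Plane}
    (hp : (x, y) ∈ (G.flip φ).support) : x ∈ closedBall (0 : Plane) 1 ∧
      y ∈ closedBall (0 : Plane) 1 ∧ x ≠ y ∧ shadow F x = shadow F y := by
  rcases gn_mem_or h hp with hd | hd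
  · refine ⟨hd.1, hd.2.1, ?_, hd.2.2.1⟩
    rintro rfl
    exact lt_irrefl _ hd.2.2.2
  · refine ⟨hd.2.1, hd.1, ?_, hd.2.2.1.symm⟩
    rintro rfl
    exact lt_irrefl _ hd.2.2.2

/-- The pairs with the bottom point of a triple point are not flipped. -/
theorem gn_bottom (h : IsCurves G (DoubleSet F)) (hφ : ∀ i, φ i → Free G (DoubleSet F) i)
    {x y z : Plane} (ht : Triple F x y z) :
    (x, z) ∈ (G.flip φ).support ∧ (y, z) ∈ (G.flip φ).support := by
  constructor
  · obtain ⟨i, t, hti, he⟩ := h.exists_param (gn_trans ht.1 ht.2)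
    refine mem_support_flip.2 (Or.inl ⟨i, fun hi => ?_, t, hti, he⟩)
    refine (hφ i hi).2 t x y ht.1 ?_
    show (y, (G.c i t).2) ∈ DoubleSet F
    rw [he]
    exact ht.2
  · obtain ⟨i, t, hti, he⟩ := h.exists_param ht.2
    refine mem_support_flip.2 (Or.inl ⟨i, fun hi => ?_, t, hti, he⟩)
    refine (hφ i hi).2 t x y ht.1 ?_
    show (y, (G.c i t).2) ∈ DoubleSet F
    rw [he]
    exact ht.2

theorem gn_chain (hF : IsSliceDisc F) (h : IsCurves G (DoubleSet F))
    (hφ : ∀ i, φ i → Free G (DoubleSet F) i) {x y z : Plane}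
    (h1 : (x, y) ∈ (G.flip φ).support) (h2 : (y, z) ∈ (G.flip φ).support) :
    Triple F x y z ∨ Triple F y x z := by
  have a1 := gn_same h h1
  have a2 := gn_same h h2
  have hxz : x ≠ z := by
    rintro rfl
    exact gn_flip_asymm h h1 h2
  rcases gn_total hF a2.1 a2.2.1 a2.2.2.1 a2.2.2.2 with hyz | hzy
  · rcases gn_total hF a1.1 a1.2.1 a1.2.2.1 a1.2.2.2 with hxy | hyx
    · exact Or.inl ⟨hxy, hyz⟩
    · rcases gn_total hF a1.1 a2.2.1 hxz (a1.2.2.2.trans a2.2.2.2) with hxz' | hzx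
      · exact Or.inr ⟨hyx, hxz'⟩
      · exact absurd (gn_bottom h hφ ⟨hyz, hzx⟩).1 (gn_flip_asymm h h1)
  · exfalso
    rcases gn_total hF a1.1 a1.2.1 a1.2.2.1 a1.2.2.2 with hxy | hyx
    · rcases gn_total hF a1.1 a2.2.1 hxz (a1.2.2.2.trans a2.2.2.2) with hxz' | hzx
      · exact gn_flip_asymm h h2 (gn_bottom h hφ ⟨hxz', hzy⟩).2
      · exact gn_flip_asymm h h2 (gn_bottom h hφ ⟨hzx, hxy⟩).1
    · exact gn_flip_asymm h h1 (gn_bottom h hφ ⟨hzy, hyx⟩).2

end Flipped

theorem good_flip {F : Plane → EuclideanSpace ℝ (Fin 4)} (hF : IsSliceDisc F)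
    (hg : GeneralPosition F) {ι : Type} {G : Curves ι}
    (h : IsCurves G (DoubleSet F)) {φ : ι → Prop} (hφ : ∀ i, φ i → Free G (DoubleSet F) i) :
    Good (G.flip φ) (G.flip φ).support := by
  refine ⟨isCurves_flip h (fun x y => gn_asymm x y) (fun i hi => (hφ i hi).1), ?_, ?_, ?_, ?_⟩
  · intro x hx
    exact (gn_same h hx).2.2.1 rfl
  · intro x y z h1 h2
    rcases gn_chain hF h hφ h1 h2 with ht | ht
    · exact (gn_bottom h hφ ht).1
    · exact (gn_bottom h hφ ht).2
  · intro x y z w h1 h2 h3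
    rcases gn_chain hF h hφ h1 h2 with ht | ht
    · rcases gn_chain hF h hφ h2 h3 with ht' | ht'
      · exact hg.quadruple x y z w ht ht'
      · exact gn_asymm y z ht.2 ht'.1
    · have hyz := gn_trans ht.1 ht.2
      rcases gn_chain hF h hφ h2 h3 with ht' | ht'
      · exact hg.quadruple y x z w ht ⟨ht.2, ht'.2⟩
      · exact gn_asymm y z hyz ht'.1
  · intro x y z h1 h2 hne
    have a1 := gn_same h h1
    have a2 := gn_same h h2
    rcases gn_total hF a1.2.1 a2.2.1 hne (a1.2.2.2.symm.trans a2.2.2.2) with hd | hd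
    · rcases gn_or_mem (φ := φ) h hd with h' | h'
      · exact Or.inl h'
      · exact Or.inr h'
    · rcases gn_or_mem (φ := φ) h hd with h' | h'
      · exact Or.inr h'
      · exact Or.inl h'

/-- A chain of the flipped set through every bottom point. -/
theorem gn_chain_of_triple {F : Plane → EuclideanSpace ℝ (Fin 4)} {ι : Type} {G : Curves ι}
    (h : IsCurves G (DoubleSet F)) {φ : ι → Prop} (hφ : ∀ i, φ i → Free G (DoubleSet F) i)
    {x y z : Plane} (ht : Triple F x y z) :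
    ∃ a b, (a, b) ∈ (G.flip φ).support ∧ (b, z) ∈ (G.flip φ).support := by
  obtain ⟨h1, h2⟩ := gn_bottom h hφ ht
  rcases gn_or_mem (φ := φ) h ht.1 with h3 | h3
  · exact ⟨x, y, h3, h2⟩
  · exact ⟨y, x, h3, h1⟩

/-- Curves which are free after the flip were free before. -/
theorem free_of_free_flip {F : Plane → EuclideanSpace ℝ (Fin 4)} {ι : Type} {G : Curves ι}
    (h : IsCurves G (DoubleSet F)) {φ : ι → Prop} (hφ : ∀ i, φ i → Free G (DoubleSet F) i)
    {i : ι} (hi : Free (G.flip φ) (G.flip φ).support i) : Free G (DoubleSet F) i := by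
  by_cases hφi : φ i
  · exact hφ i hφi
  · refine ⟨hi.1, fun t x y hxy hyz => ?_⟩
    obtain ⟨a, b, hab, hbz⟩ := gn_chain_of_triple h hφ (⟨hxy, hyz⟩ : Triple F x y (G.snd i t))
    refine hi.2 t a b hab ?_
    have : (G.flip φ).snd i t = G.snd i t := by
      show ((G.flip φ).c i t).2 = (G.c i t).2
      rw [gn_c_not hφi]
    rw [this]
    exact hbz

theorem crossingInfo_flip {F : Plane → EuclideanSpace ℝ (Fin 4)} (hF : IsSliceDisc F)
    (hg : GeneralPosition F) {ι : Type} [Finite ι] {G : Curves ι}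
    (h : IsCurves G (DoubleSet F)) {φ : ι → Prop} (hφ : ∀ i, φ i → G.closed i) :
    CrossingInfo (shadow F) (fun x y => (x, y) ∈ (G.flip φ).support) := by
  have hc := isCurves_flip h (fun x y => gn_asymm x y) hφ
  refine ⟨hc.isCompact.isClosed, ?_, ?_⟩
  · intro x y hxy
    obtain ⟨i, t, ht, he⟩ := hc.exists_param hxy
    have hs := gn_same h hxy
    refine ⟨?_, hs.2.1, hs.2.2.1, hs.2.2.2⟩
    have h1 := hc.fstMem i t (Or.inr ht)
    have h2 : (G.flip φ).fst i t = x := by
      show ((G.flip φ).c i t).1 = x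
      rw [he]
    rw [h2] at h1
    exact h1
  · intro x hx y hy hne he
    rcases gn_total hF hx hy hne he with hd | hd
    · rcases gn_or_mem (φ := φ) h hd with h' | h'
      · exact Or.inl h'
      · exact Or.inr h'
    · rcases gn_or_mem (φ := φ) h hd with h' | h'
      · exact Or.inr h'
      · exact Or.inl h'

end Pool.Agent.Lib_MP_752436_tp
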