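import Pool.Agent.Lib_MP_752436_tp.Defs2

/-!
Piece H: Hull.lean.
-/

open Metric Set Filter
open scoped ContDiff Topology

namespace Pool.Agent.Lib_MP_752436_tp

open Pool.Agent.Lib_MP_752436_gt

theorem subset_hull (X : Set Plane) : X ⊆ hull X := by
  intro p hp S _ hpS hd
  exact ((Set.disjoint_left.1 hd hpS) hp).elim

theorem hull_subset {X Y : Set Plane} (h : X ⊆ hull Y) : hull X ⊆ hull Y := by
  intro p hp S hS hpS hd
  by_cases hx : ∃ x, x ∈ S ∧ x ∈ X
  · obtain ⟨x, hxS, hxX⟩ := hx
    exact h hxX S hS hxS hd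
  · refine hp S hS hpS (Set.disjoint_left.2 fun x hxS hxX => hx ⟨x, hxS, hxX⟩)

theorem subset_hull_of_isPreconnected {S Y : Set Plane} (hS : IsPreconnected S)
    (hd : Disjoint S Y) {p : Plane} (hp : p ∈ S) (hpY : p ∈ hull Y) : S ⊆ hull Y := by
  intro q hq T hT hqT hdT
  have h1 : IsPreconnected (S ∪ T) := IsPreconnected.union q hq hqT hS hT
  have h2 : Bornology.IsBounded (S ∪ T) :=
    hpY (S ∪ T) h1 (Or.inl hp) (hd.union_left hdT)
  exact h2.subset subset_union_right

theorem isPreconnected_compl_ball (r : ℝ) : IsPreconnected (ball (0 : Plane) r)ᶜ := by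
  rcases le_or_gt r 0 with hr | hr
  · rw [ball_eq_empty.2 hr, compl_empty]
    exact isPreconnected_univ
  · have hrank : 1 < Module.rank ℝ Plane := by
      rw [← Module.finrank_eq_rank]
      simp [Plane]
    have h1 : IsPreconnected (sphere (0 : Plane) 1) := isPreconnected_sphere hrank 0 1
    have h2 : IsPreconnected (Ici r) := isPreconnected_Ici
    have h3 : IsPreconnected ((fun q : Plane × ℝ => q.2 • q.1) '' (sphere (0 : Plane) 1 ×ˢ Ici r)) :=
      (h1.prod h2).image _ (by fun_prop)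
    have h4 : (fun q : Plane × ℝ => q.2 • q.1) '' (sphere (0 : Plane) 1 ×ˢ Ici r)
        = (ball (0 : Plane) r)ᶜ := by
      ext p
      constructor
      · rintro ⟨⟨x, s⟩, ⟨hx, hs⟩, rfl⟩
        have hx' : ‖x‖ = 1 := by simpa using hx
        have hs' : r ≤ s := hs
        simp only [mem_compl_iff, mem_ball, dist_zero_right, norm_smul, hx', mul_one,
          Real.norm_eq_abs, not_lt]
        exact hs'.trans (le_abs_self s)
      · intro hp
        have hp' : r ≤ ‖p‖ := by simpa using hp
        have hpos : 0 < ‖p‖ := lt_of_lt_of_le hr hp'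
        refine ⟨(‖p‖⁻¹ • p, ‖p‖), ⟨?_, hp'⟩, ?_⟩
        · simp [norm_smul, inv_mul_cancel₀ hpos.ne']
        · simp [smul_smul, mul_inv_cancel₀ hpos.ne']
    rw [← h4]
    exact h3

theorem not_isBounded_compl_ball (r : ℝ) : ¬ Bornology.IsBounded (ball (0 : Plane) r)ᶜ := by
  intro h
  have h1 : Bornology.IsBounded (ball (0 : Plane) r ∪ (ball (0 : Plane) r)ᶜ) :=
    isBounded_ball.union h
  rw [union_compl_self] at h1
  exact NormedSpace.unbounded_univ ℝ Plane h1

theorem hull_subset_ball {X : Set Plane} {r : ℝ} (h : X ⊆ ball 0 r) : hull X ⊆ ball 0 r := by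
  intro p hp
  by_contra hpn
  exact not_isBounded_compl_ball r (hp _ (isPreconnected_compl_ball r) hpn
    (Set.disjoint_left.2 fun x hx hxX => hx (h hxX)))

theorem exists_of_notMem_hull {X : Set Plane} {p : Plane} (hp : p ∉ hull X) :
    ∃ S : Set Plane, IsPreconnected S ∧ p ∈ S ∧ Disjoint S X ∧ ¬ Bornology.IsBounded S := by
  by_contra hcon
  apply hp
  intro S hS hpS hd
  by_contra hb
  exact hcon ⟨S, hS, hpS, hd, hb⟩

theorem ball_notMem_hull {X : Set Plane} {p q : Plane} {ε : ℝ}
    (hb : Disjoint (ball p ε) X) (hq : q ∈ ball p ε) (hqX : q ∉ hull X) :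
    Disjoint (ball p ε) (hull X) := by
  obtain ⟨S, hS, hqS, hd, hu⟩ := exists_of_notMem_hull hqX
  refine Set.disjoint_left.2 fun y hy hyX => ?_
  have h1 : IsPreconnected (S ∪ ball p ε) :=
    IsPreconnected.union q hqS hq hS (convex_ball p ε).isPreconnected
  have h2 := hyX (S ∪ ball p ε) h1 (Or.inr hy) (hd.union_left hb)
  exact hu (h2.subset subset_union_left)

theorem exists_ball_disjoint {X : Set Plane} (hX : IsCompact X) {p : Plane} (hp : p ∉ X) :
    ∃ ε > 0, Disjoint (ball p ε) X := by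
  obtain ⟨ε, hε, h⟩ := Metric.isOpen_iff.1 hX.isClosed.isOpen_compl p hp
  exact ⟨ε, hε, Set.disjoint_left.2 fun x hx hxX => h hx hxX⟩

theorem isClosed_hull {X : Set Plane} (hX : IsCompact X) : IsClosed (hull X) := by
  rw [← isOpen_compl_iff, Metric.isOpen_iff]
  intro p hp
  have hpX : p ∉ X := fun h => hp (subset_hull X h)
  obtain ⟨ε, hε, hd⟩ := exists_ball_disjoint hX hpX
  refine ⟨ε, hε, fun y hy hyX => ?_⟩
  exact Set.disjoint_left.1 (ball_notMem_hull hd (mem_ball_self hε) hp) hy hyX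

theorem frontier_hull_subset {X : Set Plane} (hX : IsCompact X) : frontier (hull X) ⊆ X := by
  intro p hp
  by_contra hpX
  obtain ⟨ε, hε, hd⟩ := exists_ball_disjoint hX hpX
  have hpH : p ∈ hull X := (isClosed_hull hX).frontier_subset hp
  have hpc : p ∈ closure (hull X)ᶜ := by
    rw [frontier_eq_closure_inter_closure] at hp
    exact hp.2
  obtain ⟨q, hqX, hq⟩ := Metric.mem_closure_iff.1 hpc ε hε
  have hq' : q ∈ ball p ε := by
    rw [mem_ball, dist_comm]
    exact hq
  exact Set.disjoint_left.1 (ball_notMem_hull hd hq' hqX) (mem_ball_self hε) hpH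

theorem compl_ball_subset_compl_hull {X : Set Plane} (hX : IsCompact X) :
    ∃ r : ℝ, (ball (0 : Plane) r)ᶜ ⊆ (hull X)ᶜ := by
  obtain ⟨r, hr⟩ := hX.isBounded.subset_ball (0 : Plane)
  exact ⟨r, compl_subset_compl.2 (hull_subset_ball hr)⟩

theorem not_isBounded_compl_hull {X : Set Plane} (hX : IsCompact X) :
    ¬ Bornology.IsBounded (hull X)ᶜ := by
  obtain ⟨r, hr⟩ := compl_ball_subset_compl_hull hX
  exact fun h => not_isBounded_compl_ball r (h.subset hr)

theorem isPreconnected_compl_hull {X : Set Plane} (hX : IsCompact X) :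
    IsPreconnected (hull X)ᶜ := by
  obtain ⟨r, hr⟩ := compl_ball_subset_compl_hull hX
  have hne : ((ball (0 : Plane) r)ᶜ).Nonempty := by
    by_contra hcon
    rw [Set.not_nonempty_iff_eq_empty] at hcon
    apply not_isBounded_compl_ball r
    rw [hcon]
    exact Bornology.isBounded_empty
  obtain ⟨x0, hx0⟩ := hne
  refine isPreconnected_of_forall x0 fun y hy => ?_
  obtain ⟨S, hS, hyS, hd, hu⟩ := exists_of_notMem_hull hy
  have hSsub : S ⊆ (hull X)ᶜ := fun z hz hzX => hu (hzX S hS hz hd)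
  have hmeet : ∃ z, z ∈ S ∧ z ∈ (ball (0 : Plane) r)ᶜ := by
    by_contra hcon
    apply hu
    refine isBounded_ball.subset (t := ball (0 : Plane) r) fun z hz => ?_
    by_contra hzn
    exact hcon ⟨z, hz, hzn⟩
  obtain ⟨z, hzS, hzb⟩ := hmeet
  exact ⟨S ∪ (ball (0 : Plane) r)ᶜ, union_subset hSsub hr, Or.inr hx0, Or.inl hyS,
    IsPreconnected.union z hzS hzb hS (isPreconnected_compl_ball r)⟩

theorem hull_antisymm {X Y : Set Plane} (hX : IsCompact X) (hY : IsCompact Y)
    (hXn : X.Nonempty) (hd : Disjoint X Y) (h1 : X ⊆ hull Y) (h2 : Y ⊆ hull X) : False := by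
  have heq : hull X = hull Y := Subset.antisymm (hull_subset h1) (hull_subset h2)
  have hfr : frontier (hull X) = ∅ := by
    rw [Set.eq_empty_iff_forall_notMem]
    intro p hp
    have ha := frontier_hull_subset hX hp
    rw [heq] at hp
    exact Set.disjoint_left.1 hd ha (frontier_hull_subset hY hp)
  have hclopen : IsClopen (hull X) := isClopen_iff_frontier_eq_empty.2 hfr
  rcases isClopen_iff.1 hclopen with he | hu
  · obtain ⟨x, hx⟩ := hXn
    have := subset_hull X hx
    rw [he] at this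
    exact this
  · apply not_isBounded_compl_hull hX
    rw [hu, compl_univ]
    exact Bornology.isBounded_empty

end Pool.Agent.Lib_MP_752436_tp
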