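import Pool.Agent.Lib_MP_752436_tp.FrontierCurve
import Pool.Agent.Lib_MP_752436_tp.BoxJump

/-!
Piece N5: Inside.lean. Every interior point of a trap is enclosed by one of the closed upper curves
on the frontier of its outer region.
-/

open Metric Set Filter
open scoped ContDiff Topology

namespace Pool.Agent.Lib_MP_752436_tp

open Pool.Agent.Lib_MP_752436_gt

variable {ι : Type} {G : Curves ι} {D : Set (Plane × Plane)}

theorem inter_frontier_nonempty {S A : Set Plane} (hS : IsPreconnected S)
    (h1 : (S ∩ A).Nonempty) (h2 : (S ∩ Aᶜ).Nonempty) : (S ∩ frontier A).Nonempty := by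
  by_contra hcon
  rw [Set.not_nonempty_iff_eq_empty] at hcon
  have hno : ∀ x ∈ S, x ∉ frontier A := fun x hx hx' => by
    have : x ∈ S ∩ frontier A := ⟨hx, hx'⟩
    rw [hcon] at this
    exact this
  obtain ⟨x, hxS, hxA⟩ := h1
  obtain ⟨y, hyS, hyA⟩ := h2
  have hx : x ∈ interior A := by
    by_contra hxi
    exact hno x hxS ⟨subset_closure hxA, hxi⟩
  have hy : y ∈ (closure A)ᶜ := fun hyc => hno y hyS ⟨hyc, fun hyi => hyA (interior_subset hyi)⟩
  obtain ⟨z, -, hz1, hz2⟩ := hS (interior A) (closure A)ᶜ isOpen_interior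
    isClosed_closure.isOpen_compl
    (fun z hz => by
      by_cases hzi : z ∈ interior A
      · exact Or.inl hzi
      · exact Or.inr fun hzc => hno z hz ⟨hzc, hzi⟩)
    ⟨x, hxS, hx⟩ ⟨y, hyS, hy⟩
  exact hz2 (subset_closure (interior_subset hz1))

/-- The upper curve of a closed double curve on the frontier is simple. -/
theorem fst_simple (h : Good G D) {Z : Set Plane} (hnb : NoBottom D Z) {j : ι}
    (hj : G.closed j) (hlow : ∀ t, G.snd j t ∈ interior Z) {t t' : ℝ}
    (ht' : t' ∈ Ioo t (t + G.len j)) : G.fst j t' ≠ G.fst j t := by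
  intro heq
  apply h.curves.ne_of_mem_Ioo hj ht'
  have m1 : ((G.fst j t, G.snd j t) : Plane × Plane) ∈ D := h.curves.mem (i := j) (Or.inl hj)
  have m2 : ((G.fst j t, G.snd j t') : Plane × Plane) ∈ D := by
    rw [← heq]; exact h.curves.mem (i := j) (Or.inl hj)
  have hsn : G.snd j t' = G.snd j t :=
    unique_below h hnb (interior_subset (hlow t')) (interior_subset (hlow t)) m2 m1
  show ((G.fst j t', G.snd j t') : Plane × Plane) = (G.fst j t, G.snd j t)
  rw [heq, hsn]

theorem mem_hull_up [Finite ι] (h : Good G D) {Z : Set Plane}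
    (hZ : IsTrapOf (fun x y => (x, y) ∈ D) Z) (hnb : NoBottom D Z) {p : Plane}
    (hp : p ∈ interior Z) :
    ∃ j, G.closed j ∧ G.up j ⊆ frontier (hull (closure (interior Z))) ∧
      (∀ t, G.snd j t ∈ interior Z) ∧ p ∈ hull (G.up j) := by
  have hK := isCompact_closure_interior hZ.compact
  set V := hull (closure (interior Z)) with hV
  have hVc : IsClosed V := isClosed_hull hK
  have hpV : p ∈ V := subset_hull _ (subset_closure hp)
  have hpf : p ∉ frontier V := fun h' => (Set.disjoint_left.1 frontier_hull_disjoint hp) h'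
  set O := connectedComponentIn (frontier V)ᶜ p with hO
  have hOpre : IsPreconnected O := isPreconnected_connectedComponentIn
  have hOopen : IsOpen O := isClosed_frontier.isOpen_compl.connectedComponentIn
  have hpO : p ∈ O := mem_connectedComponentIn hpf
  have hOsub : O ⊆ (frontier V)ᶜ := connectedComponentIn_subset _ _
  have hOV : ∀ x ∈ O, x ∈ V := by
    intro x hx
    by_contra hxV
    obtain ⟨y, hy1, hy2⟩ := inter_frontier_nonempty hOpre ⟨p, hpO, hpV⟩ ⟨x, hx, hxV⟩
    exact hOsub hy1 hy2
  have hVcne : (Vᶜ).Nonempty := by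
    by_contra hcon
    rw [Set.not_nonempty_iff_eq_empty] at hcon
    apply not_isBounded_compl_hull hK
    rw [← hV, hcon]
    exact Bornology.isBounded_empty
  obtain ⟨y0, hy0⟩ := hVcne
  have hOne : O ≠ univ := by
    intro hcon
    exact hy0 (hOV y0 (hcon ▸ mem_univ y0))
  obtain ⟨q, hq⟩ : (frontier O).Nonempty := nonempty_frontier_iff.2 ⟨⟨p, hpO⟩, hOne⟩
  have hqO : q ∉ O := by
    intro h'
    exact hq.2 (hOopen.interior_eq.symm ▸ h')
  have hqf : q ∈ frontier V := by
    by_contra hcon
    obtain ⟨ε, hε, hB⟩ := Metric.isOpen_iff.1 isClosed_frontier.isOpen_compl q hcon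
    obtain ⟨x, hx1, hx2⟩ := mem_closure_iff.1 hq.1 (ball q ε) isOpen_ball (mem_ball_self hε)
    have hpre : IsPreconnected (O ∪ ball q ε) :=
      hOpre.union x hx2 hx1 (convex_ball q ε).isPreconnected
    have := hpre.subset_connectedComponentIn (Or.inl hpO) (union_subset hOsub hB)
    exact hqO (this (Or.inr (mem_ball_self hε)))
  obtain ⟨j, hj, ⟨t, -, htq⟩, hup, hlow⟩ := frontier_curve h hZ hnb hqf
  refine ⟨j, hj, hup, hlow, ?_⟩
  have hsm : ContDiff ℝ 1 (G.fst j) := contDiff_fst.comp (h.curves.smooth j)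
  have hL := h.curves.pos j
  have hper : ∀ s, G.fst j (s + G.len j) = G.fst j s := fun s => by
    show (G.c j (s + G.len j)).1 = (G.c j s).1
    rw [h.curves.periodic j hj s]
  have hcl : G.fst j (G.len j) = G.fst j 0 := by simpa using hper 0
  obtain ⟨ν, hν⟩ := exists_det2_ne (h.curves.immFst j t (Or.inl hj))
  have htf : G.fst j t ∈ frontier V := htq ▸ hqf
  obtain ⟨O1, hO1, hfO⟩ := frontier_local h hZ hnb hj htf (hlow t) one_pos
  obtain ⟨η, hη, -, N, P, M, hb, htN, hNO, hNr, hwind, -⟩ :=
    exists_jumpBox hsm hL hper (t0 := t) (fun t' ht' => fst_simple h hnb hj hlow ht') hν hO1 one_pos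
  have hfN : frontier V ∩ N ⊆ G.fst j '' Ioo (t - η) (t + η) := by
    intro x hx
    apply hNr
    obtain ⟨s, -, hs⟩ := hfO ⟨hx.1, hNO hx.2⟩
    exact ⟨hx.2, s, hs⟩
  have hside := side_argument (V := Vᶜ) (W := interior Z) hb
    hVc.isOpen_compl isOpen_interior
    (Set.disjoint_left.2 fun x hx hx' => hx (subset_hull _ (subset_closure hx'))) htN
    (by
      rw [closure_compl]
      intro hmem
      exact htf.2 hmem)
    (frontier_hull_subset hK htf)
    (by rw [frontier_compl]; exact hfN)
  rw [frontier_compl] at hside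
  obtain ⟨hAf, hPM⟩ := hside
  have htA : G.fst j t ∈ G.fst j '' Ioo (t - η) (t + η) :=
    ⟨t, ⟨by linarith, by linarith⟩, rfl⟩
  have hPne : P.Nonempty := by
    have := hb.closP htA
    by_contra hcon
    rw [Set.not_nonempty_iff_eq_empty] at hcon
    rw [hcon, closure_empty] at this
    exact this
  have hMne : M.Nonempty := by
    have := hb.closM htA
    by_contra hcon
    rw [Set.not_nonempty_iff_eq_empty] at hcon
    rw [hcon, closure_empty] at this
    exact this
  -- the winding number vanishes outside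
  have hdV : Disjoint (Vᶜ) (G.fst j '' Icc 0 (G.len j)) := by
    rw [Set.disjoint_left]
    intro x hx hx'
    exact hx (hVc.frontier_subset (hup hx'))
  have hw0 : ∀ x ∈ Vᶜ, wind (G.fst j) (G.len j) x = 0 := fun x hx =>
    wind_zero hsm hL hcl (isPreconnected_compl_hull hK) hdV (not_isBounded_compl_hull hK) hx
  -- a point of `O` in `N`
  obtain ⟨x, hxN, hxO⟩ := mem_closure_iff.1 hq.1 N hb.openN (htq ▸ htN)
  have hxA : x ∉ G.fst j '' Ioo (t - η) (t + η) := fun h' => hOsub hxO (hAf h')
  have hxw : wind (G.fst j) (G.len j) x ≠ 0 := by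
    rw [hb.union] at hxN
    rcases hPM with ⟨hP, hM⟩ | ⟨hM, hP⟩
    · rcases hxN with (h1 | h1) | h1
      · exact absurd (hOV x hxO) (hP h1)
      · obtain ⟨y, hy⟩ := hPne
        have := hwind y hy x h1
        rw [hw0 y (hP hy)] at this
        exact this.symm
      · exact absurd h1 hxA
    · rcases hxN with (h1 | h1) | h1
      · obtain ⟨y, hy⟩ := hMne
        have := hwind x h1 y hy
        rw [hw0 y (hM hy)] at this
        exact this
      · exact absurd (hOV x hxO) (hM h1)
      · exact absurd h1 hxA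
  have hdO : Disjoint O (G.fst j '' Icc 0 (G.len j)) := by
    rw [Set.disjoint_left]
    intro y hy hy'
    exact hOsub hy (hup hy')
  have hpw : wind (G.fst j) (G.len j) p ≠ 0 := by
    rw [wind_const hsm hL hcl hOpre hdO hpO hxO]
    exact hxw
  exact mem_hull_of_wind hsm hL hcl hpw

end Pool.Agent.Lib_MP_752436_tp
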