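import Pool.Agent.Lib_MP_752436_tp.BoxJump

/-!
Piece C1: Single.lean.
-/

open Metric Set Filter
open scoped ContDiff Topology

namespace Pool.Agent.Lib_MP_752436_tp

open Pool.Agent.Lib_MP_752436_gt

theorem single_crossing_closed {γ δ : ℝ → Plane} (hγ : ContDiff ℝ 1 γ) (hδ : ContDiff ℝ 1 δ)
    {L K : ℝ} (hL : 0 < L) (hK : 0 < K) (hper : ∀ t, γ (t + L) = γ t)
    (hperδ : ∀ t, δ (t + K) = δ t) {t0 r0 : ℝ} (hs : ∀ t ∈ Ioo t0 (t0 + L), γ t ≠ γ t0)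
    (h0 : δ r0 = γ t0) (hν : det2 (deriv γ t0) (deriv δ r0) ≠ 0)
    (hd : ∀ r ∈ Ioo r0 (r0 + K), δ r ∉ range γ) : False := by
  obtain ⟨η, hη, -, N, P, M, hbox, -, -, -, hw, hcross⟩ :=
    exists_jumpBox hγ hL hper hs hν (univ_mem (f := 𝓝 (γ t0))) one_pos
  have hder : HasDerivAt δ (deriv δ r0) r0 :=
    ((hδ.differentiable (by norm_num)) r0).hasDerivAt
  have h1 := hcross δ r0 hder h0
  have h2 : ∀ᶠ s in 𝓝[>] (0 : ℝ), s ∈ Ioo (0 : ℝ) (K / 2) :=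
    Ioo_mem_nhdsGT (by linarith)
  obtain ⟨s, ⟨hsP, hsM⟩, hs0, hsK⟩ := (h1.and h2).exists
  have hM' : δ (r0 + K - s) ∈ M := by
    have : δ (r0 + K - s) = δ (r0 - s) := by
      rw [← hperδ (r0 - s)]
      congr 1
      ring
    rw [this]
    exact hsM
  have hS : IsPreconnected (δ '' Ioo r0 (r0 + K)) :=
    isPreconnected_Ioo.image _ hδ.continuous.continuousOn
  have hdis : Disjoint (δ '' Ioo r0 (r0 + K)) (γ '' Icc 0 L) := by
    rw [Set.disjoint_left]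
    rintro _ ⟨r, hr, rfl⟩ ⟨u, _, hu⟩
    exact hd r hr ⟨u, hu⟩
  have hcl : γ L = γ 0 := by
    have := hper 0
    rwa [zero_add] at this
  exact hw _ hsP _ hM' (wind_const hγ hL hcl hS hdis ⟨r0 + s, ⟨by linarith, by linarith⟩, rfl⟩
    ⟨r0 + K - s, ⟨by linarith, by linarith⟩, rfl⟩)

theorem single_crossing_arc {γ δ : ℝ → Plane} (hγ : ContDiff ℝ 1 γ) (hδ : ContDiff ℝ 1 δ)
    {L a b : ℝ} (hL : 0 < L) (hper : ∀ t, γ (t + L) = γ t) (hin : ∀ t, γ t ∈ ball (0 : Plane) 1)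
    {t0 r0 : ℝ} (hs : ∀ t ∈ Ioo t0 (t0 + L), γ t ≠ γ t0) (h0 : δ r0 = γ t0)
    (hr0 : r0 ∈ Icc a b) (hν : det2 (deriv γ t0) (deriv δ r0) ≠ 0)
    (ha : δ a ∈ sphere (0 : Plane) 1) (hb : δ b ∈ sphere (0 : Plane) 1)
    (hd : ∀ r ∈ Icc a b, r ≠ r0 → δ r ∉ range γ) : False := by
  obtain ⟨η, hη, -, N, P, M, hbox, -, -, -, hw, hcross⟩ :=
    exists_jumpBox hγ hL hper hs hν (univ_mem (f := 𝓝 (γ t0))) one_pos
  have hder : HasDerivAt δ (deriv δ r0) r0 :=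
    ((hδ.differentiable (by norm_num)) r0).hasDerivAt
  have h1 := hcross δ r0 hder h0
  have hball : δ r0 ∈ ball (0 : Plane) 1 := by
    rw [h0]
    exact hin t0
  have hra : a < r0 := by
    refine lt_of_le_of_ne hr0.1 ?_
    rintro rfl
    rw [mem_ball] at hball
    rw [mem_sphere] at ha
    linarith
  have hrb : r0 < b := by
    refine lt_of_le_of_ne hr0.2 ?_
    rintro rfl
    rw [mem_ball] at hball
    rw [mem_sphere] at hb
    linarith
  have h2 : ∀ᶠ s in 𝓝[>] (0 : ℝ), s ∈ Ioo (0 : ℝ) (min (r0 - a) (b - r0)) :=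
    Ioo_mem_nhdsGT (lt_min (by linarith) (by linarith))
  obtain ⟨s, ⟨hsP, hsM⟩, hs0, hsK⟩ := (h1.and h2).exists
  have hsa : s < r0 - a := lt_of_lt_of_le hsK (min_le_left _ _)
  have hsb : s < b - r0 := lt_of_lt_of_le hsK (min_le_right _ _)
  have hcl : γ L = γ 0 := by
    have := hper 0
    rwa [zero_add] at this
  have hcompl : ∀ p : Plane, p ∈ sphere (0 : Plane) 1 → p ∈ (ball (0 : Plane) 1)ᶜ := by
    intro p hp hp'
    rw [mem_ball] at hp'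
    rw [mem_sphere] at hp
    linarith
  -- the general statement for a part of the arc
  have key : ∀ u v w e : ℝ, u ∈ Icc a b → v ∈ Icc a b → r0 ∉ Icc u v → w ∈ Icc u v →
      e ∈ Icc u v → δ e ∈ sphere (0 : Plane) 1 → wind γ L (δ w) = 0 := by
    intro u v w e hu hv hr hw' he hes
    have hS : IsPreconnected (δ '' Icc u v ∪ (ball (0 : Plane) 1)ᶜ) :=
      IsPreconnected.union (δ e) ⟨e, he, rfl⟩ (hcompl _ hes)
        (isPreconnected_Icc.image _ hδ.continuous.continuousOn) (isPreconnected_compl_ball 1)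
    have hdis : Disjoint (δ '' Icc u v ∪ (ball (0 : Plane) 1)ᶜ) (γ '' Icc 0 L) := by
      rw [Set.disjoint_left]
      rintro _ (⟨r, hr', rfl⟩ | hr') ⟨x, _, hx⟩
      · refine hd r ⟨hu.1.trans hr'.1, hr'.2.trans hv.2⟩ ?_ ⟨x, hx⟩
        rintro rfl
        exact hr hr'
      · exact hr' (hx ▸ hin x)
    refine wind_zero hγ hL hcl hS hdis ?_ (Or.inl ⟨w, hw', rfl⟩)
    intro hbd
    exact not_isBounded_compl_ball 1 (hbd.subset subset_union_right)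
  have e1 : wind γ L (δ (r0 - s)) = 0 :=
    key a (r0 - s) (r0 - s) a ⟨le_rfl, by linarith⟩ ⟨by linarith, by linarith⟩
      (fun h => by linarith [h.2]) ⟨by linarith, le_rfl⟩ ⟨le_rfl, by linarith⟩ ha
  have e2 : wind γ L (δ (r0 + s)) = 0 :=
    key (r0 + s) b (r0 + s) b ⟨by linarith, by linarith⟩ ⟨by linarith, le_rfl⟩
      (fun h => by linarith [h.1]) ⟨le_rfl, by linarith⟩ ⟨by linarith, le_rfl⟩ hb
  exact hw _ hsP _ hsM (e2.trans e1.symm)

end Pool.Agent.Lib_MP_752436_tp
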